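import Pool.Agent.Lib.TPC.BlueZ
import Pool.Agent.Lib.TPC.BlueF2

/-! The statements of the blueprint for every dimension `d ≥ 7`. -/

open Finset MeasureTheory ProbabilityTheory Filter Topology

namespace Pool.Agent.TPC.S7

open Pool.Agent.Lib.MP_81a99a_pr (lattice torus cluster kthLargest pc MeanField)

/-- finite-volume form of the hypothesis; `p` is the critical value -/
structure HZ (d : ℕ) (p c C : ℝ) : Prop where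
  hd : 7 ≤ d
  p0 : 0 < p
  p1 : p < 1
  c0 : 0 < c
  up : ∀ (D : Finset (Zd d)) (x y : Zd d), tz p D x y ≤ C * kk (d - 2) (zd x y)
  low : ∀ x y : Zd d, ∃ R : ℕ, c * kk (d - 2) (zd x y) ≤ tz p (box x R) x y

/-- bridge for the hypothesis -/
def St_BRZ : Prop := ∀ d : ℕ, 7 ≤ d → HighDim d → ∃ c C : ℝ, HZ d (pc d) c C

/-- `γ ≤ 1` -/
def St_Z1 : Prop := ∀ (d : ℕ) (p c C : ℝ), HZ d p c C → ∃ C₁ : ℝ, 0 < C₁ ∧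
  ∀ q : ℝ, 0 ≤ q → q < p → ∀ (D : Finset (Zd d)) (x : Zd d), cz q D x ≤ C₁ / (p - q)

/-- `δ ≥ 2` -/
def St_Z2 : Prop := ∀ (d : ℕ) (p c C : ℝ), HZ d p c C → ∃ C₁ : ℝ, 0 < C₁ ∧
  ∀ q : ℝ, 0 ≤ q → q ≤ p → ∀ (D : Finset (Zd d)) (x : Zd d) (s : ℝ), 1 ≤ s →
    ez q D x (fun A => min (A.card : ℝ) s) ≤ C₁ * √s

/-- subcritical two-point function with the sharp length -/
def St_Z7a : Prop := ∀ (d : ℕ) (p c C : ℝ), HZ d p c C → ∃ C₁ c₁ l₀ : ℝ, 0 < C₁ ∧ 0 < c₁ ∧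
  ∀ l : ℝ, l₀ ≤ l → ∀ (D : Finset (Zd d)) (x y : Zd d),
    tz (p - 1 / l ^ 2) D x y ≤ C₁ * kk (d - 2) (zd x y) * Real.exp (-(c₁ * zd x y / l))

/-- critical one-arm bound -/
def St_Z7b : Prop := ∀ (d : ℕ) (p c C : ℝ), HZ d p c C → ∃ C₁ : ℝ, 0 < C₁ ∧
  ∀ (D : Finset (Zd d)) (x : Zd d) (r : ℝ), 0 < r →
    ez p D x (fun A => ind (∃ y ∈ A, r ≤ zd x y)) ≤ C₁ / r ^ 2

/-- subcritical one-arm bound -/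
def St_Z7c : Prop := ∀ (d : ℕ) (p c C : ℝ), HZ d p c C → ∃ C₁ c₁ l₀ : ℝ, 0 < C₁ ∧ 0 < c₁ ∧
  ∀ l : ℝ, l₀ ≤ l → ∀ (D : Finset (Zd d)) (x : Zd d) (r : ℝ), 0 < r →
    ez (p - 1 / l ^ 2) D x (fun A => ind (∃ y ∈ A, r ≤ zd x y)) ≤
      C₁ / r ^ 2 * Real.exp (-(c₁ * r / l))

/-- restricted lower bound -/
def St_Z8 : Prop := ∀ (d : ℕ) (p c C : ℝ), HZ d p c C → ∀ R : ℝ, ∃ R' c₁ l₀ : ℝ, R ≤ R' ∧ 0 < c₁ ∧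
  ∀ l : ℝ, l₀ ≤ l → ∀ x y : Zd d, zd x y ≤ R * l → ∀ D : Finset (Zd d),
    (∀ z, zd x z ≤ R' * l → z ∈ D) → c₁ * kk (d - 2) (zd x y) ≤ tz (p - 1 / l ^ 2) D x y

/-- volume tail slightly above the critical point -/
def St_Z9 : Prop := ∀ (d : ℕ) (p c C : ℝ), HZ d p c C → ∀ κ : ℝ, ∃ C₁ l₀ : ℝ, 0 < C₁ ∧
  ∀ l : ℝ, l₀ ≤ l → ∀ q : ℝ, 0 ≤ q → q ≤ p + κ / l ^ 2 → ∀ (D : Finset (Zd d)) (x : Zd d),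
    ez q D x (fun A => ind (l ^ 4 ≤ (A.card : ℝ))) ≤ C₁ / l ^ 2

/-- upper bounds on the torus at `p - l^(-2)` -/
def St_T1 : Prop := ∀ (d : ℕ) (p c C : ℝ), HZ d p c C → ∃ C₁ c₁ l₀ : ℝ, 0 < C₁ ∧ 0 < c₁ ∧
  ∀ (n : ℕ) [NeZero n], 3 ≤ n → ∀ l : ℝ, l₀ ≤ l → ∀ x : Tor d n,
    (∀ y, tt (p - 1 / l ^ 2) univ x y ≤ C₁ * tg l x y) ∧
    chi (torus d n) (fun _ => p - 1 / l ^ 2) univ x ≤ C₁ * l ^ 2 ∧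
    (∀ s : ℝ, 1 ≤ s →
      EC (torus d n) (fun _ => p - 1 / l ^ 2) univ x (fun A => min (A.card : ℝ) s) ≤ C₁ * √s) ∧
    ∀ (r : ℝ) (S : Finset (Tor d n)), 0 ≤ r → (∀ y ∈ S, r ≤ td x y) →
      ∑ y ∈ S, tt (p - 1 / l ^ 2) univ x y ≤ C₁ * l ^ 2 * Real.exp (-(c₁ * r / l))

/-- plateau lower bound on small tori -/
def St_T2 : Prop := ∀ (d : ℕ) (p c C : ℝ), HZ d p c C → ∀ C₀ : ℝ, ∃ c₁ L₀ : ℝ, 0 < c₁ ∧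
  ∀ (n : ℕ) [NeZero n], 3 ≤ n → ∀ l : ℝ, L₀ ≤ l → (n : ℝ) ≤ C₀ * l → L₀ * l ^ 6 ≤ (n : ℝ) ^ d →
    ∀ x y : Tor d n, c₁ * (l ^ 2 / (n : ℝ) ^ d) ≤ tt (p - 1 / l ^ 2) univ x y

/-- the hypothesis of the landed lower bound -/
def St_T3 : Prop := ∀ (d : ℕ) (c C : ℝ), HZ d (pc d) c C → MeanField d

/-- lower bound for the sum, `x` maximises the susceptibility of the cube -/
def St_Z1m : Prop := ∀ (d : ℕ) (p c C : ℝ), HZ d p c C → ∃ C₁ : ℝ, 0 < C₁ ∧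
  ∀ s : ℝ, 0 ≤ s → s ≤ p → ∀ (r K : ℕ) (i : Fin d) (x : Zd d),
    (∀ u : Zd d, cz s (box 0 r) u ≤ cz s (box 0 r) x) →
    cz s (box 0 r) x * (cz s (box 0 r) x -
        C₁ * kk (d - 6) K * cz s (box (0 : Zd d) (4 * r + K)) 0) ≤
      zsum s (box 0 (4 * r + K)) (box 0 (2 * r)) i K

def St_Z3a : Prop := ∀ (d : ℕ) (p c C : ℝ), HZ d p c C → ∀ r : ℕ, 1 ≤ phi d p r

/-- connections inside a box with comparable sides -/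
def St_Z3 : Prop := ∀ (d : ℕ) (p c C : ℝ), HZ d p c C → ∃ C₁ : ℝ, 0 < C₁ ∧
  ∀ (a b : Zd d) (R : ℕ), (∀ j, (R : ℤ) ≤ b j - a j ∧ b j - a j ≤ 2 * R) →
    ∀ v ∈ rect a b, ∀ w ∈ rect a b,
      Real.exp (-(C₁ * Real.log (R + 2) ^ 2)) ≤ tz p (rect a b) v w

/-- exponential moment of the number of points of a cluster in a cube -/
def St_ETQ : Prop := ∀ (d : ℕ) (p c C : ℝ), HZ d p c C → ∃ c₁ : ℝ, 0 < c₁ ∧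
  ∀ s : ℕ, 1 ≤ s → ∀ (D : Finset (Zd d)) (y u : Zd d),
    ez p D u (fun A => Real.exp (c₁ * (A ∩ box y s).card / (s : ℝ) ^ 4)) ≤ 2

/-- few clusters cross a very thick annulus -/
def St_CROSS : Prop := ∀ (d : ℕ) (p c C : ℝ), HZ d p c C → ∃ s₀ : ℕ,
  ∀ s : ℕ, s₀ ≤ s → ∀ (D : Finset (Zd d)) (y : Zd d) (m : ℕ),
    PE (edges (lattice d) D) (fun _ => p) (fun ω => ind (m <
      (flt (D.image (cl (lattice d) D ω)) fun A =>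
        (∃ u ∈ A, zd y u ≤ s) ∧ ∃ w ∈ A, (s : ℝ) ^ (2 * d + 6) ≤ zd y w).card)) ≤ 3 / 2 ^ m

/-- regularity of the cluster in a larger domain -/
def St_Z4 : Prop := ∀ (d : ℕ) (p c C : ℝ), HZ d p c C → ∃ s₀ : ℕ,
  ∀ s : ℕ, s₀ ≤ s → ∀ (b : Zd d) (M : ℕ) (L : Finset (Zd d)) (x y : Zd d), box b M ⊆ L →
    PE (edges (lattice d) L) (fun _ => p) (fun ω => ind (conn (lattice d) (box b M) ω x y ∧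
      (s : ℝ) ^ (9 / 2 : ℝ) < (cl (lattice d) L ω x ∩ box y s).card)) ≤
      tz p (box b M) x y / (s : ℝ) ^ 2

/-- pioneers of a cube -/
def St_Z5 : Prop := ∀ (d : ℕ) (p c C : ℝ), HZ d p c C → ∃ Φ : ℝ,
  ∀ (b : Zd d) (M : ℕ) (i : Fin d) (x : Zd d),
    ∑ y ∈ flt (box b M) (fun y => y i = b i + M), tz p (box b M) x y ≤ Φ

def St_PSI : Prop := ∀ (d : ℕ) (p c C : ℝ), HZ d p c C → ∃ Φ : ℝ, Psi d p Φ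

/-- the triangle error summed over a layer -/
def St_E2B : Prop := ∀ (d : ℕ) (p c C Φ : ℝ), HZ d p c C → Psi d p Φ → ∃ C₁ : ℝ, 0 < C₁ ∧
  ∀ q : ℝ, 0 ≤ q → q ≤ p → ∀ (K : ℕ) (S L F T : Finset (Zd d)) (i : Fin d) (h k : ℤ) (o : Zd d),
    (∀ y ∈ S, y i ≤ h) → (∀ y ∈ L, y i ≤ h + K) → (∀ y ∈ F, y i = h) → (∀ x ∈ T, x i = k) →
    ∑ x ∈ T, ∑ y ∈ F, ∑ u ∈ S, ∑ v ∈ S,
      tz q S o u * tz q S u y * tz q S u v * (tz q L (y + ev i K) v * tz q L v x) ≤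
        C₁ * kk (1 / 20) K

/-- the square error summed over a layer -/
def St_E1B : Prop := ∀ (d : ℕ) (p c C Φ : ℝ), HZ d p c C → Psi d p Φ → ∀ K : ℕ, ∃ C₁ : ℝ, 0 < C₁ ∧
  ∀ q : ℝ, 0 ≤ q → q ≤ p → ∀ (S L F T : Finset (Zd d)) (i : Fin d) (h k : ℤ) (o : Zd d),
    (∀ y ∈ S, y i ≤ h) → (∀ y ∈ L, y i ≤ h + K) → (∀ y ∈ F, y i = h) → (∀ x ∈ T, x i = k) →
    ∑ x ∈ T, ∑ y ∈ F, ∑ y' ∈ F, ∑ u ∈ S, ∑ v ∈ L, tz q S o u * tz q S u y * tz q S u y' *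
      (tz q L (y + ev i K) v * tz q L (y' + ev i K) v * tz q L v x) ≤ C₁

/-- below the sharp length the susceptibility grows quadratically -/
def St_INC : Prop := ∀ (d : ℕ) (p c C : ℝ), HZ d p c C → ∃ (c₁ : ℝ) (M₀ : ℕ), 0 < c₁ ∧
  ∀ q : ℝ, p / 2 ≤ q → q ≤ p → ∀ M : ℕ, M₀ ≤ M → (∀ r : ℕ, r ≤ 2 * M → 1 / 2 ≤ phi d q r) →
    c₁ * (M : ℝ) ^ 2 ≤ cz q (box (0 : Zd d) (5 * M)) 0

/-- the sharp length at `p - l^(-2)` is `O(l)` -/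
def St_Z7L : Prop := ∀ (d : ℕ) (p c C : ℝ), HZ d p c C → ∃ K l₀ : ℝ, 1 ≤ K ∧ 1 ≤ l₀ ∧
  ∀ l : ℝ, l₀ ≤ l → p / 2 ≤ p - 1 / l ^ 2 ∧
    ∃ L : ℕ, (L : ℝ) + 1 ≤ K * l ∧ phi d (p - 1 / l ^ 2) L ≤ 1 / 2

/-- triple convolution of the torus kernel -/
def St_T2c : Prop := ∀ (d : ℕ) (C₀ ε : ℝ), 7 ≤ d → 0 < ε → ∃ L₀ : ℝ, 1 ≤ L₀ ∧
  ∀ (n : ℕ) [NeZero n] (l : ℝ), L₀ ≤ l → (n : ℝ) ≤ C₀ * l → L₀ * l ^ 6 ≤ (n : ℝ) ^ d →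
    ∀ x y : Tor d n,
      l ^ 2 / (n : ℝ) ^ d * ∑ a, ∑ b, tg l x a * tg l a b * tg l b y ≤ ε * tg l x y

/-- the sum over the lifts -/
def St_T2m : Prop := ∀ (d : ℕ) (p c C : ℝ), HZ d p c C → ∀ C₀ : ℝ, ∃ c₁ l₀ : ℝ, 0 < c₁ ∧
  ∀ (n : ℕ) [NeZero n] (l : ℝ), l₀ ≤ l → (n : ℝ) ≤ C₀ * l → ∀ (x : Zd d) (y : Tor d n),
    ∃ D Y : Finset (Zd d), (∀ v ∈ Y, proj n v = y) ∧
      c₁ * tg l (proj n x) y ≤ ∑ v ∈ Y, tz (p - 1 / l ^ 2) D x v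

/-- local exponential moment of the number of long or heavy points -/
def St_Yb : Prop := ∀ (d : ℕ) (p c C : ℝ), HZ d p c C → ∃ κ₀ θ C₁ : ℝ, 0 < κ₀ ∧ 0 < θ ∧
  ∀ r : ℕ, 1 ≤ r → ∀ q : ℝ, 0 ≤ q → q ≤ 1 → q ≤ p + κ₀ / (r : ℝ) ^ 2 → ∀ x : Zd d,
    PE (edges (lattice d) (box x (2 * r))) (fun _ => q) (fun ω =>
      Real.exp (θ * (flt (box x r) (Lam r ω)).card / (r : ℝ) ^ 4)) ≤
      Real.exp (C₁ * (r : ℝ) ^ (d - 6))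

/-- exponential moment of the number of big points -/
def St_Y : Prop := ∀ (d : ℕ) (p c C : ℝ), HZ d p c C → ∀ κ R : ℝ, ∃ θ C₁ l₀ C₀ : ℝ, 0 < θ ∧
  0 < C₁ ∧ ∀ (n : ℕ) [NeZero n] (l q : ℝ), l₀ ≤ l → C₀ * l ≤ n → 0 ≤ q → q ≤ 1 →
    q ≤ p + κ / l ^ 2 → ∀ Z P : Finset (Tor d n), (∀ y ∈ P, ∃ z ∈ Z, td z y ≤ R * l) →
    PE univ (fun _ => q) (fun ω => Real.exp (θ *
      (flt P fun y => l ^ 4 ≤ ((cl (torus d n) univ ω y).card : ℝ)).card / l ^ 4)) ≤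
      Real.exp (C₁ * l ^ (d - 6) * Z.card)

/-- entropy cost of isolating the cluster of a cube -/
def St_LBb : Prop := ∀ (d : ℕ) (p c C : ℝ), HZ d p c C → ∀ κ : ℝ, ∃ C₁ l₀ : ℝ, 0 < C₁ ∧
  ∀ (l q k : ℝ) (L L' : ℕ), l₀ ≤ l → l ≤ L → l ^ 4 ≤ k → p - 1 / l ^ 2 ≤ q → q ≤ p + κ / l ^ 2 →
    3 / 4 ≤ pIn d q k L → L + C₁ * l * Real.log (L + 2) ≤ L' →
    Real.exp (-(C₁ * ((L : ℝ) ^ (d - 1) / l ^ 5 + 1))) ≤ pIso d q k L'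

/-- upper bound on the second largest cluster, finite form -/
def St_UP : Prop := ∀ (d : ℕ) (p c C : ℝ), HZ d p c C → ∃ κ A : ℝ, 0 < κ ∧ 0 < A ∧
  ∀ η : ℝ, 0 < η → ∃ L₀ : ℝ, ∀ (n : ℕ) [NeZero n] (l : ℝ), L₀ ≤ l → L₀ * l ^ 6 ≤ (n : ℝ) ^ d →
    pTwo d n (p * (1 + κ / l ^ 2)) (A * max (sMF l ((n : ℝ) ^ d)) (sDrop d l ((n : ℝ) ^ d))) ≤ η

/-- a cube of radius about `m l` contains a cluster of order `m^d l^(d-2)` -/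
def St_LIN : Prop := ∀ (d : ℕ) (p c C : ℝ), HZ d p c C → ∃ κ K c₁ l₀ : ℝ, 0 < κ ∧ 0 < K ∧
  0 < c₁ ∧ ∀ l : ℝ, l₀ ≤ l → ∀ m : ℕ, 1 ≤ m → ∃ L : ℕ, l ≤ L ∧ (L : ℝ) ≤ K * m * l ∧
    3 / 4 ≤ pIn d (p * (1 + κ / l ^ 2)) (c₁ * (m : ℝ) ^ d * l ^ (d - 2)) L

/-- lower bound on the second largest cluster in the droplet regime, finite form -/
def St_LOW : Prop := ∀ (d : ℕ) (p c C : ℝ), HZ d p c C → ∃ κ a Cs : ℝ, 0 < κ ∧ 0 < a ∧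
  ∀ η : ℝ, 0 < η → ∃ L₀ : ℝ, ∀ (n : ℕ) [NeZero n] (l : ℝ), L₀ ≤ l →
    Cs * l ^ (d - 6) ≤ Real.log ((n : ℝ) ^ d) →
    1 - η ≤ pTwo d n (p * (1 + κ / l ^ 2)) (a * sDrop d l ((n : ℝ) ^ d))

/-- upper half of the theorem -/
def St_FUP : Prop := ∀ d : ℕ, 7 ≤ d → HighDim d → ∃ A : ℝ, 0 < A ∧ ∀ ε : ℕ → ℝ, (∀ n, 0 < ε n) →
  Tendsto ε atTop (𝓝 0) → Tendsto (fun n : ℕ => ε n * ((n : ℝ) ^ d) ^ (1 / 3 : ℝ)) atTop atTop →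
  Tendsto (fun n : ℕ => (setBernoulli (torus d n).edgeSet
      (Set.projIcc 0 1 zero_le_one ((pc d : ℝ) * (1 + ε n)))).real
    {ω | A * scale d ((n : ℝ) ^ d) (ε n) ≤ kthLargest 2 ω}) atTop (𝓝 0)

/-- lower half of the theorem -/
def St_FLOW : Prop := ∀ d : ℕ, 7 ≤ d → HighDim d → ∃ a : ℝ, 0 < a ∧ ∀ ε : ℕ → ℝ, (∀ n, 0 < ε n) →
  Tendsto ε atTop (𝓝 0) → Tendsto (fun n : ℕ => ε n * ((n : ℝ) ^ d) ^ (1 / 3 : ℝ)) atTop atTop →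
  Tendsto (fun n : ℕ => (setBernoulli (torus d n).edgeSet
      (Set.projIcc 0 1 zero_le_one ((pc d : ℝ) * (1 + ε n)))).real
    {ω | a * scale d ((n : ℝ) ^ d) (ε n) ≤ kthLargest 2 ω}) atTop (𝓝 1)

/-- the theorem -/
def St_THM : Prop := ∀ d : ℕ, 7 ≤ d → HighDim d → ∃ a A : ℝ, 0 < a ∧ ∀ ε : ℕ → ℝ,
  (∀ n, 0 < ε n) → Tendsto ε atTop (𝓝 0) →
  Tendsto (fun n : ℕ => ε n * ((n : ℝ) ^ d) ^ (1 / 3 : ℝ)) atTop atTop →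
  Tendsto (fun n : ℕ => (setBernoulli (torus d n).edgeSet
      (Set.projIcc 0 1 zero_le_one ((pc d : ℝ) * (1 + ε n)))).real
    {ω | a * scale d ((n : ℝ) ^ d) (ε n) ≤ kthLargest 2 ω ∧
      (kthLargest 2 ω : ℝ) ≤ A * scale d ((n : ℝ) ^ d) (ε n)}) atTop (𝓝 1)

/-- the axioms of the core hold on the torus -/
def St_SETC : Prop := ∀ (d : ℕ) (p c C : ℝ), HZ d p c C → ∀ C₀ : ℝ, ∃ C₁ Cc α l₀ : ℝ, 1 ≤ C₁ ∧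
  0 < α ∧ ∀ K : Kc, 2 * d ≤ K.Δ → Cc ≤ K.C → K.α ≤ α → ∀ (n : ℕ) [NeZero n] (l N : ℝ), 3 ≤ n →
    l₀ ≤ l → 1 ≤ N → (((n : ℝ) ≤ C₀ * l ∧ l ^ 6 ≤ (n : ℝ) ^ d) ∨ l ≤ n) →
    ∃ M : Core K (Tor d n), TorM M p l N ∧ TorG M C₁

/-- sets that are sparse in every block carry little two-point mass -/
def St_SETK : Prop := ∀ (d : ℕ) (p c C : ℝ), HZ d p c C → ∃ (l₀ : ℝ) (Cs : ℝ → ℝ),
  ∀ (n m : ℕ) [NeZero n] [NeZero m] (l : ℝ), 3 ≤ n → l₀ ≤ l → m ≤ n → l ≤ (n : ℝ) / m →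
    ∀ η ρ : ℝ, 0 < η → 0 ≤ ρ → ∀ F : Finset (Tor d n),
      (∀ b : Tor d m, ((flt F fun y => tblk m y = b).card : ℝ) ≤ ρ * l ^ d) →
      ∀ z, ∑ y ∈ F, tt (p - 1 / l ^ 2) univ z y ≤ l ^ 2 * (η + Cs η * ρ)

/-- lower bound for connections inside balls of the torus -/
def St_SETL : Prop := ∀ (d : ℕ) (p c C : ℝ), HZ d p c C → ∀ R : ℝ, 1 ≤ R → ∃ R' c₁ l₀ : ℝ,
  R ≤ R' ∧ 0 < c₁ ∧ ∀ (n : ℕ) [NeZero n] (l : ℝ), l₀ ≤ l → 4 * R' * l ≤ n → ∀ x : Tor d n,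
    ∀ y ∈ tball x (R * l), ∀ z ∈ tball x (R * l),
      c₁ * (l ^ 2 / l ^ d) ≤ tt (p - 1 / l ^ 2) (tball x (R' * l)) y z

/-- small tori carry a one-block system -/
def St_SETI : Prop := ∀ (d : ℕ) (p c C : ℝ), HZ d p c C → ∀ C₀ : ℝ, ∃ (K : Kc) (L₀ : ℝ),
  ∀ (n : ℕ) [NeZero n] (l : ℝ), L₀ ≤ l → (n : ℝ) ≤ C₀ * l → L₀ * l ^ 6 ≤ (n : ℝ) ^ d →
    ∃ M : Core K (Tor d n), TorM M p l ((n : ℝ) ^ d / l ^ 6) ∧ Nonempty (Sys M Unit)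

/-- large tori carry a grid system -/
def St_SETII : Prop := ∀ (d : ℕ) (p c C : ℝ), HZ d p c C → ∃ (K : Kc) (C₀ R L₀ : ℝ), 1 ≤ C₀ ∧
  1 ≤ R ∧ ∀ (n : ℕ) [NeZero n] (l : ℝ), L₀ ≤ l → C₀ * l ≤ n →
    ∃ (m : ℕ) (_ : NeZero m) (M : Core K (Tor d n)) (S : Sys M (Tor d m)),
      TorM M p l (l ^ (d - 6)) ∧ Grid S l R

/-- the inputs of the second regime hold -/
def St_PK2 : Prop := ∀ (d : ℕ) (p c C : ℝ), HZ d p c C →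
  ∃ (κ C₀ R c₁ lam Cκ θ C₁ : ℝ) (K : Kc), 1 ≤ κ ∧ 1 ≤ C₀ ∧ 1 ≤ R ∧ 0 < c₁ ∧ 0 < lam ∧ 1 ≤ Cκ ∧
    0 < θ ∧ Pk2 d p κ C₀ R c₁ lam Cκ θ C₁ K

/-- upper bound on small tori -/
def St_UI : Prop := ∀ (d : ℕ) (p c C : ℝ), HZ d p c C → ∀ C₀ : ℝ, ∃ κ A : ℝ, 1 ≤ κ ∧ 0 < A ∧
  ∀ η : ℝ, 0 < η → ∃ L₀ : ℝ, ∀ (n : ℕ) [NeZero n] (l : ℝ), L₀ ≤ l → (n : ℝ) ≤ C₀ * l →
    L₀ * l ^ 6 ≤ (n : ℝ) ^ d → pTwo d n (p * (1 + κ / l ^ 2)) (A * sMF l ((n : ℝ) ^ d)) ≤ η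

/-- upper bound on large tori without droplets -/
def St_UIIa : Prop := ∀ d : ℕ, 7 ≤ d → ∀ (p κ C₀ R c₁ lam Cκ θ C₁ : ℝ) (K : Kc), 1 ≤ C₀ →
  0 < c₁ → 0 < lam → 1 ≤ Cκ → Pk2 d p κ C₀ R c₁ lam Cκ θ C₁ K → ∃ cs A : ℝ, 0 < cs ∧ 0 < A ∧
  ∀ η : ℝ, 0 < η → ∃ L₀ : ℝ, ∀ (n : ℕ) [NeZero n] (l : ℝ), L₀ ≤ l → C₀ * l ≤ n →
    Real.log ((n : ℝ) ^ d) ≤ cs * l ^ (d - 6) →
    pTwo d n (p * (1 + κ / l ^ 2)) (A * sMF l ((n : ℝ) ^ d)) ≤ η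

/-- numerical side conditions of the droplet regime -/
def St_NUMB : Prop := ∀ d : ℕ, 7 ≤ d → ∀ cs lam lam₀ Cκ φ c C : ℝ, 0 < cs → 0 < lam → 0 < Cκ →
  0 < φ → 0 < c → 0 < C → ∃ A : ℝ, 0 < A ∧ ∀ η : ℝ, 0 < η → ∃ L₀ : ℝ,
  ∀ (n m : ℕ) (l k : ℝ), L₀ ≤ l → m ≤ n → (n : ℝ) ≤ 2 * l * m →
    cs * l ^ (d - 6) ≤ Real.log ((n : ℝ) ^ d) →
    k = A * max (sMF l ((n : ℝ) ^ d)) (sDrop d l ((n : ℝ) ^ d)) → ∃ (s₀ : ℕ) (B : ℝ),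
      l ^ 4 ≤ k ∧ lam₀ ≤ lam * l ^ (d - 6) ∧ 1 ≤ φ * k / (l ^ (d - 6) * l ^ 4) ∧ 1 ≤ B ∧
      2 * (Cκ * k) ≤ B * (φ * k / (l ^ (d - 6) * l ^ 4)) ∧
      Real.log B ≤ c * (lam * l ^ (d - 6)) ∧ 4 * (Cκ * k) + 4 * s₀ < m ∧
      (m : ℝ) ^ d * Real.exp (-(lam * l ^ (d - 6) * s₀ / 2)) ≤ η ∧
      (n : ℝ) ^ d * (C * Real.exp (-(c * k / l ^ 4))) ≤ η ∧
      (n : ℝ) ^ d * (C * Real.exp (-(c * (lam * l ^ (d - 6)) *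
        (φ * k / (l ^ (d - 6) * l ^ 4)) ^ (((d : ℝ) - 1) / d)))) ≤ η

/-- upper bound in the droplet regime -/
def St_UIIb : Prop := ∀ d : ℕ, 7 ≤ d → ∀ (p κ C₀ R c₁ lam Cκ θ C₁ : ℝ) (K : Kc), 1 ≤ C₀ →
  0 < c₁ → 0 < lam → 1 ≤ Cκ → 0 < θ → Pk2 d p κ C₀ R c₁ lam Cκ θ C₁ K → ∀ cs : ℝ, 0 < cs →
  ∃ A : ℝ, 0 < A ∧ ∀ η : ℝ, 0 < η → ∃ L₀ : ℝ, ∀ (n : ℕ) [NeZero n] (l : ℝ), L₀ ≤ l →
    C₀ * l ≤ n → cs * l ^ (d - 6) ≤ Real.log ((n : ℝ) ^ d) →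
    pTwo d n (p * (1 + κ / l ^ 2)) (A * max (sMF l ((n : ℝ) ^ d)) (sDrop d l ((n : ℝ) ^ d))) ≤ η

theorem st_THM (hU : St_FUP) (hL : St_FLOW) : St_THM := by
  intro d hd h
  obtain ⟨A, -, hA⟩ := hU d hd h
  obtain ⟨a, ha, hl⟩ := hL d hd h
  refine ⟨a, A, ha, fun ε e0 e1 e2 => ?_⟩
  have lim := (hl ε e0 e1 e2).sub (hA ε e0 e1 e2)
  rw [sub_zero] at lim
  refine tendsto_of_tendsto_of_tendsto_of_le_of_le lim tendsto_const_nhds (fun n => ?_)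
    fun n => measureReal_le_one
  beta_reduce
  rw [sub_le_iff_le_add]
  refine le_trans (measureReal_mono ?_) (measureReal_union_le _ _)
  intro ω hω
  rcases le_total (kthLargest 2 ω : ℝ) (A * scale d ((n : ℝ) ^ d) (ε n)) with h2 | h2
  · exact Or.inl ⟨hω, h2⟩
  · exact Or.inr h2


end Pool.Agent.TPC.S7
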