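import Pool.Agent.Lib.TP7.Blue
import Pool.Agent.Lib.TPC.B_CROSS

/-! Block CROSS: few clusters cross a very thick annulus. -/

open Finset

namespace Pool.Agent.TPC.S7

open Pool.Agent.Lib.MP_81a99a_pr (lattice)

open CrossB in
theorem st_CROSS (hDC : St_DC) (hZ2 : St_Z2) : St_CROSS := by
  intro d p c C H
  obtain ⟨C₁, hC, hz⟩ := hZ2 d p c C H
  have hπ : Prob (fun _ : Sym2 (Zd d) => p) := Prob.const H.p0.le H.p1.le
  refine ⟨⌈3 ^ d * C₁⌉₊ + 2, fun s hs D y m => ?_⟩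
  have hs2 : (2 : ℝ) ≤ s := by exact_mod_cast (by omega : 2 ≤ s)
  have hsC : 3 ^ d * C₁ ≤ s :=
    (Nat.le_ceil _).trans (by exact_mod_cast (by omega : ⌈3 ^ d * C₁⌉₊ ≤ s))
  obtain ⟨t, ht⟩ : ∃ t : ℝ, t = (s : ℝ) ^ (d + 2) := ⟨_, rfl⟩
  have ht1 : 1 ≤ t := ht ▸ one_le_pow₀ (by linarith)
  have ht0 : 0 < t := by linarith
  have htt : 1 ≤ t ^ 2 := one_le_pow₀ ht1
  have hR : t ^ 2 + s ≤ (s : ℝ) ^ (2 * d + 6) := by
    have e : (s : ℝ) ^ (2 * d + 6) = t ^ 2 * s ^ 2 := by rw [ht]; ring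
    have e2 : (s : ℝ) + 1 ≤ s ^ 2 := by nlinarith
    rw [e]
    nlinarith [mul_nonneg (sub_nonneg.2 htt) (by linarith : (0 : ℝ) ≤ s ^ 2 - 1)]
  have h := hDC (Zd d) (lattice d) _ hπ D (fun u A => ind (zd y u ≤ s) * ind (t ^ 2 ≤ A.card))
    (fun u => ind (zd y u ≤ s) * (C₁ / t)) (fun u A => mul_nonneg (ind_nonneg _) (ind_nonneg _))
    (fun u _ D' _ => by
      have h1 := hz p H.p0.le le_rfl D' u (t ^ 2) htt
      rw [Real.sqrt_sq ht0.le] at h1
      have h2 : EC (lattice d) (fun _ => p) D' u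
          (fun A => ind (u ∈ A) * (ind (zd y u ≤ s) * ind (t ^ 2 ≤ A.card))) ≤
          EC (lattice d) (fun _ => p) D' u
            (fun A => ind (zd y u ≤ s) / t ^ 2 * min (A.card : ℝ) (t ^ 2)) :=
        EC_mono hπ fun A _ => by
          have a1 : ind (t ^ 2 ≤ (A.card : ℝ)) ≤ min (A.card : ℝ) (t ^ 2) / t ^ 2 :=
            ind_le_of (by positivity) fun hA => by rw [min_eq_right hA, div_self (by positivity)]
          have a2 := mul_le_mul_of_nonneg_left a1 (ind_nonneg (zd y u ≤ s))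
          have a3 := mul_le_of_le_one_left
            (mul_nonneg (ind_nonneg (zd y u ≤ s)) (ind_nonneg (t ^ 2 ≤ (A.card : ℝ))))
            (ind_le_one (u ∈ A))
          refine a3.trans (a2.trans (le_of_eq ?_))
          ring
      refine h2.trans ?_
      unfold EC
      rw [PE_mul_left]
      refine (mul_le_mul_of_nonneg_left h1 (div_nonneg (ind_nonneg _) (by positivity))).trans
        (le_of_eq ?_)
      field_simp)
  have hb : ∑ u ∈ D, ind (zd y u ≤ s) * (C₁ / t) ≤ 1 := by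
    rw [← sum_mul, ← card_flt]
    have h1 : (flt D fun u => zd y u ≤ s).card ≤ (2 * s + 1) ^ d := by
      rw [← card_box y s]
      exact card_le_card fun u hu => mem_box.2 (mem_flt.1 hu).2
    have h2 : ((flt D fun u => zd y u ≤ s).card : ℝ) ≤ (3 * s) ^ d := by
      refine le_trans (by exact_mod_cast h1) (pow_le_pow_left₀ (by positivity) ?_ d :
        (2 * (s : ℝ) + 1) ^ d ≤ _)
      linarith
    refine (mul_le_mul_of_nonneg_right h2 (by positivity)).trans ?_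
    rw [← mul_div_assoc, div_le_one ht0, ht, mul_pow, pow_add]
    have h3 : (0 : ℝ) ≤ (s : ℝ) ^ d := by positivity
    have h4 : 3 ^ d * C₁ ≤ (s : ℝ) ^ 2 := by nlinarith
    nlinarith [mul_le_mul_of_nonneg_left h4 h3]
  have he : Real.exp (∑ u ∈ D, ind (zd y u ≤ s) * (C₁ / t)) ≤ 3 :=
    (Real.exp_le_exp.2 hb).trans (Real.exp_one_lt_d9.le.trans (by norm_num))
  have one : ∀ A : Finset (Zd d),
      1 ≤ 1 + ∑ u ∈ A, ind (zd y u ≤ s) * ind (t ^ 2 ≤ (A.card : ℝ)) := fun A =>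
    le_add_of_nonneg_right (sum_nonneg fun _ _ => mul_nonneg (ind_nonneg _) (ind_nonneg _))
  have hm := PE_markov (E := edges (lattice d) D) hπ
    (f := fun ω => ∏ A ∈ D.image (cl (lattice d) D ω),
      (1 + ∑ u ∈ A, ind (zd y u ≤ s) * ind (t ^ 2 ≤ (A.card : ℝ))))
    (fun ω => prod_nonneg fun A _ => zero_le_one.trans (one A)) (t := 2 ^ m) (by positivity)
  refine le_trans (PE_ind_mono hπ fun ω hω => ?_)
    (hm.trans (div_le_div_of_nonneg_right (h.trans he) (by positivity)))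
  refine (pow_le_pow_right₀ one_le_two hω.le).trans (two_pow_le _ _ _ (fun A _ => one A) ?_)
  rintro A hA ⟨⟨u, hu, hu2⟩, w, hw, hw2⟩
  obtain ⟨x, -, rfl⟩ := mem_image.1 hA
  have h1 := zd_le_card ((mem_cl.1 hu).symm.trans (mem_cl.1 hw))
  rw [cl_eq_of_conn (mem_cl.1 hu)] at h1
  have h2 : t ^ 2 ≤ ((cl (lattice d) D ω x).card : ℝ) := by linarith [zd_tri y u w]
  have h3 := single_le_sum (f := fun v => ind (zd y v ≤ s) *
    ind (t ^ 2 ≤ ((cl (lattice d) D ω x).card : ℝ)))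
    (fun _ _ => mul_nonneg (ind_nonneg _) (ind_nonneg _)) hu
  rw [ind_pos hu2, ind_pos h2] at h3
  rw [ind_pos h2]
  linarith

end Pool.Agent.TPC.S7
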