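import Pool.Agent.Lib.TP7.Blue
import Pool.Agent.Lib.TPC.B_E1B
import Pool.Agent.Lib.TPC.B_PSI_LAY

/-! Rows E1B and E2B for `d ≥ 7`: error diagrams summed over a layer, by level sums. -/

open Finset

namespace Pool.Agent.TPC.S7

namespace E12

variable {d : ℕ}

lemma layer : ∃ B : ℝ, 0 < B ∧ ∀ a : ℝ, 21 / 10 ≤ a → ∀ N : ℕ,
    ∑ j ∈ range N, ((j : ℝ) + 1) * kk a j ≤ B := by
  have h : Summable fun n : ℕ => ((n + 1 : ℕ) : ℝ) ^ (-(11 / 10) : ℝ) :=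
    (summable_nat_add_iff 1).2 (Real.summable_nat_rpow.2 (by norm_num))
  have h0 : 0 ≤ ∑' n : ℕ, ((n + 1 : ℕ) : ℝ) ^ (-(11 / 10) : ℝ) :=
    tsum_nonneg fun n => by positivity
  refine ⟨_ + 1, by linarith [h0], fun a ha N => le_trans ?_ (le_add_of_nonneg_right zero_le_one)⟩
  refine le_trans (sum_le_sum fun j _ => ?_) (h.sum_le_tsum (range N) fun n _ => by positivity)
  have hj : (0 : ℝ) ≤ j := Nat.cast_nonneg j
  rw [add_comm, ← kk_neg_one, kk_mul _ _ hj]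
  refine (kk_anti_exp (a := 11 / 10) hj (by linarith)).trans (le_of_eq ?_)
  rw [kk, add_comm]
  push_cast
  rfl

/-- sums of a weight with bounded level sums against a summable function of the level -/
lemma levels (hS : St_S12) : ∃ B : ℝ, 0 < B ∧ ∀ (d : ℕ) (S : Finset (Zd d)) (i : Fin d) (a : ℤ)
    (W : Zd d → ℝ) (Ψ : ℝ), 0 ≤ Ψ →
    (∀ (T : Finset (Zd d)) (k : ℤ), (∀ v ∈ T, v i = k) → ∑ v ∈ T, W v ≤ Ψ) →
    ∑ v ∈ S, kk (3 / 2) |(a : ℝ) - v i| * W v ≤ Ψ * B := by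
  obtain ⟨B, hB, H⟩ := hS 1 (3 / 2) (by norm_num) (by norm_num)
  refine ⟨B, hB, fun d S i a W Ψ hΨ hW => ?_⟩
  have h1 := (H _ _ (met_zd 1) (fun _ => a) ((S.image fun v => v i).image fun k _ => k) 0
    le_rfl).2 (by norm_num) fun y _ => zd_nonneg _ _
  rw [kk_zero, mul_one, sum_image fun _ _ _ _ e => congrFun e 0] at h1
  refine le_trans ?_ (mul_le_mul_of_nonneg_left h1 hΨ)
  rw [← sum_fiberwise_of_maps_to (g := fun v : Zd d => v i) (t := S.image fun v => v i)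
    fun v hv => mem_image_of_mem _ hv, mul_sum]
  refine sum_le_sum fun k _ => ?_
  rw [sum_congr rfl fun v hv => by rw [(mem_filter.1 hv).2], ← mul_sum, mul_comm Ψ]
  have e : zd (fun _ : Fin 1 => a) (fun _ => k) = |(a : ℝ) - k| := by
    have : (fun _ : Fin 1 => a) - (fun _ => k) = fun _ => a - k := rfl
    rw [zd, this, pi_norm_const, Int.norm_eq_abs, Int.cast_sub]
  rw [e]
  exact mul_le_mul_of_nonneg_left (hW _ k fun v hv => (mem_filter.1 hv).2)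
    (kk_nonneg _ (abs_nonneg _))

section bounds

variable {p c C Φ q : ℝ} {K : ℕ} {S L F T : Finset (Zd d)} {i : Fin d} {h k : ℤ}

/-- pointwise bound for the bubble through the column -/
lemma bub_le (hz : HZ d p c C) (hΦ : Psi d p Φ) (q0 : 0 ≤ q) (q1 : q ≤ p)
    (h1 : ∀ y ∈ S, y i ≤ h) (h2 : ∀ y ∈ L, y i ≤ h + K) (h3 : ∀ y ∈ F, y i = h) (u v : Zd d)
    {m : ℝ} (m0 : 0 ≤ m) (hm : m ≤ h - u i ∨ m ≤ h + K - v i) :
    ∑ y ∈ F, tz q S u y * tz q L (y + ev i K) v ≤ C * Φ * kk (d - 2) m := by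
  have d7 : (7 : ℝ) ≤ d := by exact_mod_cast hz.hd
  have q2 := q1.trans hz.p1.le
  have C0 : 0 < C := by
    have := hz.up {0} 0 0
    rw [tz_self (mem_singleton_self _), zd_self, kk_zero] at this
    linarith
  have up : ∀ (D : Finset (Zd d)) (x y : Zd d), m ≤ zd x y → tz q D x y ≤ C * kk (d - 2) m :=
    fun D x y hm => (tz_mono_p q0 q1 hz.p1.le).trans ((hz.up D x y).trans
      (mul_le_mul_of_nonneg_left (kk_anti (by linarith) m0 hm) C0.le))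
  have k0 : 0 ≤ C * kk (d - 2) m := mul_nonneg C0.le (kk_nonneg _ m0)
  rw [mul_right_comm]
  rcases hm with hm | hm
  · refine le_trans ?_ (mul_le_mul_of_nonneg_left (E1B.shift hΦ q0 q1 K L F i h h2 h3 v) k0)
    rw [mul_sum]
    refine sum_le_sum fun y hy => mul_le_mul_of_nonneg_right (up _ _ _ ?_) (tz_nonneg q0 q2)
    have := abs_le_zd u y i
    rw [h3 y hy] at this
    linarith [neg_abs_le ((u i : ℝ) - h)]
  · refine le_trans ?_ (mul_le_mul_of_nonneg_left (hΦ.2 q q0 q1 S F i h u (Or.inl h1) h3) k0)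
    rw [mul_sum]
    refine sum_le_sum fun y hy => ?_
    rw [mul_comm]
    refine mul_le_mul_of_nonneg_right (up _ _ _ ?_) (tz_nonneg q0 q2)
    have := abs_le_zd (y + ev i K) v i
    simp only [ev, Pi.add_apply, Pi.single_eq_same, h3 y hy] at this
    push_cast at this
    linarith [le_abs_self ((h : ℝ) + K - v i)]

/-- level sums of the bubble -/
lemma bub_level (p1 : p ≤ 1) (hΦ : Psi d p Φ) (q0 : 0 ≤ q) (q1 : q ≤ p)
    (h1 : ∀ y ∈ S, y i ≤ h) (h2 : ∀ y ∈ L, y i ≤ h + K) (h3 : ∀ y ∈ F, y i = h) (u : Zd d)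
    (T : Finset (Zd d)) (k : ℤ) (hT : ∀ v ∈ T, v i = k) :
    ∑ v ∈ T, ∑ y ∈ F, tz q S u y * tz q L (y + ev i K) v ≤ Φ ^ 2 := by
  rw [sum_comm, sq]
  refine le_trans (sum_le_sum fun y hy => ?_) (((sum_mul _ _ _).symm.trans_le
    (mul_le_mul_of_nonneg_right (hΦ.2 q q0 q1 S F i h u (Or.inl h1) h3)
      (zero_le_one.trans hΦ.1))))
  rw [← mul_sum]
  refine mul_le_mul_of_nonneg_left (PSI.lay0 p1 hΦ q0 q1 (i := i) (fun w hw => ?_) hT)
    (tz_nonneg q0 (q1.trans p1))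
  simpa [h3 y hy] using h2 w hw

/-- the last leg -/
lemma leg (hLAY : St_LAY) (p1 : p ≤ 1) (hΦ : Psi d p Φ) (q0 : 0 ≤ q) (q1 : q ≤ p)
    (h2 : ∀ y ∈ L, y i ≤ h + K) (h4 : ∀ x ∈ T, x i = k) {v : Zd d} (hv : v i ≤ h + K) :
    ∑ x ∈ T, tz q L v x ≤ (1 + ((h : ℝ) + K - v i)) * Φ ^ 2 := by
  by_cases hk : k ≤ h + K
  · refine ((hLAY d p Φ p1 hΦ q q0 q1 L i (h + K) h2 v).1 T k hv hk h4).trans
      (mul_le_mul_of_nonneg_right ?_ (sq_nonneg _))
    have a1 : ((h + K - max (v i) k + 1 : ℤ) : ℝ) ≤ ((h + K - v i + 1 : ℤ) : ℝ) :=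
      Int.cast_le.2 (by omega)
    push_cast at a1 ⊢
    linarith
  · rw [sum_eq_zero fun x hx => tz_of_notMem' fun hL => hk ((h4 x hx).symm.le.trans (h2 x hL))]
    have : (v i : ℝ) ≤ h + K := by exact_mod_cast hv
    exact mul_nonneg (by linarith) (sq_nonneg _)

end bounds

lemma depth {h : ℤ} {u : ℤ} (hu : u ≤ h) : (((h - u).toNat : ℕ) : ℝ) = h - u := by
  have : (((h - u).toNat : ℤ) : ℝ) = ((h - u : ℤ) : ℝ) := by
    rw [Int.toNat_of_nonneg (sub_nonneg.2 hu)]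
  exact_mod_cast this

lemma kk_split {a b s t m : ℝ} (ha : 0 ≤ a) (hb : 0 ≤ b) (hs : 0 ≤ s) (ht : 0 ≤ t) (h1 : s ≤ m)
    (h2 : t ≤ m) : kk (a + b) m ≤ kk a s * kk b t := by
  rw [← kk_mul _ _ (hs.trans h1)]
  exact mul_le_mul (kk_anti ha hs h1) (kk_anti hb ht h2) (kk_nonneg _ (hs.trans h1))
    (kk_nonneg _ hs)

lemma reorder {X : Type} (S F T : Finset X) (a : X → ℝ) (b c e : X → X → ℝ) :
    ∑ x ∈ T, ∑ y ∈ F, ∑ u ∈ S, ∑ v ∈ S, a u * b u y * b u v * (c y v * e v x) =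
    ∑ u ∈ S, a u * ∑ v ∈ S, b u v * (∑ x ∈ T, e v x) * ∑ y ∈ F, b u y * c y v := by
  have h : ∀ (f : X → X → X → ℝ) (A : Finset X), ∑ x ∈ A, ∑ u ∈ S, ∑ v ∈ S, f x u v =
      ∑ u ∈ S, ∑ v ∈ S, ∑ x ∈ A, f x u v := fun f A => by
    rw [sum_comm]
    exact sum_congr rfl fun u _ => sum_comm
  simp only [h]
  refine sum_congr rfl fun u _ => ?_
  rw [mul_sum]
  refine sum_congr rfl fun v _ => ?_
  rw [mul_assoc, sum_mul_sum, mul_sum, mul_sum]
  refine sum_congr rfl fun x _ => ?_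
  rw [mul_sum, mul_sum]
  exact sum_congr rfl fun y _ => by ring

end E12

open E12 in
theorem st_E1B (hLAY : St_LAY) (hS : St_S12) : St_E1B := by
  intro d p c C Φ hz hΦ K
  have d7 : (7 : ℝ) ≤ d := by exact_mod_cast hz.hd
  have p1 := hz.p1.le
  have Φ1 := hΦ.1
  have C0 : 0 < C := by
    have := hz.up {0} 0 0
    rw [tz_self (mem_singleton_self _), zd_self, kk_zero] at this
    linarith
  obtain ⟨B₀, b0, hB₀⟩ := layer
  obtain ⟨B₁, b1, hB₁⟩ := levels hS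
  refine ⟨C * Φ * Φ ^ 2 * (Φ ^ 2 * B₁) * (Φ ^ 2 * B₀), by positivity,
    fun q q0 q1 S L F T i h k o h1 h2 h3 h4 => ?_⟩
  have q2 := q1.trans p1
  have t0 : ∀ (D : Finset (Zd d)) (x y : Zd d), 0 ≤ tz q D x y := fun D x y => tz_nonneg q0 q2
  rw [E1B.reorder S L F T (tz q S o) (tz q S) (fun y v => tz q L (y + ev i K) v) (tz q L)]
  have fin := (hLAY d p Φ p1 hΦ q q0 q1 S i h h1 o).2.1 (fun j => kk ((d : ℝ) - 9 / 2) j) B₀
    (fun j => kk_nonneg _ (Nat.cast_nonneg j)) (hB₀ _ (by linarith))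
  refine le_trans ?_ (mul_le_mul_of_nonneg_left fin (by positivity))
  rw [mul_sum]
  refine sum_le_sum fun u hu => ?_
  rw [mul_left_comm, depth (h1 u hu)]
  refine mul_le_mul_of_nonneg_left ?_ (t0 _ _ _)
  have J0 : (0 : ℝ) ≤ h - u i := sub_nonneg.2 (by exact_mod_cast h1 u hu)
  have kJ := kk_nonneg ((d : ℝ) - 9 / 2) J0
  have lev := hB₁ d L i (h + K) _ _ (sq_nonneg Φ) (bub_level p1 hΦ q0 q1 h1 h2 h3 u)
  refine le_trans ?_ ((mul_le_mul_of_nonneg_left lev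
    (show 0 ≤ C * Φ * Φ ^ 2 * kk ((d : ℝ) - 9 / 2) (h - u i) by positivity)).trans_eq (by ring))
  rw [mul_sum]
  refine sum_le_sum fun v hv => ?_
  have j0 : (0 : ℝ) ≤ h + K - v i := sub_nonneg.2 (by exact_mod_cast h2 v hv)
  obtain ⟨m, hm⟩ : ∃ m : ℝ, m = max ((h : ℝ) - u i) (h + K - v i) := ⟨_, rfl⟩
  have m1 : (h : ℝ) - u i ≤ m := hm ▸ le_max_left _ _
  have m2 : (h : ℝ) + K - v i ≤ m := hm ▸ le_max_right _ _
  have m0 := J0.trans m1
  have a1 := bub_le hz hΦ q0 q1 h1 h2 h3 u v m0 (by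
    rw [hm]
    exact (max_choice _ _).imp le_of_eq le_of_eq)
  have a2 : ∑ x ∈ T, tz q L v x ≤ kk (-1) m * Φ ^ 2 := (leg hLAY p1 hΦ q0 q1 h2 h4
    (h2 v hv)).trans (mul_le_mul_of_nonneg_right (by rw [kk_neg_one]; linarith) (sq_nonneg _))
  have a3 := kk_split (a := (d : ℝ) - 9 / 2) (b := 3 / 2) (by linarith) (by norm_num) J0 j0 m1 m2
  rw [show (d : ℝ) - 9 / 2 + 3 / 2 = d - 2 + -1 by ring, ← kk_mul _ _ m0] at a3
  have k1 := kk_nonneg ((d : ℝ) - 2) m0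
  have a4 := mul_le_mul a1 a2 (sum_nonneg fun x _ => t0 _ _ _) (by positivity)
  have a5 := mul_le_mul_of_nonneg_left a3 (show 0 ≤ C * Φ * Φ ^ 2 by positivity)
  push_cast
  rw [abs_of_nonneg j0, mul_assoc (∑ y ∈ F, _), mul_comm (∑ y ∈ F, _), ← mul_assoc]
  exact mul_le_mul_of_nonneg_right (by linarith)
    (sum_nonneg fun y _ => mul_nonneg (t0 _ _ _) (t0 _ _ _))

open E12 in
theorem st_E2B (hLAY : St_LAY) (hS : St_S12) : St_E2B := by
  intro d p c C Φ hz hΦ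
  have d7 : (7 : ℝ) ≤ d := by exact_mod_cast hz.hd
  have p1 := hz.p1.le
  have Φ1 := hΦ.1
  have C0 : 0 < C := by
    have := hz.up {0} 0 0
    rw [tz_self (mem_singleton_self _), zd_self, kk_zero] at this
    linarith
  obtain ⟨B₀, b0, hB₀⟩ := layer
  obtain ⟨B₁, b1, hB₁⟩ := levels hS
  obtain ⟨A₁, hA₁, hS₁⟩ := hS d ((d : ℝ) - 2) (by linarith) (by linarith)
  obtain ⟨A, hA⟩ : ∃ A : ℝ, A = 3 * C * Φ ^ 2 * (C * Φ * A₁ + Φ ^ 2 * B₁) := ⟨_, rfl⟩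
  have A0 : 0 < A := by rw [hA]; positivity
  refine ⟨A * (Φ ^ 2 * B₀), by positivity, fun q q0 q1 K S L F T i h k o h1 h2 h3 h4 => ?_⟩
  have q2 := q1.trans p1
  have K0 : (0 : ℝ) ≤ K := Nat.cast_nonneg K
  have t0 : ∀ (D : Finset (Zd d)) (x y : Zd d), 0 ≤ tz q D x y := fun D x y => tz_nonneg q0 q2
  have up : ∀ (D : Finset (Zd d)) (x y : Zd d), tz q D x y ≤ C * kk (d - 2) (zd x y) :=
    fun D x y => (tz_mono_p q0 q1 p1).trans (hz.up D x y)
  rw [reorder S F T (tz q S o) (tz q S) (fun y v => tz q L (y + ev i K) v) (tz q L)]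
  have fin := (hLAY d p Φ p1 hΦ q q0 q1 S i h h1 o).2.1 (fun j => kk (21 / 10) j) B₀
    (fun j => kk_nonneg _ (Nat.cast_nonneg j)) (hB₀ _ le_rfl)
  have kK := kk_nonneg (1 / 20) K0
  refine le_trans ?_ ((mul_le_mul_of_nonneg_left fin
    (show 0 ≤ A * kk (1 / 20) K by positivity)).trans_eq (by ring))
  rw [mul_sum]
  refine sum_le_sum fun u hu => ?_
  rw [mul_left_comm, depth (h1 u hu)]
  refine mul_le_mul_of_nonneg_left ?_ (t0 _ _ _)
  have J0 : (0 : ℝ) ≤ h - u i := sub_nonneg.2 (by exact_mod_cast h1 u hu)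
  obtain ⟨M, hM⟩ : ∃ M : ℝ, M = max ((h : ℝ) - u i) K := ⟨_, rfl⟩
  have M1 : (h : ℝ) - u i ≤ M := hM ▸ le_max_left _ _
  have M2 : (K : ℝ) ≤ M := hM ▸ le_max_right _ _
  have M0 := J0.trans M1
  have e0 := kk_split (a := 1 / 20) (b := 21 / 10) (by norm_num) (by norm_num) K0 J0 M2 M1
  rw [mul_assoc]
  refine le_trans ?_ (mul_le_mul_of_nonneg_left e0 A0.le)
  obtain ⟨ρ, hρ⟩ : ∃ ρ : ℝ, 1 + ρ = (1 + M) ^ (9 / 10 : ℝ) := ⟨_, add_sub_cancel _ _⟩
  have ρ0 : 0 ≤ ρ := by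
    have := Real.one_le_rpow (show 1 ≤ 1 + M by linarith) (show (0 : ℝ) ≤ 9 / 10 by norm_num)
    linarith
  have ρk : ∀ a, kk a ρ = kk (9 / 10 * a) M := fun a => by
    rw [kk, kk, hρ, ← Real.rpow_mul (by linarith), mul_neg]
  have ρM : kk (-1 / 10) M * (1 + ρ) = 1 + M := by
    rw [← kk_neg_one, ρk, kk_mul _ _ M0, ← kk_neg_one]
    norm_num
  have g1 : 1 ≤ kk (-1 / 10) M := by
    have := kk_anti_exp (a := -1 / 10) (b := 0) M0 (by norm_num)
    rwa [kk_zero_left] at this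
  have ρ1 : ρ ≤ M := by nlinarith
  have kM := kk_nonneg (1 / 20 + 21 / 10) M0
  have kd := kk_nonneg ((d : ℝ) - 2) M0
  have lev := hB₁ d S i (u i) _ _ (sq_nonneg Φ) (bub_level p1 hΦ q0 q1 h1 h2 h3 u)
  have near := (hS₁ _ _ (met_zd d) u (flt S fun v => zd u v ≤ ρ) ρ ρ0).1 (by linarith)
    fun v hv => (mem_flt.1 hv).2
  rw [sum_flt] at near
  have n2 : kk ((d : ℝ) - 2) M * (1 + M) * kk ((d : ℝ) - 2 - d) ρ ≤ kk (1 / 20 + 21 / 10) M := by
    rw [ρk, ← kk_neg_one, kk_mul _ _ M0, kk_mul _ _ M0]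
    exact kk_anti_exp M0 (by linarith)
  have n3 : kk (-1 / 10) M * kk ((d : ℝ) - 9 / 2) ρ ≤ kk (1 / 20 + 21 / 10) M := by
    rw [ρk, kk_mul _ _ M0]
    exact kk_anti_exp M0 (by linarith)
  have pt : ∀ v ∈ S, tz q S u v * (∑ x ∈ T, tz q L v x) *
      ∑ y ∈ F, tz q S u y * tz q L (y + ev i K) v ≤
      3 * C * Φ ^ 2 * (C * Φ * (kk ((d : ℝ) - 2) M * (1 + M)) *
        (ind (zd u v ≤ ρ) * kk ((d : ℝ) - 2) (zd u v)) + kk (1 / 20 + 21 / 10) M *
        (kk (3 / 2) |(u i : ℝ) - v i| * ∑ y ∈ F, tz q S u y * tz q L (y + ev i K) v)) := by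
    intro v hv
    have v1 : (v i : ℝ) ≤ h := by exact_mod_cast h1 v hv
    have a2 := leg hLAY p1 hΦ q0 q1 h2 h4 (v := v) (by have := h1 v hv; omega)
    have X0 : 0 ≤ ∑ x ∈ T, tz q L v x := sum_nonneg fun x _ => t0 _ _ _
    have B0 : 0 ≤ ∑ y ∈ F, tz q S u y * tz q L (y + ev i K) v :=
      sum_nonneg fun y _ => mul_nonneg (t0 _ _ _) (t0 _ _ _)
    have δ0 := abs_nonneg ((u i : ℝ) - v i)
    have δ1 := abs_le_zd u v i
    have δ2 := le_abs_self ((u i : ℝ) - v i)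
    have kδ := kk_nonneg (3 / 2) δ0
    have kr := kk_nonneg ((d : ℝ) - 2) (zd_nonneg u v)
    by_cases hr : zd u v ≤ ρ
    · have a1 := bub_le hz hΦ q0 q1 h1 h2 h3 u v M0 (by
        rw [hM]
        exact (max_choice _ _).imp le_of_eq fun e => e.le.trans (by linarith))
      have a3 : ∑ x ∈ T, tz q L v x ≤ 3 * (1 + M) * Φ ^ 2 :=
        a2.trans (mul_le_mul_of_nonneg_right (by linarith) (sq_nonneg _))
      have a4 := mul_le_mul (mul_le_mul (up S u v) a3 X0 (by positivity)) a1 B0 (by positivity)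
      rw [ind_pos hr, mul_add]
      refine a4.trans (le_add_of_le_of_nonneg (le_of_eq (by ring)) (by positivity))
    · obtain ⟨m, hm⟩ : ∃ m : ℝ, m = max ρ |(u i : ℝ) - v i| := ⟨_, rfl⟩
      have m1 : ρ ≤ m := hm ▸ le_max_left _ _
      have m2 : |(u i : ℝ) - v i| ≤ m := hm ▸ le_max_right _ _
      have m0 := ρ0.trans m1
      have a1 : tz q S u v ≤ C * kk ((d : ℝ) - 2) m := (up S u v).trans
        (mul_le_mul_of_nonneg_left (kk_anti (by linarith) m0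
          (hm ▸ max_le (not_le.1 hr).le δ1)) C0.le)
      have a3 : ∑ x ∈ T, tz q L v x ≤ 3 * (kk (-1 / 10) M * kk (-1) m) * Φ ^ 2 := by
        refine a2.trans (mul_le_mul_of_nonneg_right ?_ (sq_nonneg _))
        rw [kk_neg_one]
        have c1 := mul_le_mul_of_nonneg_left (show 1 + ρ ≤ 1 + m by linarith)
          (zero_le_one.trans g1)
        have c2 := le_mul_of_one_le_left (show 0 ≤ 1 + m by linarith) g1
        linarith
      have a5 := kk_split (a := (d : ℝ) - 9 / 2) (b := 3 / 2) (by linarith) (by norm_num) ρ0 δ0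
        m1 m2
      rw [show (d : ℝ) - 9 / 2 + 3 / 2 = d - 2 + -1 by ring, ← kk_mul _ _ m0] at a5
      have km := kk_nonneg ((d : ℝ) - 2) m0
      have a4 := mul_le_mul a1 a3 X0 (by positivity)
      have a6 := (mul_le_mul_of_nonneg_left a5 (zero_le_one.trans g1)).trans
        ((mul_assoc _ _ _).symm.trans_le (mul_le_mul_of_nonneg_right n3 kδ))
      have a7 := mul_le_mul_of_nonneg_left a6 (show 0 ≤ 3 * C * Φ ^ 2 by positivity)
      rw [ind_neg hr, zero_mul, mul_zero, zero_add, ← mul_assoc (kk _ M), ← mul_assoc]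
      exact mul_le_mul_of_nonneg_right (by linarith) B0
  refine (sum_le_sum pt).trans ?_
  rw [← mul_sum, sum_add_distrib, ← mul_sum, ← mul_sum, hA, mul_assoc (3 * C * Φ ^ 2)]
  refine mul_le_mul_of_nonneg_left ?_ (by positivity)
  have f1 := mul_le_mul_of_nonneg_left near
    (show 0 ≤ C * Φ * (kk ((d : ℝ) - 2) M * (1 + M)) by positivity)
  have f2 := mul_le_mul_of_nonneg_left lev kM
  have f3 := mul_le_mul_of_nonneg_left n2 (show 0 ≤ C * Φ * A₁ by positivity)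
  linarith

end Pool.Agent.TPC.S7
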