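import Pool.Agent.Lib.TP7.Blue
import Pool.Agent.Lib.TPC.BlueF1
import Pool.Agent.Lib.MP_81a99a_pr.Main

/-! Block FLOW: the lower half of the theorem from the finite-volume lower bound. -/

open Finset MeasureTheory ProbabilityTheory Filter Topology

namespace Pool.Agent.TPC.S7

open Pool.Agent.Lib.MP_81a99a_pr (lattice torus cluster kthLargest pc MeanField)

namespace FLOW

lemma pw_split {D e : ℝ} (hD : 7 ≤ D) (he : 0 < e) :
    e ^ (1 - 5 * D / (2 * (D - 1))) = e⁻¹ ^ 2 * e ^ ((D - 6) / (2 * (D - 1))) := by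
  have h1 : D - 1 ≠ 0 := by linarith
  have h2 : e⁻¹ ^ 2 = e ^ (-2 : ℝ) := by
    rw [Real.rpow_neg he.le, inv_pow]; norm_num
  rw [h2, ← Real.rpow_add he]
  congr 1
  field_simp
  ring

lemma pw_bound {e X K t b s : ℝ} (he : 0 < e) (hX : 0 ≤ X) (hK : 0 ≤ K) (hb : 0 ≤ b)
    (h : X ≤ K * e ^ (-t)) (hs : t * b = s) : e ^ s * X ^ b ≤ K ^ b := by
  have h1 : X ^ b ≤ K ^ b * e ^ (-s) := by
    calc X ^ b ≤ (K * e ^ (-t)) ^ b := Real.rpow_le_rpow hX h hb
      _ = K ^ b * e ^ (-s) := by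
        rw [Real.mul_rpow hK (by positivity), ← Real.rpow_mul he.le, ← hs, neg_mul]
  have h2 : e ^ s * e ^ (-s) = 1 := by rw [← Real.rpow_add he]; simp
  calc e ^ s * X ^ b ≤ e ^ s * (K ^ b * e ^ (-s)) := by gcongr
    _ = K ^ b * (e ^ s * e ^ (-s)) := by ring
    _ = K ^ b := by rw [h2, mul_one]

lemma drop_eq {d : ℕ} (hd : 7 ≤ d) {κ e : ℝ} (hκ : 0 < κ) (he : 0 < e) (V : ℝ) :
    sDrop d (√(κ / e)) V = κ ^ (-(1 - 5 * (d : ℝ) / (2 * (d - 1)))) *
      (e ^ (1 - 5 * (d : ℝ) / (2 * (d - 1))) * Real.log V ^ ((d : ℝ) / (d - 1))) := by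
  have hD : (7 : ℝ) ≤ d := by exact_mod_cast hd
  have h1 : (d : ℝ) - 1 ≠ 0 := by linarith
  have h0 : 0 < κ / e := by positivity
  have hl : 0 < √(κ / e) := Real.sqrt_pos.2 h0
  unfold sDrop
  rw [← mul_assoc]
  congr 1
  rw [← Real.rpow_natCast, ← Real.rpow_add hl, Real.sqrt_eq_rpow, ← Real.rpow_mul h0.le]
  have h3 : (1 / 2 : ℝ) * (((4 : ℕ) : ℝ) + -(((d : ℝ) - 6) / (d - 1))) =
      -(1 - 5 * (d : ℝ) / (2 * (d - 1))) := by
    push_cast
    field_simp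
    ring
  rw [h3, Real.div_rpow hκ.le he.le, Real.rpow_neg he.le, div_inv_eq_mul]

lemma pow_eq {d : ℕ} (hd : 7 ≤ d) {κ e : ℝ} (hκ : 0 < κ) (he : 0 < e) :
    √(κ / e) ^ (d - 6) = κ ^ (((d : ℝ) - 6) / 2) * e ^ (-(((d : ℝ) - 6) / 2)) := by
  have h0 : 0 < κ / e := by positivity
  rw [← Real.rpow_natCast, Real.sqrt_eq_rpow, ← Real.rpow_mul h0.le, Nat.cast_sub (by omega)]
  have h3 : (1 / 2 : ℝ) * ((d : ℝ) - ((6 : ℕ) : ℝ)) = ((d : ℝ) - 6) / 2 := by
    push_cast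
    ring
  rw [h3, Real.div_rpow hκ.le he.le, Real.rpow_neg he.le, div_eq_mul_inv]

/-- outside the droplet regime the second scale is dominated by the first -/
lemma dom {d : ℕ} (hd : 7 ≤ d) {κ : ℝ} (hκ : 0 < κ) (Cs : ℝ) : ∃ M : ℝ, 0 < M ∧
    ∀ e V : ℝ, 0 < e → 1 ≤ V → 1 ≤ Real.log (e ^ 3 * V) →
      Real.log V < Cs * √(κ / e) ^ (d - 6) →
      e ^ (1 - 5 * (d : ℝ) / (2 * (d - 1))) * Real.log V ^ ((d : ℝ) / (d - 1)) ≤
        M * (e⁻¹ ^ 2 * Real.log (e ^ 3 * V)) := by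
  have hD : (7 : ℝ) ≤ d := by exact_mod_cast hd
  have h1 : 0 < (d : ℝ) - 1 := by linarith
  have h6 : 0 < (d : ℝ) - 6 := by linarith
  set K₁ : ℝ := max Cs 1 * κ ^ (((d : ℝ) - 6) / 2) with hK₁
  set t : ℝ := ((d : ℝ) - 6) / (2 * d) with ht
  have t0 : 0 < t := by positivity
  have K0 : 0 < K₁ := by
    have : (0 : ℝ) < max Cs 1 := lt_of_lt_of_le one_pos (le_max_right _ _)
    positivity
  set M₁ : ℝ := K₁ ^ (1 / ((d : ℝ) - 1)) with hM₁
  set M₂ : ℝ := (6 / t) ^ ((d : ℝ) / (d - 1)) with hM₂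
  have M10 : 0 < M₁ := by positivity
  have M20 : 0 < M₂ := by positivity
  refine ⟨2 * M₁ + M₂, by positivity, fun e V he hV hL hC => ?_⟩
  have X0 : 0 ≤ Real.log V := Real.log_nonneg hV
  have V0 : 0 < V := by linarith
  have lg : Real.log (e ^ 3 * V) = 3 * Real.log e + Real.log V := by
    rw [Real.log_mul (by positivity) V0.ne', Real.log_pow]; norm_num
  rw [pw_split hD he, mul_assoc, mul_left_comm (2 * M₁ + M₂)]
  refine mul_le_mul_of_nonneg_left ?_ (by positivity)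
  rcases le_total (Real.log V) (-6 * Real.log e) with h | h
  · have h2 : Real.log V ≤ 6 / t * e ^ (-t) := by
      have h3 := Real.log_le_rpow_div (x := e⁻¹) (by positivity) t0
      rw [Real.log_inv, Real.inv_rpow he.le, ← Real.rpow_neg he.le] at h3
      have h4 : 6 / t * e ^ (-t) = 6 * (e ^ (-t) / t) := by ring
      rw [h4]; linarith
    have h3 := pw_bound (s := ((d : ℝ) - 6) / (2 * (d - 1))) he X0 (by positivity)
      (show 0 ≤ (d : ℝ) / (d - 1) by positivity) h2 (by rw [ht]; field_simp)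
    refine h3.trans ?_
    rw [← hM₂]
    nlinarith
  · have h2 : Real.log V ≤ K₁ * e ^ (-(((d : ℝ) - 6) / 2)) := by
      rw [hK₁, mul_assoc, ← pow_eq hd hκ he]
      refine hC.le.trans ?_
      gcongr
      exact le_max_left _ _
    have h3 := pw_bound (s := ((d : ℝ) - 6) / (2 * (d - 1))) he X0 K0.le
      (show 0 ≤ 1 / ((d : ℝ) - 1) by positivity) h2 (by field_simp)
    rw [← hM₁] at h3
    have h4 : Real.log V ^ ((d : ℝ) / (d - 1)) =
        Real.log V ^ (1 / ((d : ℝ) - 1)) * Real.log V := by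
      rw [← Real.rpow_add_one' X0 (by positivity)]
      congr 1
      field_simp
      ring
    rw [h4, ← mul_assoc]
    have h5 : Real.log V ≤ 2 * Real.log (e ^ 3 * V) := by linarith
    calc _ ≤ M₁ * Real.log V := by gcongr
      _ ≤ M₁ * (2 * Real.log (e ^ 3 * V)) := by gcongr
      _ ≤ _ := by nlinarith

end FLOW

theorem st_FLOW (hL : St_LOW) (hT : St_T3) (hZ : St_BRZ) (hB : St_BRT) : St_FLOW := by
  intro d hd h
  obtain ⟨c, C, hz⟩ := hZ d hd h
  obtain ⟨δ, δ0, hm⟩ := Pool.Agent.Lib.MP_81a99a_pr.main d (by omega) (hT d c C hz)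
  obtain ⟨κ, a, Cs, κ0, a0, hl⟩ := hL d _ c C hz
  obtain ⟨M, M0, hM⟩ := FLOW.dom hd κ0 Cs
  set G : ℝ := κ ^ (-(1 - 5 * (d : ℝ) / (2 * (d - 1)))) with hG
  have G0 : 0 < G := by positivity
  set b : ℝ := min (min δ (δ / M)) (a * G) with hb
  have b0 : 0 < b := lt_min (lt_min δ0 (by positivity)) (by positivity)
  have b1 : b ≤ δ := (min_le_left _ _).trans (min_le_left _ _)
  have b2 : b * M ≤ δ := by
    have : b ≤ δ / M := (min_le_left _ _).trans (min_le_right _ _)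
    rwa [le_div_iff₀ M0] at this
  have b3 : b ≤ a * G := min_le_right _ _
  refine ⟨b, b0, fun ε e0 e1 e2 => ?_⟩
  have lim := hm 2 (by norm_num) ε e0 e1 e2
  have p0 := hz.p0
  have p1 := hz.p1
  refine tendsto_order.2 ⟨fun y hy => ?_, fun y hy => Eventually.of_forall fun n =>
    lt_of_le_of_lt measureReal_le_one hy⟩
  obtain ⟨L₀, hL₀⟩ := hl ((1 - y) / 2) (by linarith)
  filter_upwards [lim.eventually (lt_mem_nhds hy), eventually_gt_atTop 0,
    e1.eventually (ge_mem_nhds (show 0 < κ / (L₀ ^ 2 + 1) by positivity)),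
    e1.eventually (ge_mem_nhds (show 0 < 1 - (pc d : ℝ) by linarith)),
    e2.eventually_ge_atTop 3] with n h1 hn h2 h3 h4
  have : NeZero n := ⟨hn.ne'⟩
  have he := e0 n
  generalize ε n = e at *
  have V1 : (1 : ℝ) ≤ (n : ℝ) ^ d := one_le_pow₀ (by exact_mod_cast hn)
  have v3 : (((n : ℝ) ^ d) ^ (1 / 3 : ℝ)) ^ 3 = (n : ℝ) ^ d := by
    rw [← Real.rpow_natCast, ← Real.rpow_mul (by positivity)]; norm_num
  have lg : 1 ≤ Real.log (e ^ 3 * (n : ℝ) ^ d) := by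
    rw [Real.le_log_iff_exp_le (by positivity)]
    have h5 : (3 : ℝ) ^ 3 ≤ (e * ((n : ℝ) ^ d) ^ (1 / 3 : ℝ)) ^ 3 := by gcongr
    rw [mul_pow, v3] at h5
    linarith [Real.exp_one_lt_d9]
  have s0 : 0 ≤ e⁻¹ ^ 2 * Real.log (e ^ 3 * (n : ℝ) ^ d) := by positivity
  by_cases hc : b * scale d ((n : ℝ) ^ d) e ≤ δ * (e⁻¹ ^ 2 * Real.log (e ^ 3 * (n : ℝ) ^ d))
  · exact lt_of_lt_of_le h1 (measureReal_mono fun ω hω => le_trans hc hω)
  · push Not at hc
    have hdr := FLOW.drop_eq hd κ0 he ((n : ℝ) ^ d)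
    have hdm := hM e _ he V1 lg
    rw [← hG] at hdr
    unfold scale at hc ⊢
    generalize e ^ (1 - 5 * (d : ℝ) / (2 * (d - 1))) * Real.log ((n : ℝ) ^ d) ^ ((d : ℝ) / (d - 1))
      = s₂ at *
    generalize e⁻¹ ^ 2 * Real.log (e ^ 3 * (n : ℝ) ^ d) = s₁ at *
    have hs : max s₁ s₂ = s₂ := by
      rcases le_total s₁ s₂ with h5 | h5
      · exact max_eq_right h5
      · rw [max_eq_left h5] at hc
        nlinarith
    rw [hs] at hc ⊢
    have s2 : 0 < s₂ := by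
      have : 0 < b * s₂ := lt_of_le_of_lt (by positivity) hc
      exact (mul_pos_iff_of_pos_left b0).1 this
    have hreg : Cs * √(κ / e) ^ (d - 6) ≤ Real.log ((n : ℝ) ^ d) := by
      by_contra h5
      have h6 := mul_le_mul_of_nonneg_left (hdm (not_le.1 h5)) b0.le
      nlinarith
    have hl0 : L₀ ≤ √(κ / e) := by
      refine Real.le_sqrt_of_sq_le ?_
      rw [le_div_iff₀ (by positivity)] at h2
      rw [le_div_iff₀ he]
      nlinarith
    have key := hL₀ n _ hl0 hreg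
    rw [Real.sq_sqrt (by positivity), div_div_cancel₀ κ0.ne', hdr] at key
    have hp : ((Set.projIcc 0 1 zero_le_one ((pc d : ℝ) * (1 + e)) : unitInterval) : ℝ) =
        pc d * (1 + e) := by
      rw [Set.projIcc_of_mem _ ⟨by positivity, by nlinarith⟩]
    have br := (hB d n (Set.projIcc 0 1 zero_le_one ((pc d : ℝ) * (1 + e))) (a * (G * s₂))
      (by positivity)).1
    rw [hp] at br
    rw [← br] at key
    refine lt_of_lt_of_le (by linarith) (key.trans (measureReal_mono fun ω hω => ?_))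
    have h7 : a * (G * s₂) ≤ (kthLargest 2 ω : ℝ) := hω
    have h8 : b * s₂ ≤ a * (G * s₂) := by nlinarith
    exact h8.trans h7

end Pool.Agent.TPC.S7
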