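import Pool.Agent.Lib.TPC.B_Z5

/-! Finite modifications that make the edge above a pioneer pivotal. -/

open Finset

namespace Pool.Agent.TPC.S7.Piv

open Pool.Agent.Lib.MP_81a99a_pr (lattice)

/-- finite energy -/
lemma energy {ι : Type} [DecidableEq ι] {π : ι → ℝ} (hπ : Prob π) {μ : ℝ} (h0 : 0 ≤ μ)
    (hμ : ∀ e, μ ≤ π e ∧ μ ≤ 1 - π e) (h1 : μ ≤ 1) (E R : Finset ι) {S T : Finset ι → Prop}
    (h : ∀ ω, ω ⊆ E → S ω → ∃ ω', ω' ⊆ E ∧ T ω' ∧ ∀ e, e ∉ R → (e ∈ ω ↔ e ∈ ω')) :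
    μ ^ R.card * PE E π (fun ω => ind (S ω)) ≤ PE E π (fun ω => ind (T ω)) := by
  rw [PE_freeze E R, PE_freeze E R, PE_comm, PE_comm (E ∩ R), ← PE_mul_left]
  refine PE_mono' hπ fun b hb => ?_
  by_cases hex : ∃ a, a ⊆ E ∩ R ∧ S (a ∪ b)
  · obtain ⟨a, ha, hS⟩ := hex
    obtain ⟨ω', e1, e2, e3⟩ := h _ (union_subset (ha.trans inter_subset_left)
      (hb.trans sdiff_subset)) hS
    have e4 : ω' ∩ R ∪ b = ω' := by
      ext e
      by_cases he : e ∈ R
      · have : e ∉ b := fun h2 => (mem_sdiff.1 (hb h2)).2 he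
        simp [he, this]
      · have : e ∉ a := fun h2 => he (mem_inter.1 (ha h2)).2
        have h3 := e3 e he
        simp only [mem_union, this, false_or] at h3
        simp [he, h3]
    have e5 : μ ^ R.card ≤ wt (E ∩ R) π (ω' ∩ R) := by
      refine (pow_le_pow_of_le_one h0 h1 (card_le_card (inter_subset_right (s₁ := E)))).trans ?_
      rw [← prod_const, wt]
      refine prod_le_prod (fun _ _ => h0) fun e _ => ?_
      split_ifs
      exacts [(hμ e).1, (hμ e).2]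
    refine (mul_le_of_le_one_right (pow_nonneg h0 _) (PE_ind_le_one hπ _)).trans (e5.trans ?_)
    refine le_trans (le_of_eq ?_) (single_le_sum (f := fun a => wt (E ∩ R) π a * ind (T (a ∪ b)))
      (fun a _ => mul_nonneg (wt_nonneg hπ _ _) (ind_nonneg _))
      (mem_powerset.2 (inter_subset_inter e1 subset_rfl)))
    rw [e4, ind_pos e2, mul_one]
  · rw [PE_congr (g := fun _ => 0) fun a ha => ind_neg fun h2 => hex ⟨a, ha, h2⟩, PE_const,
      mul_zero]
    exact PE_ind_nonneg hπ _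

section general

variable {V : Type} [DecidableEq V] {G : SimpleGraph V} {B L U : Finset V} {x y t w z : V}
  {ω : Finset (Sym2 V)}

/-- `x` is joined to `y` inside `B` and the edge from `y` to `t` is pivotal for `x ↔ z` -/
def Ev (G : SimpleGraph V) (B L : Finset V) (x y t z : V) (ω : Finset (Sym2 V)) : Prop :=
  conn G B ω x y ∧ conn G L ω x z ∧ ¬ conn G L (ω.erase s(y, t)) x z

lemma conn_of_agree {D : Finset V} {ω' : Finset (Sym2 V)} {a b : V} (h : conn G D ω a b)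
    (e : ∀ e ∈ edges G D, e ∈ ω → e ∈ ω') : conn G D ω' a b :=
  h.induction (P := conn G D ω' a) (conn.refl h.1) fun _ _ h1 ha h2 h3 he =>
    h1.tail h3 ha (e _ (mk_mem_edges.2 ⟨ha, h2, h3⟩) he) h2

lemma modify (hBU : Disjoint B U) (hBL : B ⊆ L) (hUL : U ⊆ L) (ht : t ∈ U) (hadj : G.Adj y t)
    (hw : w ∈ U) (hz : z ∉ U) (hU : ∀ u ∈ U, conn G U (edges G U) t u) (hω : ω ⊆ edges G L)
    (h1 : conn G B ω x y) (h2 : conn G (L \ cl G L ω x) ω w z) :
    ∃ ω', ω' ⊆ edges G L ∧ Ev G B L x y t z ω' ∧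
      ∀ e, ¬ (e ∈ edges G L ∧ e ∈ touch U) → (e ∈ ω ↔ e ∈ ω') := by
  obtain ⟨A, hA⟩ : ∃ A, A = cl G L ω x := ⟨_, rfl⟩
  rw [← hA] at h2
  obtain ⟨v, u, hu, hvu, hv⟩ : ∃ v u, u ∈ U ∧ G.Adj v u ∧ conn G ((L \ A) \ U) ω z v := by
    have := h2.symm.induction (P := fun a => (∃ v u, u ∈ U ∧ G.Adj v u ∧
      conn G ((L \ A) \ U) ω z v) ∨ conn G ((L \ A) \ U) ω z a)
      (Or.inr (conn.refl (mem_sdiff.2 ⟨h2.right, hz⟩))) fun a b h3 hab _ hb he => by
        rcases h3 with h3 | h3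
        · exact Or.inl h3
        · by_cases hbU : b ∈ U
          · exact Or.inl ⟨a, b, hbU, hab, h3⟩
          · exact Or.inr (h3.tail (mem_sdiff.2 ⟨hb, hbU⟩) hab he h3.right)
    exact this.elim id fun h3 => absurd hw (mem_sdiff.1 h3.right).2
  have hv1 := mem_sdiff.1 hv.right
  have hv2 := mem_sdiff.1 hv1.1
  have hyL := hBL h1.right
  obtain ⟨ω', hω'⟩ : ∃ ω' : Finset (Sym2 V), ∀ e, e ∈ ω' ↔ (e ∈ ω ∧ e ∉ touch U) ∨
      e ∈ edges G U ∨ e = s(y, t) ∨ e = s(v, u) :=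
    ⟨flt ω (· ∉ touch U) ∪ (edges G U ∪ {s(y, t), s(v, u)}), fun e => by
      simp only [mem_union, mem_flt, mem_insert, mem_singleton]⟩
  have keep : ∀ {D : Finset V} {a b : V}, Disjoint D U → conn G D ω a b → conn G D ω' a b :=
    fun hD h => conn_of_agree h fun e he h3 => (hω' e).2 (Or.inl ⟨h3, fun ⟨a, ha, h4⟩ =>
      disjoint_left.1 hD ((mem_edges.1 he).2 a h4) ha⟩)
  refine ⟨ω', fun e he => ?_, ⟨keep hBU h1, ?_, fun h3 => ?_⟩, fun e he => ?_⟩
  · rcases (hω' e).1 he with h3 | h3 | rfl | rfl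
    · exact hω h3.1
    · exact edges_mono hUL h3
    · exact mk_mem_edges.2 ⟨hadj, hyL, hUL ht⟩
    · exact mk_mem_edges.2 ⟨hvu, hv2.1, hUL hu⟩
  · have a1 := ((keep hBU h1).mono hBL subset_rfl).tail (hUL ht) hadj
      ((hω' _).2 (Or.inr (Or.inr (Or.inl rfl)))) hyL
    have a2 := a1.trans ((hU u hu).mono hUL fun e he => (hω' e).2 (Or.inr (Or.inl he)))
    have a3 := a2.tail hv2.1 hvu.symm
      ((hω' _).2 (Or.inr (Or.inr (Or.inr Sym2.eq_swap)))) (hUL hu)
    exact a3.trans ((keep sdiff_disjoint hv).symm.mono (sdiff_subset.trans sdiff_subset) subset_rfl)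
  · have hxA : x ∈ A \ U := mem_sdiff.2 ⟨hA ▸ self_mem_cl (hBL h1.1), disjoint_left.1 hBU h1.1⟩
    have sub : cl G L (ω'.erase s(y, t)) x ⊆ A \ U := by
      refine cl_subset_of hxA fun a ha b hb hab he => ?_
      obtain ⟨a1, a2⟩ := mem_sdiff.1 ha
      obtain ⟨a3, a4⟩ := mem_erase.1 he
      rcases (hω' _).1 a4 with h4 | h4 | h4 | h4
      · refine mem_sdiff.2 ⟨?_, fun h5 => h4.2 (mk_mem_touch.2 (Or.inr h5))⟩
        rw [hA] at a1 ⊢
        exact mem_cl.2 ((mem_cl.1 a1).tail hb hab h4.1 (mem_cl.1 a1).right)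
      · exact absurd (mk_mem_edges.1 h4).2.1 a2
      · exact absurd h4 a3
      · rcases Sym2.eq_iff.1 h4 with h5 | h5
        · exact absurd (h5.1 ▸ a1) hv2.2
        · exact absurd (h5.1 ▸ hu) a2
    exact (mem_sdiff.1 h2.right).2 (mem_sdiff.1 (sub (mem_cl.2 h3))).1
  · rw [hω']
    refine ⟨fun h3 => Or.inl ⟨h3, fun h4 => he ⟨hω h3, h4⟩⟩, fun h3 => ?_⟩
    rcases h3 with h3 | h3 | rfl | rfl
    · exact h3.1
    · refine absurd ⟨edges_mono hUL h3, ?_⟩ he
      induction e using Sym2.ind with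
      | h a b => exact mk_mem_touch.2 (Or.inl (mk_mem_edges.1 h3).2.1)
    · exact absurd ⟨mk_mem_edges.2 ⟨hadj, hyL, hUL ht⟩, mk_mem_touch.2 (Or.inr ht)⟩ he
    · exact absurd ⟨mk_mem_edges.2 ⟨hvu, hv2.1, hUL hu⟩, mk_mem_touch.2 (Or.inr hu)⟩ he

/-- at most one pioneer carries a pivotal edge -/
lemma unique {y' t' : V} (hBL : B ⊆ L) (ht : t ∉ B) (ht' : t' ∉ B) (h : Ev G B L x y t z ω)
    (h' : Ev G B L x y' t' z ω) : y = y' := by
  by_contra hne
  have ne : s(y, t) ≠ s(y', t') := fun e => by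
    rcases Sym2.eq_iff.1 e with h3 | h3
    · exact hne h3.1
    · exact ht' (h3.1 ▸ h.1.right)
  have aux : ∀ {y t y' t' a b : V}, t' ∉ B → s(y, t) ≠ s(y', t') → conn G B ω x y →
      conn G L (ω.erase s(y', t')) z a → G.Adj a b → b ∈ L → s(a, b) ∈ ω → s(a, b) = s(y, t) →
      conn G L (ω.erase s(y', t')) x z := by
    intro y t y' t' a b ht' ne h1 h2 hab hb he e
    have a1 : conn G L (ω.erase s(y', t')) x y := (conn_of_agree h1 fun e he h3 =>
      mem_erase.2 ⟨fun h4 => ht' (mk_mem_edges.1 (h4 ▸ he)).2.2, h3⟩).mono hBL subset_rfl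
    rcases Sym2.eq_iff.1 e with h3 | h3
    · exact a1.trans (h3.1 ▸ h2).symm
    · exact a1.trans (h3.2 ▸ h2.tail hb hab (mem_erase.2 ⟨e ▸ ne, he⟩) h2.right).symm
  have key := h.2.1.symm.induction (P := conn G L ((ω.erase s(y, t)).erase s(y', t')) z)
    (conn.refl h.2.1.right) fun a b h1 hab ha hb he => by
      by_cases e1 : s(a, b) = s(y, t)
      · exact absurd (aux ht' ne h.1 (h1.mono subset_rfl
          (erase_subset_erase _ (erase_subset _ _))) hab hb he e1) h'.2.2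
      by_cases e2 : s(a, b) = s(y', t')
      · exact absurd (aux ht ne.symm h'.1 (h1.mono subset_rfl (erase_subset _ _)) hab hb he e2)
          h.2.2
      exact h1.tail hb hab (mem_erase.2 ⟨e2, mem_erase.2 ⟨e1, he⟩⟩) ha
  exact h.2.2 (key.symm.mono subset_rfl (erase_subset _ _))

lemma sum_Ev {π : Sym2 V → ℝ} (hπ : Prob π) (hBL : B ⊆ L) (F : Finset V) (f : V → V)
    (hf : ∀ y ∈ F, f y ∉ B) :
    ∑ y ∈ F, PE (edges G L) π (fun ω => ind (Ev G B L x y (f y) z ω)) ≤ tau G π L x z := by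
  rw [← PE_sum]
  refine PE_mono hπ fun ω => ?_
  by_cases hc : conn G L ω x z
  · rw [ind_pos hc, ← card_flt]
    exact_mod_cast card_le_one.2 fun a ha b hb => unique hBL (hf a (mem_flt.1 ha).1)
      (hf b (mem_flt.1 hb).1) (mem_flt.1 ha).2 (mem_flt.1 hb).2
  · rw [ind_neg hc, sum_eq_zero fun y _ => ind_neg fun h => hc h.2.1]

/-- conditioning on the cluster in the larger domain -/
lemma cond (π : Sym2 V → ℝ) (hBL : B ⊆ L) (Q : Finset V → Prop) :
    PE (edges G L) π (fun ω => ind (conn G B ω x y ∧ Q (cl G L ω x)) *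
      tau G π (L \ cl G L ω x) w z) =
    PE (edges G L) π fun ω => ind ((conn G B ω x y ∧ Q (cl G L ω x)) ∧
      conn G (L \ cl G L ω x) ω w z) := by
  have key := PE_stop (fun ω => (cl G L ω x, cl G B ω x))
    (fun A => {e | e ∈ edges G L ∧ e ∈ touch A.1})
    (fun ω ω' h => Prod.ext (cl_congr fun e h1 h2 => h e ⟨h1, h2⟩)
      (cl_congr fun e h1 h2 => h e ⟨edges_mono hBL h1, touch_mono (cl_mono hBL subset_rfl) h2⟩))
    (fun A ω => ind (y ∈ A.2 ∧ Q A.1) * ind (conn G (L \ A.1) ω w z))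
    (fun ω => ((dep_conn G (L \ cl G L ω x) w z).comp fun P =>
      ind (y ∈ cl G B ω x ∧ Q (cl G L ω x)) * ind P).mono
      fun e he h => edges_sdiff_not_touch he h.2) (edges G L) π
  simp only [mem_cl] at key
  simp only [ind_and (conn G B _ x y ∧ _)]
  rw [key]
  exact PE_congr fun ω _ => by rw [PE_mul_left, PE_conn (edges_mono sdiff_subset)]

end general

variable {d : ℕ}

/-- a cube is connected -/
lemma conn_box (c : Zd d) (K : ℕ) (u : Zd d) (hu : u ∈ box c K) :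
    conn (lattice d) (box c K) (edges (lattice d) (box c K)) c u := by
  obtain ⟨n, hn⟩ : ∃ n, ∑ j, (u j - c j).natAbs = n := ⟨_, rfl⟩
  induction n using Nat.strong_induction_on generalizing u with
  | _ n ih =>
    by_cases e : u = c
    · exact e ▸ conn.refl (e ▸ hu)
    obtain ⟨i, hi⟩ := Function.ne_iff.1 e
    have hb := mem_box'.1 hu
    obtain ⟨s, hs1, hs2⟩ : ∃ s : ℤ, (s = u i + 1 ∨ s = u i - 1) ∧
        (s - c i).natAbs < (u i - c i).natAbs := by
      rcases lt_or_gt_of_ne hi with h | h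
      · exact ⟨u i + 1, Or.inl rfl, by omega⟩
      · exact ⟨u i - 1, Or.inr rfl, by omega⟩
    have hv : Function.update u i s ∈ box c K := mem_box'.2 fun j => by
      by_cases hj : j = i
      · subst hj
        have := hb j
        rw [Function.update_self]
        omega
      · rw [Function.update_of_ne hj]
        exact hb j
    have hadj : (lattice d).Adj (Function.update u i s) u := lattice_adj'.2 ⟨i, by
      rw [Function.update_self]
      omega, fun j hj => (Function.update_of_ne hj _ _).symm⟩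
    refine (ih _ ?_ _ hv rfl).tail hu hadj (mk_mem_edges.2 ⟨hadj, hv, hu⟩) hv
    rw [← hn]
    refine sum_lt_sum (fun j _ => ?_) ⟨i, mem_univ i, by rwa [Function.update_self]⟩
    by_cases hj : j = i
    · subst hj
      rw [Function.update_self]
      exact hs2.le
    · rw [Function.update_of_ne hj]

/-- the kernel tends to zero -/
lemma kk_small {a ε : ℝ} (ha : 0 < a) (hε : 0 < ε) : ∃ K₀ : ℕ, ∀ K : ℕ, K₀ ≤ K → kk a K ≤ ε := by
  have h1 : Filter.Tendsto (fun K : ℕ => kk a K) Filter.atTop (nhds 0) :=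
    (tendsto_rpow_neg_atTop ha).comp
      (Filter.tendsto_atTop_add_const_left _ 1 tendsto_natCast_atTop_atTop)
  exact Filter.eventually_atTop.1 (h1.eventually (ge_mem_nhds hε))

/-- the kernel averaged over the cube above `y` -/
lemma avg {A₁ : ℝ} (hA : 0 < A₁) (hd : 2 ≤ d) (hbox : ∀ (b v : Zd d) (M : ℕ),
      ∑ z ∈ box b M, kk ((d : ℝ) - 2) (zd v z) ≤ 9 * A₁ * (1 + (M : ℝ)) ^ 2) :
    ∃ A₂ : ℝ, 0 < A₂ ∧ ∀ (K : ℕ) (y c a : Zd d), zd y c ≤ K + 1 →
      ∑ w ∈ box c K, kk ((d : ℝ) - 2) (zd w a) ≤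
        A₂ * (2 * K + 1) ^ d * kk ((d : ℝ) - 2) (max (K : ℝ) (zd y a)) := by
  obtain ⟨e, rfl⟩ : ∃ e, d = e + 2 := ⟨d - 2, by omega⟩
  have he : ((e + 2 : ℕ) : ℝ) - 2 = e := by push_cast; ring
  rw [he] at hbox ⊢
  refine ⟨9 * A₁ * 3 ^ e + 2 ^ (e : ℝ), by positivity, fun K y c a h => ?_⟩
  have K0 : (0 : ℝ) ≤ K := Nat.cast_nonneg K
  have m0 : 0 ≤ max (K : ℝ) (zd y a) := le_max_of_le_left K0
  have k0 := kk_nonneg e m0
  by_cases hn : zd y a ≤ 4 * K + 2
  · have a1 : kk e (4 * K + 2) ≤ kk e (max (K : ℝ) (zd y a)) :=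
      kk_anti (Nat.cast_nonneg e) m0 (max_le (by linarith) hn)
    have a2 : 9 * A₁ * (1 + (K : ℝ)) ^ 2 ≤
        9 * A₁ * 3 ^ e * (2 * K + 1) ^ (e + 2) * kk e (4 * K + 2) := by
      rw [kk_nat e (by positivity), mul_one_div, le_div_iff₀ (by positivity)]
      calc _ ≤ 9 * A₁ * (2 * (K : ℝ) + 1) ^ 2 * (3 * (2 * K + 1)) ^ e := by
            have b1 : 1 + (K : ℝ) ≤ 2 * K + 1 := by linarith
            have b2 : 1 + (4 * (K : ℝ) + 2) ≤ 3 * (2 * K + 1) := by linarith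
            gcongr
        _ = _ := by rw [mul_pow]; ring
    refine (sum_congr rfl fun w _ => by rw [zd_comm]).trans_le ((hbox c a K).trans (a2.trans ?_))
    have : (0 : ℝ) < 2 ^ (e : ℝ) := by positivity
    have k1 := kk_nonneg e (by positivity : 0 ≤ 4 * (K : ℝ) + 2)
    have b1 : 9 * A₁ * 3 ^ e ≤ 9 * A₁ * 3 ^ e + 2 ^ (e : ℝ) := by linarith
    gcongr
  · have a1 : ∀ w ∈ box c K, kk e (zd w a) ≤ 2 ^ (e : ℝ) * kk e (max (K : ℝ) (zd y a)) := by
      intro w hw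
      have b1 := mem_box.1 hw
      have b2 := zd_tri y c w
      have b3 := zd_tri y w a
      rw [max_eq_right (by linarith)]
      exact kk_le_mul (Nat.cast_nonneg e) (zd_nonneg _ _) (zd_nonneg _ _) (by linarith)
    refine (sum_le_card_nsmul _ _ _ a1).trans ?_
    rw [nsmul_eq_mul, card_box]
    push_cast
    have : 0 ≤ 9 * A₁ * 3 ^ e * (2 * (K : ℝ) + 1) ^ (e + 2) * kk e (max (K : ℝ) (zd y a)) := by
      positivity
    linarith

end Pool.Agent.TPC.S7.Piv
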