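import Pool.Agent.Lib.TP7.Blue
import Pool.Agent.Lib.TP7.Piv
import Pool.Agent.Lib.TPC.B_INC

/-! Block INC: quadratic growth of the susceptibility below the sharp length. -/

open Finset

namespace Pool.Agent.TPC.S7

open Inc in
theorem st_INC (hP : St_PSI) (hF : St_FACE) (hS : St_SLK) (h2 : St_E2B) (h1 : St_E1B) :
    St_INC := by
  intro d p c C h
  obtain ⟨Φ, hΦ⟩ := hP d p c C h
  obtain ⟨C₂, C2, e2⟩ := h2 d p c C Φ h hΦ
  have p0 := h.p0
  have d9 : (7 : ℝ) ≤ d := by exact_mod_cast h.hd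
  obtain ⟨β, hβ⟩ : ∃ β : ℝ, β = 1 / (4 * d) * (1 / (4 * d)) := ⟨_, rfl⟩
  have β0 : 0 < β := by rw [hβ]; positivity
  obtain ⟨K₀, hK⟩ := Piv.kk_small (a := 1 / 20) (ε := β / 2 / C₂) (by norm_num) (by positivity)
  obtain ⟨K, K1, K2⟩ : ∃ K : ℕ, 0 < K ∧ K₀ ≤ K := ⟨K₀ + 1, by omega, by omega⟩
  have K0 : (0 : ℝ) < K := by exact_mod_cast K1
  have kb : C₂ * kk (1 / 20) K ≤ β / 2 := (le_div_iff₀' C2).1 (hK K K2)
  obtain ⟨C₃, C3, e1⟩ := h1 d p c C Φ h hΦ K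
  obtain ⟨θ, hθ⟩ : ∃ θ : ℝ, θ = min 1 ((p / 2) ^ K * β / (4 * C₃)) := ⟨_, rfl⟩
  have θ0 : 0 < θ := by rw [hθ]; positivity
  have θ1 : θ ≤ 1 := hθ ▸ min_le_left _ _
  have θ2 : θ * (4 * C₃) ≤ (p / 2) ^ K * β := (le_div_iff₀ (by positivity)).1 (hθ ▸ min_le_right _ _)
  refine ⟨θ * ((p / 2) ^ K * β) / 4 / (2 * K), 2 * K, by positivity, fun q hq qp M hM hp => ?_⟩
  have q0 : 0 < q := by linarith
  have q1 := qp.trans h.p1.le
  have i : Fin d := ⟨0, by have := h.hd; omega⟩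
  have step : ∀ c k : ℕ, c + K ≤ M → k ≤ M → ∑ x ∈ Ly i M k, tz q (Lo i M c) 0 x +
      θ * ((p / 2) ^ K * β) / 4 ≤ ∑ x ∈ Ly i M k, tz q (Lo i M (c + K)) 0 x := fun c k hc hk => by
    have a1 : ∀ y ∈ Lo i M c, y i ≤ c := fun y hy => (mem_Lo.1 hy).2
    have a2 : ∀ y ∈ Lo i M (c + K), y i ≤ (c : ℤ) + K := fun y hy => by
      exact_mod_cast (mem_Lo.1 hy).2
    have a3 : ∀ y ∈ Fa i c, y i = c := fun y hy => (mem_Fa.1 hy).2
    have a4 : ∀ x ∈ Ly i M k, x i = -k := fun y hy => (mem_Ly.1 hy).2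
    have s := sum_le_sum fun x (_ : x ∈ Ly i M k) => hS d q θ q0.le q1 θ0.le θ1 (Lo i M c)
      (Lo i M (c + K)) (Fa i c) i c K 0 x
      (fun y hy => mem_Lo.2 ⟨(mem_Lo.1 hy).1, by have := a1 y hy; omega⟩) a1
      fun y hy => ⟨a3 y hy, fun t ht => mem_Lo.2 ⟨fun j => by
        have := (mem_Fa.1 hy).1 j
        have := evb i j t
        simp only [Pi.add_apply]
        omega, by
        have := a3 y hy
        have := evb i i t
        simp only [Pi.add_apply]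
        omega⟩⟩
    rw [sum_add_distrib, sum_add_distrib, sum_add_distrib, ← mul_sum, ← mul_sum, ← mul_sum] at s
    have m := mul_le_mul_of_nonneg_left (hβ ▸ main hF q0 q1 i hp hc hk)
      (show 0 ≤ θ * q ^ K by positivity)
    have b2 := mul_le_mul_of_nonneg_left ((e2 q q0.le qp K _ _ _ _ i c _ 0 a1 a2 a3 a4).trans kb)
      (show 0 ≤ θ * q ^ K by positivity)
    have b1 := mul_le_mul_of_nonneg_left (e1 q q0.le qp _ _ _ _ i c _ 0 a1 a2 a3 a4) (sq_nonneg θ)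
    have b3 : θ * ((p / 2) ^ K * β) ≤ θ * (q ^ K * β) := by gcongr
    nlinarith [mul_le_mul_of_nonneg_left θ2 θ0.le]
  have tel : ∀ k ≤ M, ∀ j : ℕ, j * K ≤ M →
      j * (θ * ((p / 2) ^ K * β) / 4) ≤ ∑ x ∈ Ly i M k, tz q (Lo i M (j * K)) 0 x := by
    intro k hk j
    induction j with
    | zero => exact fun _ => by simpa using sum_nonneg fun _ _ => tz_nonneg q0.le q1
    | succ j ih =>
      intro hj
      rw [Nat.succ_mul] at hj ⊢
      have := step (j * K) k hj hk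
      have := ih (by omega)
      push_cast
      linarith
  refine le_trans ?_ (layers q0.le q1 i (M / K * K))
  refine le_trans ?_ (card_nsmul_le_sum _ _ _ fun k hk =>
    tel k (mem_range.1 hk).le (M / K) (Nat.div_mul_le_self M K))
  have j : (M : ℝ) ≤ 2 * K * (M / K : ℕ) := by
    have K1 : 0 < K := by exact_mod_cast K0
    have := Nat.lt_mul_div_succ M K1
    have : 1 ≤ M / K := (Nat.le_div_iff_mul_le K1).2 (by omega)
    exact_mod_cast (by nlinarith : M ≤ 2 * K * (M / K))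
  rw [card_range, nsmul_eq_mul, div_mul_eq_mul_div, div_le_iff₀ (by positivity)]
  have : 0 ≤ θ * ((p / 2) ^ K * β) / 4 * M := by positivity
  nlinarith [mul_le_mul_of_nonneg_left j this]

end Pool.Agent.TPC.S7
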