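import Pool.Agent.Lib.TP7.Blue
import Pool.Agent.Lib.TPC.B_LBb

/-! Block LBb: entropy cost of isolating the cluster of a cube. -/

open Finset

namespace Pool.Agent.TPC.S7

open Pool.Agent.Lib.MP_81a99a_pr (lattice torus)

open LBb in
theorem st_LBb (hE : St_ENT) (h7 : St_Z7c) (h9 : St_Z9) : St_LBb := by
  intro d p c C H κ
  obtain ⟨B, c₁, l₇, hB, hc, h7⟩ := h7 d p c C H
  obtain ⟨A, l₉, hA, h9⟩ := h9 d p c C H κ
  obtain ⟨M, hM, hMs⟩ := shell_sum d hc
  have hp0 := H.p0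
  have hp1 : 0 < 1 - p := sub_pos.2 H.p1
  set K : ℝ := (κ + 1) ^ 2 / (p / 2 * ((1 - p) / 2)) *
    (2 * d * ((A + B) * Real.exp (2 * c₁) * M)) with hK
  have hK0 : 0 ≤ K := by positivity
  have hC0 : 0 ≤ 2 * (2 * d + 4 * B) / c₁ := by positivity
  refine ⟨4 + 2 * (2 * d + 4 * B) / c₁ + 2 * K,
    max (max 1 (max l₇ l₉)) (max (2 / p) (2 * |κ| / (1 - p))), by positivity, ?_⟩
  intro l q k L L' hl hlL hk hq0 hq1 hIn hL'
  simp only [max_le_iff] at hl
  obtain ⟨⟨hl1, hl7, hl9⟩, hlp, hlκ⟩ := hl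
  have hl0 : 0 < l := by linarith
  have hll : l ≤ l ^ 2 := by nlinarith
  have hs : p / 2 ≤ p - 1 / l ^ 2 := by
    have : 1 / l ^ 2 ≤ p / 2 := by
      rw [div_le_iff₀ hp0] at hlp
      rw [div_le_iff₀ (by positivity)]
      nlinarith
    linarith
  have hq : q ≤ 1 - (1 - p) / 2 := by
    have : κ / l ^ 2 ≤ (1 - p) / 2 := by
      rw [div_le_iff₀ hp1] at hlκ
      rw [div_le_iff₀ (by positivity)]
      have := le_abs_self κ
      nlinarith
    linarith
  have h0 : 0 < p - 1 / l ^ 2 := by linarith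
  have h1 : q < 1 := by linarith
  have hk0 : 0 < k := lt_of_lt_of_le (by positivity) hk
  obtain ⟨hr1, hex⟩ := exit_small (d := d) (r := (L' : ℝ) - L - 1)
    (C₁ := 4 + 2 * (2 * d + 4 * B) / c₁ + 2 * K) hB hc hl1 hlL (by linarith) (by linarith)
    (by linarith)
  have hLL : L < L' := by
    have : (L : ℝ) < L' := by linarith
    exact_mod_cast this
  have hQ := Q_AA (d := d) h0 hq0 h1 hk0 hLL fun D x => h7 l hl7 D x _ (by linarith)
  have hent := (hE _ (edges (lattice d) (box 0 L')) (fun _ => q) (QQ q (p - 1 / l ^ 2) L)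
    (fun _ => ⟨by linarith, h1⟩)
    (fun e => ⟨(QQ_mem h0 hq0 h1 e).1, (QQ_mem h0 hq0 h1 e).2.trans_lt h1⟩)
    (SS k L L') (isStop k L L')).2 (AA k L L') (detBy k L L') (by linarith)
  refine le_trans (Real.exp_le_exp.2 ?_) (hent.trans (P_AA (by linarith) h1.le hLL.le))
  have hg : ∀ v ∈ flt (box (0 : Zd d) L') (fun v => (L : ℝ) ≤ zd 0 v),
      gg q (p - 1 / l ^ 2) k L L' v ≤
        (A + B) * Real.exp (2 * c₁) / l ^ 2 * Real.exp (-(c₁ * (zd 0 v - L) / l)) := by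
    intro v _
    refine comb hA hB hc hl1 ((gg_vol h0 hq0 h1 hLL.le hk v).trans
      (h9 l hl9 q (by linarith) hq1 _ _)) fun ht => ?_
    exact (gg_arm h0 hq0 h1 hk0 (by linarith)).trans (h7 l hl7 _ _ _ (by linarith))
  have hsum := Finset.sum_le_sum hg
  rw [← Finset.mul_sum] at hsum
  replace hsum := hsum.trans (mul_le_mul_of_nonneg_left
    (hMs l L _ hl1 hlL fun v hv => (mem_flt.1 hv).2) (by positivity))
  have hW : (q - (p - 1 / l ^ 2)) ^ 2 / (q * (1 - q)) ≤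
      ((κ + 1) / l ^ 2) ^ 2 / (p / 2 * ((1 - p) / 2)) := by
    refine div_le_div₀ (by positivity) (pow_le_pow_left₀ (by linarith) ?_ 2) (by positivity)
      (mul_le_mul (by linarith) (by linarith) (by positivity) (by linarith))
    rw [add_div]; linarith
  have hP := prob_QQ (d := d) (L := L) h0 hq0 h1
  have hB1 := (ent_le (d := d) (k := k) (L := L) (L' := L') h0 hq0 h1).trans (mul_le_mul hW
    (mul_le_mul_of_nonneg_left hsum (by positivity))
    (mul_nonneg (by positivity) (Finset.sum_nonneg fun v _ => PE_ind_nonneg hP _)) (by positivity))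
  have e : ((κ + 1) / l ^ 2) ^ 2 / (p / 2 * ((1 - p) / 2)) * (2 * d * ((A + B) *
      Real.exp (2 * c₁) / l ^ 2 * (M * ((L : ℝ) ^ (d - 1) * l)))) =
      K * ((L : ℝ) ^ (d - 1) / l ^ 5) := by
    rw [hK]; field_simp
  rw [e] at hB1
  have hY : 0 ≤ (L : ℝ) ^ (d - 1) / l ^ 5 := by positivity
  have h2 := mul_nonneg hC0 hY
  nlinarith

end Pool.Agent.TPC.S7
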