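import Pool.Agent.Lib.TP7.Blue
import Pool.Agent.Lib.TPC.B_LIN

/-! Block LIN: a cube of radius about `m l` contains a large cluster. -/

open Finset

namespace Pool.Agent.TPC.S7

open Pool.Agent.Lib.MP_81a99a_pr (lattice torus)

open LIN in
theorem st_LIN (hP : St_PK2) (hQ : St_CUBE) (hG : St_GRID) (hC : St_GGC) : St_LIN := by
  intro d p c C H
  have hd := H.hd
  obtain ⟨κ, C₀, R, c₁, lam, Cκ, θ, C₁, K, hκ, hC₀, hR, hc₁, hlam, -, -, P⟩ := hP d p c C H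
  obtain ⟨φ₃, φ₄, c', C', L₀, -, -, -, -, P⟩ := P 1 one_pos
  obtain ⟨lam₀, Q⟩ := hQ d (by omega)
  have hΞ : (0 : ℝ) < K.Ξ := by exact_mod_cast K.hΞ
  refine ⟨κ, R + 6, c₁ / (2 * K.Ξ), max L₀ (max 1 (lam₀ / lam)), by linarith, by linarith,
    by positivity, fun l hl r hr => ?_⟩
  have l0 : L₀ ≤ l := (le_max_left _ _).trans hl
  have l1 : 1 ≤ l := ((le_max_left _ _).trans (le_max_right _ _)).trans hl
  have l2 : lam₀ / lam ≤ l := ((le_max_right _ _).trans (le_max_right _ _)).trans hl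
  have r1 : (1 : ℝ) ≤ r := by exact_mod_cast hr
  set L : ℕ := ⌈(4 * r + 1 + R) * l⌉₊ with hL
  have L1 : (4 * r + 1 + R) * l ≤ L := Nat.le_ceil _
  have L2 : (L : ℝ) < (4 * r + 1 + R) * l + 1 := Nat.ceil_lt_add_one (by positivity)
  refine ⟨L, by nlinarith, ?_, ?_⟩
  · have e1 : 0 ≤ (r - 1) * ((R + 2) * l) := mul_nonneg (by linarith) (by positivity)
    nlinarith
  obtain ⟨n, n1, n2, n3⟩ : ∃ n : ℕ, C₀ * l ≤ n ∧ 2 * l * (4 * r + 1) ≤ n ∧ 2 * L + 2 ≤ n := by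
    refine ⟨⌈C₀ * l⌉₊ + ⌈2 * l * (4 * r + 1)⌉₊ + (2 * L + 2), ?_, ?_, by omega⟩
    · refine (Nat.le_ceil _).trans (Nat.cast_le.2 (by omega))
    · refine (Nat.le_ceil _).trans (Nat.cast_le.2 (by omega))
  have : NeZero n := ⟨by omega⟩
  obtain ⟨m, _, M, S, q, hM, hS, hq, hp, hbad, -, -⟩ := P n l l0 n1
  have m0 : (0 : ℝ) < m := by exact_mod_cast NeZero.pos m
  have hm : 4 * r < m := by
    have h1 : (n : ℝ) ≤ 2 * l * m := by
      have := hS.2.2.1
      rwa [div_le_iff₀ m0] at this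
    have h2 : (4 * r + 1 : ℝ) ≤ m := le_of_mul_le_mul_left (n2.trans h1) (by linarith)
    exact_mod_cast h2
  have hlam₀ : lam₀ ≤ lam * l ^ (d - 6) := by
    have h1 : l ≤ l ^ (d - 6) := le_self_pow₀ l1 (by omega)
    rw [div_le_iff₀ hlam] at l2
    nlinarith
  have main := Q (Bit (Tor d n)) univ (fun b => q b.2) (prob_lev hq)
    (fun ω => liftSet (badSet S c₁ ω)) 0 r (lam * l ^ (d - 6)) hlam₀ (by
      intro T hT
      have h1 := hbad (T.image (proj m))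
      rw [card_image_of_injOn ((injOn_box (r := 2 * r) (by omega)).mono hT)] at h1
      refine le_trans (PE_ind_mono (prob_lev hq) fun ω h b hb => ?_) h1
      obtain ⟨z, hz, rfl⟩ := mem_image.1 hb
      exact h hz)
  have hU : M.U = l ^ (d - 2) := by
    rw [Core.U, hM.2.2.1, hM.2.2.2, ← pow_add]
    exact congrArg _ (by omega)
  have pm := plev_mem hq 4
  rw [← hp]
  refine le_trans ?_ (lift pm.1 pm.2 _ n3)
  rw [← PL_lev]
  refine main.trans (PE_ind_mono (prob_lev hq) fun ω h => ?_)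
  have h1 := det hG hC hc₁ l1 hS hm L1 ω h
  rwa [hU, hM.1] at h1

end Pool.Agent.TPC.S7
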