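import Pool.Agent.Lib.TP7.Blue
import Pool.Agent.Lib.TPC.B_LOW

/-! Lower bound on the second largest cluster in the droplet regime. -/

open Finset

namespace Pool.Agent.TPC.S7

open LOW

theorem st_LOW (hI : St_LIN) (hb : St_LBb) (hc : St_LBc) : St_LOW := by
  intro d p c C H
  obtain ⟨κ, K, c₁, l₀, κ0, K0, c0, hI⟩ := hI d p c C H
  obtain ⟨C₁, l₁, C0, hb⟩ := hb d p c C H (p * κ)
  have p0 := H.p0
  have p1 := H.p1
  obtain ⟨e, rfl⟩ : ∃ e, d = e + 6 := ⟨d - 6, by have := H.hd; omega⟩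
  have e3 : 1 ≤ e := by have := H.hd; omega
  have dp : (0 : ℝ) < (e + 6 : ℕ) := by positivity
  obtain ⟨b, b0, b1, b2⟩ : ∃ b : ℝ, 0 < b ∧ b ≤ 1 ∧ C₁ * b * (e + 6 : ℕ) ≤ 1 / 4 := by
    refine ⟨min 1 (1 / (4 * C₁ * (e + 6 : ℕ))), by positivity, min_le_left _ _, ?_⟩
    have := min_le_right 1 (1 / (4 * C₁ * (e + 6 : ℕ)))
    rw [le_div_iff₀ (by positivity)] at this
    linarith
  refine ⟨κ, c₁ * (b / K / 2) ^ (e + 6), max 1 ((K / b) ^ (e + 5)), κ0, by positivity,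
    fun η η0 => ?_⟩
  obtain ⟨D, hD⟩ : ∃ D : ℝ, D = 2 * (6 + 4 * C₁) * ((e + 6 : ℕ) : ℝ) ^ 3 := ⟨_, rfl⟩
  have D0 : 0 < D := by rw [hD]; positivity
  refine ⟨max (max (max l₀ l₁) (max 1 (1 / c₁))) (max (p * κ / (1 - p))
    ((e + 6 : ℕ) * (100 * D * (Real.log (2 / η) * Real.exp C₁ + 1)))), fun n _ l hl hV => ?_⟩
  simp only [max_le_iff] at hl
  obtain ⟨⟨⟨g0, g1⟩, g2, g3⟩, g4, g5⟩ := hl
  have l0 : 0 < l := by positivity
  rw [Nat.add_sub_cancel] at hV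
  have n0 : (0 : ℝ) < n := by exact_mod_cast NeZero.pos n
  have lN : l ≤ l ^ e := le_self_pow₀ g2 (by omega)
  have N0 : 0 < l ^ e := by positivity
  have hΛ : Real.log ((n : ℝ) ^ (e + 6)) = (e + 6 : ℕ) * Real.log n := Real.log_pow _ _
  have s := sDrop_eq (e := e) (V := (n : ℝ) ^ (e + 6)) (by omega) l0
  generalize Real.log ((n : ℝ) ^ (e + 6)) = Λ at hV hΛ s
  have V1 : l ^ e ≤ Λ := by nlinarith [le_max_left 1 ((K / b) ^ (e + 5))]
  have lΛ : l ≤ Λ := lN.trans V1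
  have Λ1 : 1 ≤ Λ := g2.trans lΛ
  have Λ0 : 0 < Λ := by positivity
  rw [s Λ0]
  have R0 : 0 ≤ (Λ / l ^ e) ^ ((e + 5 : ℕ) : ℝ)⁻¹ := by positivity
  have Re : ((Λ / l ^ e) ^ ((e + 5 : ℕ) : ℝ)⁻¹) ^ (e + 5) = Λ / l ^ e :=
    Real.rpow_inv_natCast_pow (by positivity) (by omega)
  generalize (Λ / l ^ e) ^ ((e + 5 : ℕ) : ℝ)⁻¹ = R at R0 Re
  have RC : max 1 ((K / b) ^ (e + 5)) ≤ R ^ (e + 5) := by rw [Re, le_div_iff₀ N0]; exact hV
  have R1 : 1 ≤ R := (one_le_pow_iff_of_nonneg R0 (by omega)).1 ((le_max_left _ _).trans RC)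
  have R2 : K / b ≤ R :=
    (pow_le_pow_iff_left₀ (by positivity) R0 (by omega)).1 ((le_max_right _ _).trans RC)
  have R3 : R ≤ Λ := by
    refine (le_self_pow₀ R1 (by omega : e + 5 ≠ 0)).trans ?_
    rw [Re]
    exact div_le_self Λ0.le (g2.trans lN)
  have R4 : 1 ≤ b / K * R := by
    rw [div_le_iff₀ b0] at R2
    rw [div_mul_eq_mul_div, le_div_iff₀ K0]
    linarith
  obtain ⟨m, m1, m2, m3⟩ : ∃ m : ℕ, 1 ≤ m ∧ (m : ℝ) ≤ b / K * R ∧ b / K / 2 * R ≤ m := by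
    have f1 : 1 ≤ ⌊b / K * R⌋₊ := Nat.le_floor (by simpa using R4)
    have f2 : (1 : ℝ) ≤ ⌊b / K * R⌋₊ := by exact_mod_cast f1
    have := Nat.lt_floor_add_one (b / K * R)
    exact ⟨_, f1, Nat.floor_le (by positivity), by linarith⟩
  obtain ⟨L, L1, L2, L3⟩ := hI l g0 m m1
  have m0 : (1 : ℝ) ≤ m := by exact_mod_cast m1
  have ee : e + 6 - 2 = e + 4 := by omega
  rw [ee] at L3
  have k1 : l ^ 4 ≤ c₁ * (m : ℝ) ^ (e + 6) * l ^ (e + 4) := by
    rw [div_le_iff₀ c0] at g3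
    have h1 : 1 ≤ c₁ * l ^ e := by nlinarith
    have h2 : 1 ≤ (m : ℝ) ^ (e + 6) := one_le_pow₀ m0
    have h3 : 1 ≤ c₁ * l ^ e * (m : ℝ) ^ (e + 6) := one_le_mul_of_one_le_of_one_le h1 h2
    rw [pow_add l e 4]
    nlinarith [pow_pos l0 4]
  have qe : p * (1 + κ / l ^ 2) = p + p * κ / l ^ 2 := by ring
  have q0 : 0 ≤ p * κ / l ^ 2 := by positivity
  have q1 : p * (1 + κ / l ^ 2) ≤ 1 := by
    rw [div_le_iff₀ (by linarith)] at g4
    have : p * κ / l ^ 2 ≤ 1 - p := by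
      rw [div_le_iff₀ (by positivity)]
      nlinarith [mul_nonneg (mul_nonneg (sub_nonneg.2 p1.le) l0.le) (sub_nonneg.2 g2)]
    linarith
  have Lb : (L : ℝ) ≤ b * R * l := by
    refine L2.trans (le_trans (b := K * (b / K * R) * l) (by gcongr) (le_of_eq ?_))
    field_simp
  have iso := hb l (p * (1 + κ / l ^ 2)) _ L ⌈L + C₁ * l * Real.log (L + 2)⌉₊ g1 L1 k1
    (by rw [qe]; have : 0 ≤ 1 / l ^ 2 := by positivity
        linarith) qe.le L3 (Nat.le_ceil _)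
  have x0 : 0 < Real.log n := by
    by_contra h
    nlinarith [not_lt.1 h]
  have ρ : Real.exp (-(Real.log n / 4 + C₁)) ≤
      Real.exp (-(C₁ * ((L : ℝ) ^ (e + 6 - 1) / l ^ 5 + 1))) := by
    have e5 : e + 6 - 1 = e + 5 := by omega
    rw [Real.exp_le_exp, e5, neg_le_neg_iff]
    have h1 : (L : ℝ) ^ (e + 5) / l ^ 5 ≤ b * Λ := by
      rw [div_le_iff₀ (by positivity)]
      refine (pow_le_pow_left₀ (by positivity) Lb _).trans ?_
      rw [mul_pow, mul_pow, Re, pow_add l e 5]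
      have h2 : b ^ (e + 5) ≤ b := pow_le_of_le_one b0.le b1 (by omega)
      have h3 : Λ / l ^ e * (l ^ e * l ^ 5) = Λ * l ^ 5 := by field_simp
      rw [mul_assoc, h3, mul_assoc]
      gcongr
    have h4 := mul_le_mul_of_nonneg_left h1 C0.le
    have h5 := mul_le_mul_of_nonneg_right b2 x0.le
    rw [hΛ] at h4
    linarith
  generalize hL' : ⌈L + C₁ * l * Real.log (L + 2)⌉₊ = L' at iso
  have Lc : (L' : ℝ) ≤ (2 + 2 * C₁) * Λ ^ 3 := by
    have h0 : (0 : ℝ) ≤ L := by positivity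
    have h1 : (L : ℝ) ≤ Λ ^ 2 := by
      refine Lb.trans (le_trans (b := 1 * Λ * Λ) (by gcongr) (le_of_eq (by ring)))
    have h2 : Real.log (L + 2) ≤ L + 2 - 1 := Real.log_le_sub_one_of_pos (by positivity)
    have h3 : 0 ≤ Real.log (L + 2) := Real.log_nonneg (by linarith)
    have h4 := Nat.ceil_lt_add_one (a := L + C₁ * l * Real.log (L + 2)) (by positivity)
    have h5 : 1 ≤ Λ ^ 2 := one_le_pow₀ Λ1
    have h6 : C₁ * l * Real.log (L + 2) ≤ C₁ * Λ * (2 * Λ ^ 2) := by gcongr; linarith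
    have h7 : Λ ^ 2 ≤ Λ ^ 3 := pow_le_pow_right₀ Λ1 (by omega)
    rw [hL'] at h4
    nlinarith
  have T := many (x := Real.log n) (D := D) (C := C₁) (T := Real.log (2 / η)) (n := n)
    (s := (2 * L' + 2) * 2) x0 (Real.exp_log n0).symm D0 (by omega)
    (by
      have h5 : 1 ≤ Λ ^ 3 := one_le_pow₀ Λ1
      have h6 : D * Real.log n ^ 3 = 2 * (6 + 4 * C₁) * Λ ^ 3 := by rw [hD, hΛ]; ring
      rw [h6]
      push_cast
      nlinarith)
    (le_of_mul_le_mul_left (by linarith) dp)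
  have two := hc (e + 6) n (by omega) _ _ _ L' (n / ((2 * L' + 2) * 2)) (by positivity) q1
    (by positivity) (by rw [← mul_assoc]; exact Nat.mul_div_le _ _) (ρ.trans iso)
  refine le_trans (le_trans ?_ two) (LOW.pTwo_anti _ _ (by positivity) q1 ?_)
  · have h1 := Real.exp_le_exp.2 (neg_le_neg T)
    rw [Real.exp_neg (Real.log _), Real.exp_log (by positivity), inv_div] at h1
    linarith
  · have h1 : (b / K / 2 * R) ^ (e + 6) ≤ (m : ℝ) ^ (e + 6) := pow_le_pow_left₀ (by positivity) m3 _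
    have h2 : l ^ 4 * Λ * R = R ^ (e + 6) * l ^ (e + 4) := by
      rw [pow_succ R (e + 5), Re, pow_add l e 4]; field_simp
    rw [h2, ← mul_assoc, mul_assoc c₁, ← mul_pow]
    gcongr

end Pool.Agent.TPC.S7
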