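import Pool.Agent.Lib.TP7.Blue
import Pool.Agent.Lib.TPC.B_PSI_LAY

/-! Pioneers of half spaces and masses of layers. -/

open Finset

namespace Pool.Agent.TPC.S7

open PSI

theorem st_PSI (hZ : St_Z5) : St_PSI := by
  intro d p c C H
  obtain ⟨Φ, hΦ⟩ := hZ d p c C H
  refine ⟨max 1 Φ, le_max_left _ _, fun q h0 hq S F i h x hS hF => ?_⟩
  have hq1 := hq.trans H.p1.le
  have key : ∀ (S F : Finset (Zd d)) (x : Zd d), (∀ y ∈ S, y i ≤ h) → (∀ y ∈ F, y i = h) →
      ∑ y ∈ F, tz q S x y ≤ max 1 Φ := fun S F x hS hF => by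
    obtain ⟨R, hR⟩ := exists_box S (ev i h)
    have h1 : S ⊆ box (ev i (h - R)) R := fun y hy => mem_box'.2 fun j => by
      have h2 := mem_box'.1 (hR hy) j
      have h3 := hS y hy
      by_cases hj : j = i
      · subst hj
        simp only [Pi.single_eq_same] at h2 ⊢
        omega
      · simpa only [Pi.single_eq_of_ne hj] using h2
    refine le_trans ?_ ((hΦ (ev i (h - R)) R i x).trans (le_max_right _ _))
    rw [← sum_filter_of_ne (p := fun y => y ∈ S) fun y _ hne => by
      by_contra hn
      exact hne (tz_of_notMem' hn)]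
    refine (sum_le_sum fun y _ => (tz_mono_p h0 hq H.p1.le).trans
      (tz_mono_dom H.p0.le H.p1.le h1)).trans (sum_le_sum_of_subset_of_nonneg (fun y hy => ?_)
        fun _ _ _ => tz_nonneg H.p0.le H.p1.le)
    exact mem_flt.2 ⟨h1 (mem_filter.1 hy).2, by simp [hF y (mem_filter.1 hy).1]⟩
  rcases hS with hS | hS
  · exact key S F x hS hF
  · have hA := aut_refl i (2 * h)
    have h1 := key (S.image (refl i (2 * h))) (F.image (refl i (2 * h))) (refl i (2 * h) x)
      (fun y hy => ?_) fun y hy => ?_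
    · simpa only [hA.sum_image, hA.tz_eq] using h1
    · obtain ⟨z, hz, rfl⟩ := mem_image.1 hy
      have := hS z hz
      rw [refl_same]
      omega
    · obtain ⟨z, hz, rfl⟩ := mem_image.1 hy
      have := hF z hz
      rw [refl_same]
      omega

end Pool.Agent.TPC.S7
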