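import Pool.Agent.Lib.TP7.Blue
import Pool.Agent.Lib.TPC.BlueF2

/-! Block SETC: the axioms of the core hold on the torus. -/

open Finset

namespace Pool.Agent.TPC.S7

open Pool.Agent.Lib.MP_81a99a_pr (lattice torus)

theorem st_SETC (hT1 : St_T1) (hTK : St_TK1) : St_SETC := by
  intro d p c C hz C₀
  obtain ⟨C1, c₁, l1, hC1, -, H1⟩ := hT1 d p c C hz
  obtain ⟨C', hC', H2⟩ := hTK d (by linarith [hz.hd]) C₀
  have hp0 := hz.p0
  have hp1 := hz.p1
  set A := max C1 1 with hA
  have hA1 : 1 ≤ A := le_max_right _ _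
  have hA2 : C1 ≤ A := le_max_left _ _
  have hA0 : 0 < A := by linarith
  have hA3 : A ≤ A ^ 3 := le_self_pow₀ hA1 (by norm_num)
  refine ⟨A, A ^ 3 * C', min (p / 2) (1 - p), max (max l1 1) (2 / p), hA1,
    lt_min (by linarith) (by linarith), fun K hΔ hK hα n _ l N hn hl hN hc => ?_⟩
  have hl1 : l1 ≤ l := (le_max_left _ _).trans ((le_max_left _ _).trans hl)
  have hl2 : 1 ≤ l := (le_max_right _ _).trans ((le_max_left _ _).trans hl)
  have hl3 : 2 / p ≤ l := (le_max_right _ _).trans hl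
  have hl4 : 1 / l ^ 2 ≤ p / 2 := by
    rw [div_le_iff₀ hp0] at hl3
    rw [div_le_iff₀ (by positivity)]
    nlinarith
  have hl5 : 0 ≤ 1 / l ^ 2 := by positivity
  obtain ⟨k1, k2, k3, k4, k5⟩ := H2 n l hl2 hc
  have hg : ∀ x y : Tor d n, 0 ≤ tg l x y := fun x y =>
    add_nonneg (kk_nonneg _ (norm_nonneg _)) (by positivity)
  have e1 : A * C' ≤ K.C := (mul_le_mul_of_nonneg_right hA3 (by linarith)).trans hK
  have e2 : C' ≤ K.C := (le_mul_of_one_le_left (by linarith) hA1).trans e1
  have e3 : C1 ≤ K.C := hA2.trans ((le_mul_of_one_le_right hA0.le hC').trans e1)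
  have a1 := hα.trans (min_le_left _ _)
  have a2 := hα.trans (min_le_right _ _)
  refine ⟨{
    G := torus d n
    g := fun x y => A * tg l x y
    p := p - 1 / l ^ 2
    l := l
    N := N
    deg := fun v S h => (degLe_torus d n v S h).trans hΔ
    p0 := by linarith
    p1 := by linarith
    l1 := hl2
    N1 := hN
    tau_le := fun x y => ((H1 n hn l hl1 x).1 y).trans (mul_le_mul_of_nonneg_right hA2 (hg x y))
    symm := fun x y => by simp only [tg, td_comm x y]
    bdd := fun x y => (mul_le_mul_of_nonneg_left (k1 x y) hA0.le).trans e1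
    nbr := fun x x' y h => ?_
    k3 := fun v u a => ?_
    maxp := fun S M hM h u => ?_
    chi_le := fun x => (H1 n hn l hl1 x).2.1.trans (mul_le_mul_of_nonneg_right e3 (sq_nonneg l))
    tri := fun v => ?_
    d2 := fun x s hs => ((H1 n hn l hl1 x).2.2.1 s hs).trans
      (mul_le_mul_of_nonneg_right e3 (Real.sqrt_nonneg s)) }, ⟨rfl, rfl, rfl, rfl⟩,
    fun _ _ => rfl⟩
  · calc A * tg l x' y ≤ A * (C' * tg l x y) := mul_le_mul_of_nonneg_left (k2 x x' y h) hA0.le
      _ = C' * (A * tg l x y) := by ring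
      _ ≤ _ := mul_le_mul_of_nonneg_right e2 (mul_nonneg hA0.le (hg x y))
  · calc A * tg l v u * (A * tg l u a) = A ^ 2 * (tg l v u * tg l u a) := by ring
      _ ≤ A ^ 2 * (C' * tg l v a * (tg l v u + tg l u a)) :=
          mul_le_mul_of_nonneg_left (k3 v u a) (sq_nonneg A)
      _ = C' * (A * tg l v a * (A * tg l v u + A * tg l u a)) := by ring
      _ ≤ K.C * (A * tg l v a * (A * tg l v u + A * tg l u a)) :=
          mul_le_mul_of_nonneg_right e2 (mul_nonneg (mul_nonneg hA0.le (hg _ _))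
            (add_nonneg (mul_nonneg hA0.le (hg _ _)) (mul_nonneg hA0.le (hg _ _))))
      _ = _ := by ring
  · have := k4 S (M / A) (div_nonneg hM hA0.le) (fun a ha => by
      rw [le_div_iff₀' hA0, mul_sum]; exact h a ha) u
    rw [← mul_sum]
    calc A * ∑ b ∈ S, tg l u b ≤ A * (C' * (M / A)) := mul_le_mul_of_nonneg_left this hA0.le
      _ = C' * M := by field_simp
      _ ≤ _ := mul_le_mul_of_nonneg_right e2 hM
  · calc ∑ y, ∑ u, A * tg l v y * (A * tg l v u) * (A * tg l y u)
        = A ^ 3 * ∑ y, ∑ u, tg l v y * tg l v u * tg l y u := by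
          rw [mul_sum]
          refine sum_congr rfl fun y _ => ?_
          rw [mul_sum]
          exact sum_congr rfl fun u _ => by ring
      _ ≤ A ^ 3 * C' := mul_le_mul_of_nonneg_left (k5 v) (pow_pos hA0 3).le
      _ ≤ _ := hK

end Pool.Agent.TPC.S7
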