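import Pool.Agent.Lib.TP7.Blue
import Pool.Agent.Lib.TPC.BlueF2

/-! Block SETI: small tori carry a one-block system. -/

open Finset

namespace Pool.Agent.TPC.S7

theorem st_SETI (hC : St_SETC) (hS : St_SETS) (hT : St_T2) : St_SETI := by
  intro d p c C h C₀
  have d9 := h.hd
  obtain ⟨C₁, Cc, α, l₀, C1, α0, H1⟩ := hC d p c C h C₀
  obtain ⟨Cc', Cs, H2⟩ := hS d (by omega) C₀ C₁ C1
  obtain ⟨c₁, L₁, c0, H3⟩ := hT d p c C h C₀
  obtain ⟨K, k1, k2, k3, k4, k5, k6, k7⟩ : ∃ K : Kc, K.Δ = 2 * d ∧ Cc ≤ K.C ∧ Cc' ≤ K.C ∧ K.α = α ∧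
      (∀ η, Cs η ≤ K.Cs η) ∧ K.c ≤ c₁ ∧ K.Ξ = 1 :=
    ⟨⟨2 * d, 1, max 1 (max Cc Cc'), min 1 c₁, α, fun η => max 1 (Cs η), by omega, le_rfl,
      le_max_left _ _, lt_min one_pos c0, min_le_left _ _, α0, fun _ => le_max_left _ _⟩, rfl,
      le_max_of_le_right (le_max_left _ _), le_max_of_le_right (le_max_right _ _), rfl,
      fun _ => le_max_right _ _, min_le_right _ _, rfl⟩
  refine ⟨K, max (3 ^ d) (max l₀ L₁), fun n _ l hl hn hV => ?_⟩
  have a1 : (3 : ℝ) ^ d ≤ max (3 ^ d) (max l₀ L₁) := le_max_left _ _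
  have a2 : l₀ ≤ max (3 ^ d) (max l₀ L₁) := le_max_of_le_right (le_max_left _ _)
  have a3 : L₁ ≤ max (3 ^ d) (max l₀ L₁) := le_max_of_le_right (le_max_right _ _)
  have t1 : (1 : ℝ) ≤ 3 ^ d := one_le_pow₀ (by norm_num)
  have l1 : 1 ≤ l := t1.trans (a1.trans hl)
  have l6 : 1 ≤ l ^ 6 := one_le_pow₀ l1
  have V1 : l ^ 6 ≤ (n : ℝ) ^ d := by nlinarith
  have n3 : 3 ≤ n := by
    have : (3 : ℝ) ^ d ≤ (n : ℝ) ^ d := by nlinarith
    exact_mod_cast le_of_pow_le_pow_left₀ (by omega) (Nat.cast_nonneg n) this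
  obtain ⟨M, hM, hG⟩ := H1 K k1.ge k2 k4.le n l ((n : ℝ) ^ d / l ^ 6) n3 (a2.trans hl)
    ((one_le_div (by positivity)).2 V1) (Or.inl ⟨hn, V1⟩)
  refine ⟨M, hM, ?_⟩
  obtain ⟨m1, m2, m3, m4⟩ := hM
  have sm : M.Small univ := H2 K k3 k5 n M univ hG (Or.inl (by rw [m3, m4]; exact ⟨hn, rfl⟩))
  have n0 : (0 : ℝ) < (n : ℝ) ^ d := by linarith
  have vol : M.Vol = (n : ℝ) ^ d := by rw [Core.Vol, m3, m4]; field_simp
  have lb : M.LB univ univ := ⟨subset_rfl, fun x _ y _ => by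
    have e : M.f0 = l ^ 2 / (n : ℝ) ^ d := by rw [eq_div_iff n0.ne', ← vol, M.f0_mul_Vol, m3]
    rw [e, Core.tb, m1, m2]
    exact (mul_le_mul_of_nonneg_right k6 (by positivity)).trans
      (H3 n n3 l (a3.trans hl) hn (le_trans (by gcongr) hV) x y)⟩
  have u : ∀ S : Finset Unit, S.card ≤ K.Ξ := fun S => by simpa [k7] using card_le_univ S
  exact ⟨{
    blk := fun _ => ()
    U2 := fun _ => univ
    U3 := fun _ => univ
    U4 := fun _ => univ
    mem2 := fun _ _ => mem_univ _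
    s234 := fun _ _ _ _ => ⟨subset_rfl, subset_rfl⟩
    ovl := fun _ S _ => u S
    sm := fun _ => sm
    kd := fun η ρ η0 ρ0 F hF hb z => by
      have h1 := sm.r1 η η0 z F hF
      have h2 : (F.card : ℝ) ≤ ρ * M.Vol :=
        le_trans (Nat.cast_le.2 (card_le_card fun y hy => mem_flt.2 ⟨hy, rfl⟩)) (hb ())
      have h3 := mul_le_mul_of_nonneg_left h2
        (mul_nonneg (zero_le_one.trans (K.hCs η)) M.f0_pos.le)
      refine (sum_le_sum fun y _ => M.tb_le _ z y).trans (h1.trans ?_)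
      rw [← M.f0_mul_Vol] at h1 ⊢
      linarith
    K0 := fun _ => univ
    U1 := fun _ => univ
    K2 := fun _ => univ
    nb := fun _ => univ
    col := fun _ => ⟨0, K.hΞ⟩
    lb1 := fun _ => lb
    in0 := fun _ => ⟨by
        rw [vol, card_univ, card_Tor, Nat.cast_pow]
        exact mul_le_of_le_one_left n0.le K.hc1,
      fun γ γ0 _ => ⟨univ, subset_rfl, by simpa using (mul_pos γ0 M.Vol_pos).le,
        fun _ _ v hv => absurd (mem_univ v) hv, fun _ _ v _ => mem_univ v⟩⟩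
    s12 := fun _ => subset_rfl
    lb2 := fun _ => lb
    memK := fun _ => mem_univ _
    nb4 := fun _ _ _ => mem_univ _
    nbc := fun _ => u _
    nbc' := fun _ S _ => u S
    colD := fun _ _ h => absurd rfl h }⟩

end Pool.Agent.TPC.S7
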