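import Pool.Agent.Lib.TP7.Blue
import Pool.Agent.Lib.TPC.BlueF2

/-! Block SETL: connections inside balls of the torus. -/

open Finset

namespace Pool.Agent.TPC.S7

theorem st_SETL (hZ : St_Z8) : St_SETL := by
  intro d p c C h R R1
  obtain ⟨R₂, c₁, l₀, hR, c0, H⟩ := hZ d p c C h (2 * R)
  obtain ⟨k, rfl⟩ : ∃ k, d = k + 2 := ⟨d - 2, by have := h.hd; omega⟩
  refine ⟨R + R₂, c₁ / (3 * R) ^ k, max l₀ 1, by linarith, by positivity,
    fun n _ l hl hn x y hy z hz => ?_⟩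
  have l1 := (le_max_right _ _).trans hl
  have r1 : 1 ≤ R * l := one_le_mul_of_one_le_of_one_le R1 l1
  have r2 : R * l ≤ (R + R₂) * l := by nlinarith
  have r0 : 0 ≤ (R + R₂) * l := by linarith
  obtain ⟨x, rfl⟩ := proj_surj x
  obtain ⟨y, rfl, ey⟩ := exists_lift x y
  obtain ⟨z, rfl, ez⟩ := exists_lift x z
  rw [mem_tball, ← ey] at hy
  rw [mem_tball, ← ez] at hz
  have e : tball (proj n x) ((R + R₂) * l) = tball (proj n x) (⌊(R + R₂) * l⌋₊ : ℕ) := by
    ext w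
    obtain ⟨j, hj⟩ := td_nat (proj n x) w
    rw [mem_tball, mem_tball, hj, Nat.cast_le, Nat.le_floor_iff r0]
  have yz : zd y z ≤ 2 * R * l := by linarith [zd_tri y x z, zd_comm y x]
  rw [e, tt_ball _ x (by
      have := Nat.floor_le r0
      exact_mod_cast (by linarith : (2 * ⌊(R + R₂) * l⌋₊ + 2 : ℝ) ≤ n))
    ((mem_box_floor r0).2 (hy.trans r2)) ((mem_box_floor r0).2 (hz.trans r2))]
  refine le_trans ?_ (H l ((le_max_left _ _).trans hl) y z yz _ fun w hw =>
    (mem_box_floor r0).2 (by linarith [zd_tri x y w]))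
  have z0 := zd_nonneg y z
  rw [show ((k + 2 : ℕ) : ℝ) - 2 = k by push_cast; ring, kk_nat k z0]
  calc _ = c₁ * (1 / (3 * R * l) ^ k) := by rw [mul_pow _ l, pow_add]; field_simp
    _ ≤ _ := by gcongr; linarith

end Pool.Agent.TPC.S7
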