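import Pool.Agent.Lib.TP7.Blue
import Pool.Agent.Lib.TPC.B_T2

/-! Block T2: the sum over the lifts and the plateau lower bound. -/

open Finset

namespace Pool.Agent.TPC.S7

open Pool.Agent.Lib.MP_81a99a_pr (lattice torus)

open T2B in
theorem st_T2m (h8 : St_Z8) : St_T2m := by
  intro d p c C H C₀
  have hd := H.hd
  obtain ⟨R', c₁, l₀, hR, hc₁, H8⟩ := h8 d p c C H (1 + 2 * |C₀|)
  set R := 1 + 2 * |C₀| with hRdef
  have hR1 : 1 ≤ R := by have := abs_nonneg C₀; linarith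
  have hK : 1 ≤ (R + 1) ^ (d - 2) := one_le_pow₀ (by linarith)
  refine ⟨c₁ / (R + 1) ^ (d - 2) / 2, max (max l₀ 1) (1 / p), by positivity, ?_⟩
  intro n _ l hl hn x y
  have hl0 : l₀ ≤ l := (le_max_left _ _).trans ((le_max_left _ _).trans hl)
  have hl1 : 1 ≤ l := (le_max_right _ _).trans ((le_max_left _ _).trans hl)
  have hn0 : (0 : ℝ) < n := by exact_mod_cast NeZero.pos n
  obtain ⟨y0, hy0, hd0⟩ := exists_lift x y
  set t := ⌈l / n⌉₊ with ht
  have ht1 : l / n ≤ t := Nat.le_ceil _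
  have ht2 : (t : ℝ) < l / n + 1 := Nat.ceil_lt_add_one (by positivity)
  have ht3 : (n : ℝ) * t ≤ l + n := by
    have := mul_le_mul_of_nonneg_left ht2.le hn0.le
    rwa [mul_add, mul_div_cancel₀ _ hn0.ne', mul_one] at this
  have hn' : (n : ℝ) ≤ |C₀| * l := hn.trans (mul_le_mul_of_nonneg_right (le_abs_self _) (by linarith))
  set Y := (box (0 : Zd d) t).image fun k => y0 + (n : ℤ) • k with hY
  have hcard : Y.card = (2 * t + 1) ^ d := by
    rw [hY, card_image_of_injective, card_box]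
    intro a b e
    have e' : (n : ℤ) • a = (n : ℤ) • b := add_left_cancel e
    exact smul_right_injective _ (by exact_mod_cast NeZero.ne n) e'
  have hdist : ∀ v ∈ Y, zd x v ≤ R * l := by
    intro v hv
    obtain ⟨k, hk, rfl⟩ := mem_image.1 hv
    have h1 := zd_smul y0 k n t hk
    have h2 := zd_tri x y0 (y0 + (n : ℤ) • k)
    have h3 := td_le_half (proj n x) y
    push_cast at h1
    rw [hRdef]
    nlinarith
  have hlow : ∀ v ∈ Y, c₁ * kk (d - 2) (zd x v) ≤ tz (p - 1 / l ^ 2) (box x ⌈R' * l⌉₊) x v :=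
    fun v hv => H8 l hl0 x v (hdist v hv) _ fun z hz => mem_box.2 (hz.trans (Nat.le_ceil _))
  have hd2 : (0 : ℝ) ≤ d - 2 := by
    have : (7 : ℝ) ≤ d := by exact_mod_cast hd
    linarith
  refine ⟨box x ⌈R' * l⌉₊, Y, ?_, le_trans ?_ (sum_le_sum hlow)⟩
  · intro v hv
    obtain ⟨k, -, rfl⟩ := mem_image.1 hv
    rw [proj_add, proj_smul, add_zero, hy0]
  have hA : c₁ * kk (d - 2) (td (proj n x) y) ≤ ∑ v ∈ Y, c₁ * kk (d - 2) (zd x v) := by
    rw [← hd0]
    exact single_le_sum (f := fun v => c₁ * kk (d - 2) (zd x v))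
      (fun v _ => mul_nonneg hc₁.le (kk_nonneg _ (zd_nonneg _ _)))
      (mem_image.2 ⟨0, self_mem_box _ _, by simp⟩)
  have hB : c₁ / (R + 1) ^ (d - 2) * (l ^ 2 / (n : ℝ) ^ d) ≤ ∑ v ∈ Y, c₁ * kk (d - 2) (zd x v) := by
    have h1 : ∀ v ∈ Y, c₁ * (1 / ((R + 1) * l) ^ (d - 2)) ≤ c₁ * kk (d - 2) (zd x v) := by
      intro v hv
      refine mul_le_mul_of_nonneg_left (le_trans ?_ (kk_anti hd2 (zd_nonneg _ _) (hdist v hv))) hc₁.le
      have e : (d : ℝ) - 2 = ((d - 2 : ℕ) : ℝ) := by rw [Nat.cast_sub (by omega)]; norm_num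
      rw [e, kk_nat _ (by positivity)]
      refine one_div_le_one_div_of_le (by positivity) (pow_le_pow_left₀ (by positivity) ?_ _)
      linarith
    have h2 := card_nsmul_le_sum Y _ _ h1
    refine le_trans ?_ h2
    rw [nsmul_eq_mul, hcard]
    have h3 : (l / n) ^ d ≤ (((2 * t + 1) ^ d : ℕ) : ℝ) := by
      push_cast
      refine pow_le_pow_left₀ (by positivity) ?_ _
      have : (0 : ℝ) ≤ t := by positivity
      linarith
    refine le_trans (le_of_eq ?_) (mul_le_mul_of_nonneg_right h3 (by positivity))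
    obtain ⟨e, rfl⟩ : ∃ e, d = e + 2 := ⟨d - 2, by omega⟩
    simp only [Nat.add_sub_cancel, div_pow, mul_pow]
    field_simp
    ring
  have hC : c₁ / (R + 1) ^ (d - 2) * kk (d - 2) (td (proj n x) y) ≤
      c₁ * kk (d - 2) (td (proj n x) y) :=
    mul_le_mul_of_nonneg_right (div_le_self hc₁.le hK) (kk_nonneg _ (td_nonneg _ _))
  unfold tg
  linarith

open T2B in
theorem st_T2 (ha : St_T2a) (hb : St_T2b) (hc : St_T2c) (he : St_T2e) (hm : St_T2m)
    (h7 : St_Z7a) : St_T2 := by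
  intro d p c C H C₀
  have hd := H.hd
  obtain ⟨c₁, l₁, hc₁, Hm⟩ := hm d p c C H C₀
  obtain ⟨C₂, c₂, l₂, hC₂, hc₂, H7⟩ := h7 d p c C H
  obtain ⟨C₃, hC₃, He⟩ := he d c₂ C₀ (by omega) hc₂
  obtain ⟨L₀, hL₀, Hc⟩ := hc d C₀ (c₁ / (2 * (C₂ ^ 4 * C₃))) hd (by positivity)
  refine ⟨c₁ / 2, max (max L₀ l₁) (max l₂ (1 / p)), by positivity, ?_⟩
  intro n _ hn3 l hl hn hV x y
  have hL : L₀ ≤ max (max L₀ l₁) (max l₂ (1 / p)) := (le_max_left _ _).trans (le_max_left _ _)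
  have hl0 : L₀ ≤ l := hL.trans hl
  have hl1 : l₁ ≤ l := ((le_max_right _ _).trans (le_max_left _ _)).trans hl
  have hl2 : l₂ ≤ l := ((le_max_left _ _).trans (le_max_right _ _)).trans hl
  have hl3 : 1 / p ≤ l := ((le_max_right _ _).trans (le_max_right _ _)).trans hl
  have h1l : 1 ≤ l := hL₀.trans hl0
  have q0 : 0 ≤ p - 1 / l ^ 2 := level H.p0 h1l hl3
  have q1 : p - 1 / l ^ 2 ≤ 1 := by
    have := H.p1
    have : 0 ≤ 1 / l ^ 2 := by positivity
    linarith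
  set q := p - 1 / l ^ 2 with hq
  have hπ : Prob (fun _ : Sym2 (Zd d) => q) := Prob.const q0 q1
  obtain ⟨x, rfl⟩ := proj_surj x
  obtain ⟨D, Y, hY, hsum⟩ := Hm n l hl1 hn x y
  have A := ha d n hn3 q q0 q1 D x y
  have A1 : ∑ v ∈ Y, PE (edges (lattice d) D) (fun _ => q) (fun ω =>
      ind (conn (lattice d) (lone (Twin n) (cl (lattice d) D ω x)) ω x v)) ≤
        tt q univ (proj n x) y := by
    rw [← PE_sum]
    refine le_trans (PE_mono hπ fun ω => sum_ind_le Y _ _ (fun v hv h => ⟨v, hY v hv, h⟩)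
      fun v hv w hw h1 h2 => ?_) A
    by_contra hne
    have m1 := mem_flt.1 h1.right
    have m2 := mem_flt.1 h2.right
    exact m1.2 w m2.1 ⟨by rw [hY v hv, hY w hw], fun e => hne e.symm⟩
  have G : ∀ a b, tau (lattice d) (fun _ => q) D a b ≤ C₂ * ge c₂ l a b := fun a b => by
    have := H7 l hl2 D a b
    rw [mul_assoc] at this
    exact this
  have G0 : ∀ a b, 0 ≤ tau (lattice d) (fun _ => q) D a b := fun a b => tau_nonneg hπ
  have G4 : ∀ a1 b1 a2 b2 a3 b3 a4 b4, tau (lattice d) (fun _ => q) D a1 b1 *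
      tau (lattice d) (fun _ => q) D a2 b2 * tau (lattice d) (fun _ => q) D a3 b3 *
      tau (lattice d) (fun _ => q) D a4 b4 ≤
      C₂ ^ 4 * (ge c₂ l a1 b1 * ge c₂ l a2 b2 * ge c₂ l a3 b3 * ge c₂ l a4 b4) := by
    intro a1 b1 a2 b2 a3 b3 a4 b4
    have g := fun a b => (G0 a b).trans (G a b)
    calc _ ≤ C₂ * ge c₂ l a1 b1 * (C₂ * ge c₂ l a2 b2) * (C₂ * ge c₂ l a3 b3) *
          (C₂ * ge c₂ l a4 b4) :=
          mul_le_mul (mul_le_mul (mul_le_mul (G _ _) (G _ _) (G0 _ _) (g _ _)) (G _ _) (G0 _ _)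
            (mul_nonneg (g _ _) (g _ _))) (G _ _) (G0 _ _)
            (mul_nonneg (mul_nonneg (g _ _) (g _ _)) (g _ _))
      _ = _ := by ring
  have A2 : ∀ v ∈ Y, tz q D x v ≤ PE (edges (lattice d) D) (fun _ => q) (fun ω =>
      ind (conn (lattice d) (lone (Twin n) (cl (lattice d) D ω x)) ω x v)) +
      C₂ ^ 4 * ∑ u ∈ D, ∑ a ∈ D, ∑ w ∈ D, ind (Twin n a w) *
        (ge c₂ l x u * ge c₂ l u a * ge c₂ l a v * ge c₂ l u w +
          ge c₂ l x a * ge c₂ l a u * ge c₂ l u v * ge c₂ l u w) := by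
    intro v _
    have B := hb (Zd d) (lattice d) (fun _ => q) hπ D x v (Twin n)
    have B1 : tz q D x v ≤ PE (edges (lattice d) D) (fun _ => q) (fun ω =>
        ind (conn (lattice d) (lone (Twin n) (cl (lattice d) D ω x)) ω x v)) +
        PE (edges (lattice d) D) (fun _ => q) (fun ω => ind (conn (lattice d) D ω x v ∧
          ¬ conn (lattice d) (lone (Twin n) (cl (lattice d) D ω x)) ω x v)) := by
      refine le_trans (PE_ind_mono hπ fun ω h => ?_) (PE_ind_or hπ _ _)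
      by_cases h2 : conn (lattice d) (lone (Twin n) (cl (lattice d) D ω x)) ω x v
      · exact Or.inl h2
      · exact Or.inr ⟨h, h2⟩
    refine B1.trans (add_le_add le_rfl (B.trans ?_))
    simp only [mul_sum]
    refine sum_le_sum fun u _ => sum_le_sum fun a _ => sum_le_sum fun w _ => ?_
    rw [mul_left_comm, mul_add (C₂ ^ 4)]
    exact mul_le_mul_of_nonneg_left (add_le_add (G4 _ _ _ _ _ _ _ _) (G4 _ _ _ _ _ _ _ _))
      (ind_nonneg _)
  have A3 := sum_le_sum A2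
  rw [sum_add_distrib, ← mul_sum] at A3
  have E1 := He n l h1l hn x y D Y hY
  have hV' : L₀ * l ^ 6 ≤ (n : ℝ) ^ d :=
    (mul_le_mul_of_nonneg_right hL (by positivity)).trans hV
  have E2 := Hc n l hl0 hn hV' (proj n x) y
  have E3 := mul_le_mul_of_nonneg_left
    (E1.trans (mul_le_mul_of_nonneg_left E2 hC₃.le)) (pow_pos hC₂ 4).le
  have E4 : C₂ ^ 4 * (C₃ * (c₁ / (2 * (C₂ ^ 4 * C₃)) * tg l (proj n x) y)) =
      c₁ / 2 * tg l (proj n x) y := by field_simp
  rw [E4] at E3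
  have E5 : c₁ / 2 * (l ^ 2 / (n : ℝ) ^ d) ≤ c₁ / 2 * tg l (proj n x) y := by
    refine mul_le_mul_of_nonneg_left ?_ (by positivity)
    unfold tg
    have := kk_nonneg ((d : ℝ) - 2) (td_nonneg (proj n x) y)
    linarith
  linarith

end Pool.Agent.TPC.S7
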