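import Pool.Agent.Lib.TP7.Blue
import Pool.Agent.Lib.TPC.B_T3

/-! The mean-field hypothesis of the lower bound. -/

open Finset

namespace Pool.Agent.TPC.S7

open Pool.Agent.Lib.MP_81a99a_pr (lattice torus cluster kthLargest pc MeanField)

theorem st_T3 (hBC : St_BRC) (hBT : St_BRT) (hZ2 : St_Z2) (hT1 : St_T1) (hT2 : St_T2)
    (hE : St_ET2) (hD : St_DC2) : St_T3 := by
  intro d c C h
  have p0 := h.p0
  have hπ : ∀ {V : Type}, Prob (fun _ : V => (pc d : ℝ)) := fun {V} => by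
    classical exact Prob.const h.p0.le h.p1.le
  constructor
  · obtain ⟨C1, -, h1⟩ := hZ2 d _ c C h
    refine ⟨C1, fun k hk => hBC d _ k _ fun R => ?_⟩
    have k1 : (1 : ℝ) ≤ k := by exact_mod_cast hk
    have a1 := h1 _ h.p0.le le_rfl (box 0 R) 0 k k1
    have a2 : ez (pc d) (box (0 : Zd d) R) 0 (fun A => ind (k ≤ A.card)) ≤
        ez (pc d) (box (0 : Zd d) R) 0 (fun A => min (A.card : ℝ) k) / k := by
      unfold ez EC
      rw [← PE_div]
      refine PE_mono hπ fun ω => ind_le_of (by positivity) fun hh => ?_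
      simp only
      rw [min_eq_right (Nat.cast_le.2 hh), div_self (by positivity)]
    refine a2.trans ?_
    have s0 : 0 < √(k : ℝ) := Real.sqrt_pos.2 (by linarith)
    rw [div_le_div_iff₀ (by linarith) s0]
    have := mul_le_mul_of_nonneg_right a1 s0.le
    rwa [mul_assoc, Real.mul_self_sqrt (by linarith)] at this
  obtain ⟨C1, c1, l0, C0, -, h1⟩ := hT1 d _ c C h
  obtain ⟨c2, L0, c0, h2⟩ := hT2 d _ c C h 1
  obtain ⟨M, hM, hM1⟩ : ∃ M : ℝ, L0 ≤ M ∧ 1 ≤ M := ⟨max L0 1, le_max_left _ _, le_max_right _ _⟩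
  obtain ⟨a, ha⟩ : ∃ a : ℝ, a = c2 / (2 * C1) := ⟨_, rfl⟩
  have a0 : 0 < a := by rw [ha]; positivity
  obtain ⟨K, hK⟩ : ∃ K : ℝ, K = C1 / (c2 ^ 2 / (4 * C1 ^ 3)) ^ 2 := ⟨_, rfl⟩
  have K0 : 0 < K := by rw [hK]; positivity
  refine ⟨min (1 / (1 + K)) (a ^ 2 / M ^ 4), by positivity, ?_⟩
  have ev : ∀ x : ℝ, ∀ᶠ n : ℕ in Filter.atTop, x ≤ n := fun x =>
    tendsto_natCast_atTop_atTop.eventually_ge_atTop x
  filter_upwards [Filter.eventually_ge_atTop 3, ev (M ^ 6), ev l0, ev (1 / pc d), ev (1 / a)]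
    with n n3 n1 n2 n4 n5
  have : NeZero n := ⟨by omega⟩
  have n6 : (3 : ℝ) ≤ n := by exact_mod_cast n3
  obtain ⟨w, hw⟩ : ∃ w : ℝ, w = ((n : ℝ) ^ d) ^ (1 / 6 : ℝ) := ⟨_, rfl⟩
  have V0 : (0 : ℝ) < (n : ℝ) ^ d := by positivity
  have w0 : 0 < w := by rw [hw]; positivity
  have w6 : w ^ 6 = (n : ℝ) ^ d := by
    rw [hw, ← Real.rpow_natCast, ← Real.rpow_mul V0.le]; norm_num
  have w4 : ((n : ℝ) ^ d) ^ (2 / 3 : ℝ) = w ^ 4 := by
    rw [hw, ← Real.rpow_natCast _ 4, ← Real.rpow_mul V0.le]; norm_num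
  obtain ⟨l, hl⟩ : ∃ l : ℝ, l = w / M := ⟨_, rfl⟩
  have M6 : M ≤ M ^ 6 := le_self_pow₀ hM1 (by norm_num)
  have nl : (n : ℝ) ≤ l := by
    rw [hl, le_div_iff₀ (by linarith)]
    refine le_of_pow_le_pow_left₀ (n := 6) (by norm_num) w0.le ?_
    rw [w6, mul_pow]
    refine (mul_le_mul_of_nonneg_left n1 (by positivity)).trans ?_
    rw [← pow_succ]
    exact pow_le_pow_right₀ (by linarith) (by have := h.hd; omega)
  have l6 : M ^ 6 * l ^ 6 = (n : ℝ) ^ d := by rw [hl, ← w6]; field_simp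
  have l1 : 0 < l := by linarith
  have l2 : l ≤ l ^ 2 := le_self_pow₀ (by linarith) (by norm_num)
  have q0 : 0 ≤ (pc d : ℝ) - 1 / l ^ 2 := by
    rw [sub_nonneg, div_le_comm₀ (by positivity) p0]; linarith
  have q1 : (pc d : ℝ) - 1 / l ^ 2 ≤ pc d := sub_le_self _ (by positivity)
  have hq : Prob (fun _ : Sym2 (Tor d n) => (pc d : ℝ) - 1 / l ^ 2) :=
    Prob.const q0 (q1.trans h.p1.le)
  have b1 := h1 n n3 l (by linarith)
  have b2 := h2 n n3 l (by linarith) (by linarith) (by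
    rw [← l6]; exact mul_le_mul_of_nonneg_right (by linarith) (by positivity))
  have cV : ((univ : Finset (Tor d n)).card : ℝ) = (n : ℝ) ^ d := by
    rw [Finset.card_univ, card_Tor]; push_cast; rfl
  have s1 : 1 ≤ a * l ^ 2 := by
    rw [div_le_iff₀ a0] at n5
    nlinarith
  have b3 : ∀ x : Tor d n, c2 ^ 2 / (4 * C1 ^ 3) / l ^ 2 ≤
      EC (torus d n) (fun _ => (pc d : ℝ) - 1 / l ^ 2) univ x
        (fun A => ind ((a * l ^ 2) ^ 2 ≤ A.card)) := by
    intro x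
    have t1 := (b1 x).2.2.1 ((a * l ^ 2) ^ 2) (one_le_pow₀ s1)
    rw [Real.sqrt_sq (by positivity)] at t1
    have t2 := Finset.card_nsmul_le_sum univ (fun y => tt (pc d - 1 / l ^ 2) univ x y) _
      fun y _ => b2 x y
    rw [nsmul_eq_mul, cV] at t2
    have t3 := T3.tail hE hq (fun v => (b1 v).2.1) x (b := c2 * l ^ 2 / 2) (s := (a * l ^ 2) ^ 2)
      (by positivity) (by positivity) (le_trans (le_of_eq (by field_simp)) t2)
      (t1.trans (le_of_eq (by rw [ha]; field_simp)))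
    rw [← div_le_iff₀' (by positivity)] at t3
    exact le_trans (le_of_eq (by field_simp; norm_num)) t3
  have b4 := T3.big hD hq (s := (a * l ^ 2) ^ 2) fun v => (b1 v).2.1
  have b5 := Finset.card_nsmul_le_sum univ _ _ fun x _ => b3 x
  rw [nsmul_eq_mul, cV] at b5
  rw [cV] at b4
  generalize ∑ x, EC (torus d n) (fun _ => (pc d : ℝ) - 1 / l ^ 2) univ x
    (fun A => ind ((a * l ^ 2) ^ 2 ≤ A.card)) = m at b4 b5
  have m0 : 0 < m := lt_of_lt_of_le (by positivity) b5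
  have b6 : (n : ℝ) ^ d * (C1 * l ^ 2) ≤ K * m ^ 2 := by
    refine le_trans ?_ (mul_le_mul_of_nonneg_left (pow_le_pow_left₀ (by positivity) b5 2) K0.le)
    have e : K * ((n : ℝ) ^ d * (c2 ^ 2 / (4 * C1 ^ 3) / l ^ 2)) ^ 2 =
        (n : ℝ) ^ d * (C1 * l ^ 2) * M ^ 6 := by
      rw [hK, ← l6]; field_simp
    rw [e]
    exact le_mul_of_one_le_right (by positivity) (by linarith)
  have b7 := b4.trans (mul_le_mul_of_nonneg_right (add_le_add_left b6 _) (PE_ind_nonneg hq _))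
  rw [(hBT d n (pc d) _ (by positivity)).2, w4]
  refine (min_le_left _ _).trans ?_
  have b8 := PE_mono_prob (E := edges (torus d n) univ) hq hπ (fun _ _ => q1)
    (f := fun ω => ind (∃ x, (a * l ^ 2) ^ 2 ≤ (cl (torus d n) univ ω x).card))
    fun A B hAB => ind_mono fun ⟨x, hx⟩ =>
      ⟨x, hx.trans (Nat.cast_le.2 (Finset.card_le_card (cl_mono subset_rfl hAB)))⟩
  have b9 := PE_restrict (E := univ) (Finset.subset_univ _)
    (T3.dep_big (torus d n) univ ((a * l ^ 2) ^ 2)) (fun _ he _ => he) (π := fun _ => (pc d : ℝ))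
  refine le_trans (le_trans ?_ (b8.trans b9.ge))
    (PE_ind_mono hπ fun ω => ?_)
  swap
  · rintro ⟨x, hx⟩
    refine ⟨x, le_trans ?_ hx⟩
    refine (mul_le_mul_of_nonneg_right (min_le_right _ _) (by positivity)).trans (le_of_eq ?_)
    rw [hl]; field_simp
  · rw [div_le_iff₀ (by positivity)]
    refine le_of_mul_le_mul_left ?_ (pow_pos m0 2)
    linarith

end Pool.Agent.TPC.S7
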