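import Pool.Agent.Lib.TP7.Blue
import Pool.Agent.Lib.TPC.B_UI

/-! Upper bound on small tori. -/

open Finset Filter Topology

namespace Pool.Agent.TPC.S7

open Pool.Agent.Lib.MP_81a99a_pr (lattice torus)

theorem st_UI (hS : St_SETI) (hB : St_BADP) (hM : St_MAIN) (hL : St_LEV) (hG : St_GGC)
    (hU : St_UPA) : St_UI := by
  intro d p c C h C₀
  obtain ⟨K, LS, hs⟩ := hS d p c C h C₀
  obtain ⟨κ1, c1, lam, lB, k1, c10, c11, lam0, hb⟩ := hB K
  obtain ⟨κ, κ4, lL, k2, k14, k4, hl⟩ := hL p κ1 h.p0 h.p1 k1.le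
  obtain ⟨Cκ, hCκ, hm⟩ := hM K κ1 c1 κ4 k1.le c10 c11 (by linarith)
  obtain ⟨φ3, φ4, c', C', k0, lM, f3, f4, c0, C0, hm⟩ := hm 1 1 one_pos one_pos
  have A0 : 0 < 2 / c' := by positivity
  refine ⟨κ, 2 / c', k2, A0, fun η hη => ?_⟩
  obtain ⟨L, hL⟩ := UI.num (k := max 1 k0) (D := 2 * C' / η) lam0 A0
    (show 0 < Cκ * (2 / c') by positivity) hη
  refine ⟨max (max (max LS lB) (max lM lL)) (max L 1), ?_⟩
  intro n _ l a b e
  have l0 : 0 < l := lt_of_lt_of_le one_pos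
    (((le_max_right _ _).trans (le_max_right _ _)).trans a)
  have e' := (le_div_iff₀ (pow_pos l0 6)).2 e
  simp only [max_le_iff] at a e'
  obtain ⟨⟨⟨a1, a2⟩, a3, a4⟩, -, -⟩ := a
  obtain ⟨⟨⟨e1, e2⟩, e3, -⟩, e5, e6⟩ := e'
  obtain ⟨M, ⟨g1, g2, g3, g4⟩, ⟨S⟩⟩ := hs n l a1 b ((le_div_iff₀ (pow_pos l0 6)).1 e1)
  obtain ⟨q, q01, q0, q1, q2, q3, q4, q4', q5⟩ := hl l a4
  obtain ⟨n1, n2, n3, n4⟩ := hL _ e5
  rw [max_le_iff] at n2
  have eV : (n : ℝ) ^ d = M.N * l ^ 6 := by rw [g4]; field_simp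
  unfold sMF
  rw [← g4] at n1 n2 n3 n4 e2 e3 ⊢
  have N0 := M.N_pos
  have l4 : 0 < l ^ 4 := pow_pos l0 4
  obtain ⟨k, hk⟩ : ∃ k, k = 2 / c' * (l ^ 4 * Real.log M.N) := ⟨_, rfl⟩
  rw [← hk]
  have k3 : k = l ^ 4 * (2 / c' * Real.log M.N) := by rw [hk]; ring
  have kl : l ^ 4 ≤ k := by rw [k3]; exact le_mul_of_one_le_right l4.le n2.1
  have kp : 0 < k := l4.trans_le kl
  have L1 : M.Lv κ1 1 q := by
    refine ⟨by rw [q0, g2], q01, fun j h0 h1 => ?_⟩
    have : j = 1 := by omega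
    rw [this, q1, g3]
  have L4 : M.Lv κ4 4 q := by
    refine ⟨by rw [q0, g2], q01, fun j h0 _ => ?_⟩
    rw [g3]
    have i1 : κ1 / l ^ 2 ≤ κ4 / l ^ 2 := div_le_div_of_nonneg_right k14 (by positivity)
    have i2 : 1 / l ^ 2 ≤ κ4 / l ^ 2 := div_le_div_of_nonneg_right k4 (by positivity)
    have : j = 1 ∨ j = 2 ∨ j = 3 ∨ j = 4 := by omega
    rcases this with rfl | rfl | rfl | rfl <;> linarith
  have hg := fun ω => hG K _ M _ S c1 ω
  have m1 := hm _ M Unit S q L1 L4 (by rw [g3, q2]) (by rw [g3]; exact q4) (by rw [g3]; exact a3)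
    e3 (fun ω => flt univ (S.good c1 ω))
    (fun ω ω' hω => congrArg _ (funext fun b => (hg ω).1 b ω ω' fun e he => hω e he.2))
    (fun ω b hb => (hg ω).2.1 b (mem_flt.1 hb).2) k (by rw [g3]; exact kl)
    (Or.inr ⟨fun _ _ => rfl, by
      rw [g3, k3, mul_comm]; exact mul_le_mul_of_nonneg_left n2.2 l4.le⟩)
  have m2 := hb _ M Unit S q L1 (by rw [g3, q1]) (by rw [g3, q2]) (by rw [g3, q3])
    (by rw [g3]; exact a2) e2 univ
  have m3 := hU K _ M Unit S q q01 (fun ω => flt univ (S.good c1 ω)) c1 1 Cκ φ3 φ4 k _ _ kp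
    (le_trans (PE_ind_mono (prob_lev q01) ?_) m2) m1
  · rw [← q5, ← plev_four, pTwo_eq_PL, ← g1]
    refine m3.trans ?_
    have e1 : Real.exp (-(c' * k / l ^ 4)) = 1 / M.N ^ 2 := by
      rw [show c' * k / l ^ 4 = Real.log (M.N ^ 2) by
          rw [Real.log_pow, hk]; field_simp; push_cast; ring,
        Real.exp_neg, Real.exp_log (by positivity), one_div]
    rw [card_Tor, g3, e1, Finset.card_univ, Fintype.card_unit, Nat.cast_one, mul_one, Nat.cast_pow,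
      eV]
    have e2 : M.N * l ^ 6 * (C' / l ^ 2 * (1 / M.N ^ 2)) / k ≤ η / 2 := by
      rw [div_le_iff₀ kp]
      refine le_trans ?_ (mul_le_mul_of_nonneg_left kl (half_pos hη).le)
      rw [show M.N * l ^ 6 * (C' / l ^ 2 * (1 / M.N ^ 2)) = C' / M.N * l ^ 4 by field_simp]
      refine mul_le_mul_of_nonneg_right ?_ l4.le
      rw [div_le_iff₀ hη] at n4
      rw [div_le_iff₀ N0]
      linarith
    linarith
  · intro ω hω b _ hb
    have all : ∀ b', b' ∈ flt univ (S.good c1 ω) := fun b' => mem_flt.2 ⟨mem_univ _, hb⟩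
    rcases hω with hω | ⟨x, -, A, -, -, h3, h4⟩
    · exact hω fun b1 _ b2 _ y y' hy hy' => (hg ω).2.2 (fun _ _ => False) (fun _ _ => False.elim)
        b1 b2 hb Relation.ReflTransGen.refl univ (fun _ _ => subset_univ _) y y' hy hy'
    · have h5 : (A.card : ℝ) ≤ 1 * M.U := by
        refine h3.trans ?_
        unfold Core.U
        rw [g3, k3]
        nlinarith
      rcases h4 with h4 | h4
      · rw [Finset.eq_empty_of_forall_notMem (s := flt A _) fun y hy => (mem_flt.1 hy).2.not_ge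
          (le_trans (Nat.cast_le.2 (Finset.card_le_card (flt_subset _ _))) h5)] at h4
        simp only [Finset.card_empty, Nat.cast_zero] at h4
        exact h4.not_gt (mul_pos f4 kp)
      · rw [Finset.eq_empty_of_forall_notMem (s := flt _ (· ∉ flt univ (S.good c1 ω)))
          fun y hy => (mem_flt.1 hy).2 (all y)] at h4
        simp only [Finset.card_empty, Nat.cast_zero] at h4
        exact h4.not_gt (div_pos (mul_pos f3 kp) M.U_pos)

end Pool.Agent.TPC.S7
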