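import Pool.Agent.Lib.TP7.Blue
import Pool.Agent.Lib.TPC.B_UP

/-! Block UP: the three regimes give the upper bound on the second largest cluster. -/

namespace Pool.Agent.TPC.S7

open UP in
theorem st_UP (h1 : St_PK2) (h2 : St_UI) (h3 : St_UIIa) (h4 : St_UIIb) : St_UP := by
  intro d p c C hz
  obtain ⟨κ, C₀, R, c₁, lam, Cκ, θ, C₁, K, hκ, hC₀, -, hc₁, hlam, hCκ, hθ, hP⟩ := h1 d p c C hz
  obtain ⟨cs, A₁, hcs, hA₁, ha⟩ := h3 d hz.hd p κ C₀ R c₁ lam Cκ θ C₁ K hC₀ hc₁ hlam hCκ hP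
  obtain ⟨A₂, hA₂, hb⟩ := h4 d hz.hd p κ C₀ R c₁ lam Cκ θ C₁ K hC₀ hc₁ hlam hCκ hθ hP cs hcs
  obtain ⟨κ', A₃, hκ', hA₃, hi⟩ := h2 d p c C hz (C₀ * κ)
  have κ0 : 0 < κ := by linarith
  have κ0' : 0 < κ' := by linarith
  obtain ⟨r, hr, hrr⟩ : ∃ r : ℝ, 0 < r ∧ r ^ 2 = κ' / κ :=
    ⟨√(κ' / κ), Real.sqrt_pos.2 (by positivity), Real.sq_sqrt (by positivity)⟩
  have hκr : 1 ≤ κ * r := by
    have e : (κ * r) ^ 2 = κ * κ' := by rw [mul_pow, hrr]; field_simp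
    have : (1 : ℝ) ^ 2 ≤ (κ * r) ^ 2 := by rw [e]; nlinarith
    exact (pow_le_pow_iff_left₀ zero_le_one (by positivity) two_ne_zero).1 this
  refine ⟨κ, A₁ + A₂ + 2 * r ^ 4 * A₃, κ0, by positivity, fun η hη => ?_⟩
  obtain ⟨La, hLa⟩ := ha η hη
  obtain ⟨Lb, hLb⟩ := hb η hη
  obtain ⟨Li, hLi⟩ := hi η hη
  refine ⟨1 + |La| + |Lb| + |Li| / r + |Li| * r ^ 6 + κ / (1 - p) + Real.exp (6 * |Real.log r|),
    fun n _ l hl hV => ?_⟩
  have q0 : 0 < 1 - p := by linarith [hz.p1]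
  have t1 : 0 ≤ |La| := abs_nonneg _
  have t2 : 0 ≤ |Lb| := abs_nonneg _
  have t3 : 0 ≤ |Li| / r := by positivity
  have t4 : 0 ≤ |Li| * r ^ 6 := by positivity
  have t5 : 0 ≤ κ / (1 - p) := by positivity
  have t6 : 0 < Real.exp (6 * |Real.log r|) := Real.exp_pos _
  have l1 : 1 ≤ l := by linarith
  have l0 : 0 < l := by linarith
  have l6 : 0 < l ^ 6 := by positivity
  have hlog : 6 * |Real.log r| ≤ Real.log ((n : ℝ) ^ d / l ^ 6) := log_ge l0 hV (by linarith)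
  have V0 : 0 < (n : ℝ) ^ d := lt_of_lt_of_le (mul_pos (by linarith) l6) hV
  have m0 : 0 ≤ sMF l ((n : ℝ) ^ d) := by
    unfold sMF
    exact mul_nonneg (by positivity) (le_trans (by positivity) hlog)
  have mx : sMF l ((n : ℝ) ^ d) ≤ max (sMF l ((n : ℝ) ^ d)) (sDrop d l ((n : ℝ) ^ d)) :=
    le_max_left _ _
  have mx0 := m0.trans mx
  have hq0 : 0 ≤ p * (1 + κ / l ^ 2) := by have := hz.p0; positivity
  have hq1 : p * (1 + κ / l ^ 2) ≤ 1 := par_le hz.p0 hz.p1 κ0.le l1 (by linarith)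
  have r4 : 0 ≤ 2 * r ^ 4 * A₃ := by positivity
  rcases le_total (n : ℝ) (C₀ * l) with hn | hn
  · have e : κ' / (r * l) ^ 2 = κ / l ^ 2 := by rw [mul_pow, hrr]; field_simp
    have a1 : Li ≤ r * l := by
      have : |Li| / r ≤ l := by linarith
      rw [div_le_iff₀ hr] at this
      linarith [le_abs_self Li]
    have a2 : (n : ℝ) ≤ C₀ * κ * (r * l) := by
      have : C₀ * l * 1 ≤ C₀ * l * (κ * r) := mul_le_mul_of_nonneg_left hκr (by positivity)
      linarith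
    have a3 : Li * (r * l) ^ 6 ≤ (n : ℝ) ^ d := by
      refine le_trans ?_ hV
      rw [mul_pow, ← mul_assoc]
      refine mul_le_mul_of_nonneg_right ?_ l6.le
      have : Li * r ^ 6 ≤ |Li| * r ^ 6 := mul_le_mul_of_nonneg_right (le_abs_self _) (by positivity)
      linarith
    have key := hLi n (r * l) a1 a2 a3
    rw [e] at key
    refine le_trans (pTwo_anti hq0 hq1 ?_) key
    have s := mul_le_mul_of_nonneg_left (sMF_scale hr l0 V0 hlog) hA₃.le
    have s2 := mul_le_mul_of_nonneg_left mx r4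
    have s3 := mul_nonneg (add_pos hA₁ hA₂).le mx0
    linarith
  · rcases le_total (Real.log ((n : ℝ) ^ d)) (cs * l ^ (d - 6)) with hc | hc
    · refine le_trans (pTwo_anti hq0 hq1 ?_) (hLa n l (by linarith [le_abs_self La]) hn hc)
      have s2 := mul_le_mul_of_nonneg_left mx hA₁.le
      have s3 := mul_nonneg (add_nonneg hA₂.le r4) mx0
      linarith
    · refine le_trans (pTwo_anti hq0 hq1 ?_) (hLb n l (by linarith [le_abs_self Lb]) hn hc)
      have s3 := mul_nonneg (add_nonneg hA₁.le r4) mx0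
      linarith

end Pool.Agent.TPC.S7
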