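import Pool.Agent.Lib.TP7.Blue
import Pool.Agent.Lib.TPC.B_Y

/-! Block Y: exponential moment of the number of big points on the torus. -/

open Finset

namespace Pool.Agent.TPC.S7

open Pool.Agent.Lib.MP_81a99a_pr (lattice torus)

open Y in
theorem st_Y (hb : St_Yb) (hG : St_GRID) (hc : St_COL) : St_Y := by
  classical
  intro d p c C hZ κ R
  obtain ⟨κ₀, θ₀, C₁, hκ₀, hθ₀, hb⟩ := hb d p c C hZ
  have hκ1 : (0 : ℝ) < max κ 1 := lt_of_lt_of_le one_pos (le_max_right _ _)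
  obtain ⟨a, ha0, ha1, ha2⟩ : ∃ a : ℝ, 0 < a ∧ a ≤ 1 ∧ a * max κ 1 ≤ κ₀ :=
    ⟨min 1 (κ₀ / max κ 1), lt_min one_pos (by positivity), min_le_left _ _,
      (le_div_iff₀ hκ1).1 (min_le_right _ _)⟩
  have hC : (0 : ℝ) < max C₁ 1 := lt_of_lt_of_le one_pos (le_max_right _ _)
  refine ⟨θ₀ / ((21 ^ d : ℕ) + 1), max C₁ 1 * (2 * (6 + 4 * |R| / a) + 1) ^ d, 2 / a, 6,
    by positivity, by positivity, ?_⟩
  intro n _ l q hl hn h0 h1 hq Z P hP
  have hal : 2 ≤ a * l := by rw [div_le_iff₀ ha0] at hl; linarith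
  have hl0 : 0 < l := lt_of_lt_of_le (by positivity) hl
  have hr1 : (⌊a * l⌋₊ : ℝ) ≤ a * l := Nat.floor_le (by linarith)
  have hr2 : a * l < (⌊a * l⌋₊ : ℝ) + 1 := Nat.lt_floor_add_one _
  set r := ⌊a * l⌋₊
  have hr3 : (1 : ℝ) ≤ r := by linarith
  have hr0 : (0 : ℝ) < r := by linarith
  have hr4 : 1 ≤ r := by exact_mod_cast hr3
  have hrl : (r : ℝ) ≤ l := by nlinarith
  have hr5 : a * l ≤ 2 * r := by linarith
  have hn1 : 2 * (2 * r) + 2 ≤ n := by
    have : ((2 * (2 * r) + 2 : ℕ) : ℝ) ≤ n := by push_cast; linarith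
    exact_mod_cast this
  have hq' : q ≤ p + κ₀ / (r : ℝ) ^ 2 := by
    refine hq.trans (add_le_add le_rfl ?_)
    rw [div_le_div_iff₀ (by positivity) (by positivity)]
    have e1 : (r : ℝ) ^ 2 ≤ a * l ^ 2 := by nlinarith
    calc κ * (r : ℝ) ^ 2 ≤ max κ 1 * (r : ℝ) ^ 2 :=
          mul_le_mul_of_nonneg_right (le_max_left _ _) (by positivity)
      _ ≤ max κ 1 * (a * l ^ 2) := mul_le_mul_of_nonneg_left e1 hκ1.le
      _ = a * max κ 1 * l ^ 2 := by ring
      _ ≤ κ₀ * l ^ 2 := mul_le_mul_of_nonneg_right ha2 (by positivity)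
  have hloc : ∀ x : Tor d n, PE univ (fun _ => q)
      (fun ω => Real.exp (θ₀ * cnt r x ω / (r : ℝ) ^ 4)) ≤ Real.exp (max C₁ 1 * l ^ (d - 6)) := by
    refine local_le hn1 h0 h1 hθ₀.le fun x => (hb r hr4 q h0 h1 hq' x).trans ?_
    refine Real.exp_le_exp.2 ?_
    exact (mul_le_mul_of_nonneg_right (le_max_left _ 1) (by positivity)).trans
      (mul_le_mul_of_nonneg_left (pow_le_pow_left₀ hr0.le hrl _) hC.le)
  obtain ⟨m, _, g1, g2⟩ := grid (d := d) (n := n) hG hr4 (by omega)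
  obtain ⟨col, hcol⟩ := hc (Tor d m) (fun b b' => td (tctr n b) (tctr n b') ≤ 4 * r) (21 ^ d)
    (fun b b' h => by rwa [td_comm]) (fun b S hS => by
      have h2 := (met_td d m).ball b 10 S (by norm_num) fun b' hb' => by
        have h3 := g2 b b'
        have h4 := hS b' hb'
        by_contra h5
        push Not at h5
        nlinarith
      have h3 : (S.card : ℝ) ≤ ((21 ^ d : ℕ) : ℝ) := by
        push_cast
        exact h2.trans (le_of_eq (by norm_num))
      exact_mod_cast h3)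
  have main := exp_sum_le univ (Prob.const h0 h1) (P.image (tblk m)) (21 ^ d) col
    (fun b ω => θ₀ * cnt r (tctr n b) ω / (r : ℝ) ^ 4)
    (fun b => (edges (torus d n) (tball (tctr n b) ((2 * r : ℕ) : ℝ)) : Set (Sym2 (Tor d n))))
    (fun b => (dep_cnt r (tctr n b)).comp fun t => θ₀ * t / (r : ℝ) ^ 4)
    (fun b b' hne he => by
      refine Finset.disjoint_coe.2 (edges_disjoint (Finset.disjoint_left.2 fun z hz hz' => ?_))
      refine hcol b b' hne ?_ he
      rw [mem_tball] at hz hz'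
      have h3 := td_tri (tctr n b) z (tctr n b')
      rw [td_comm z] at h3
      push_cast at hz hz'
      linarith)
    (M := max C₁ 1 * l ^ (d - 6)) (by positivity) (fun b => hloc _)
  have hT : ((P.image (tblk m)).card : ℝ) ≤ (2 * (6 + 4 * |R| / a) + 1) ^ d * Z.card := by
    have hs : P.image (tblk m) ⊆ Z.biUnion fun z => tball (tblk m z) (6 + 4 * |R| / a) := by
      intro b hb
      obtain ⟨y, hy, rfl⟩ := Finset.mem_image.1 hb
      obtain ⟨z, hz, hzy⟩ := hP y hy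
      refine Finset.mem_biUnion.2 ⟨z, hz, mem_tball.2 ?_⟩
      have h3 := g2 (tblk m z) (tblk m y)
      have h4 := td_tri (tctr n (tblk m z)) z (tctr n (tblk m y))
      have h5 := td_tri z y (tctr n (tblk m y))
      rw [td_comm y] at h5
      have h6 := g1 z
      have h7 := g1 y
      have h8 : R * l ≤ (r : ℝ) / 2 * (4 * |R| / a) := by
        have e1 : l ≤ 2 * r / a := by rw [le_div_iff₀ ha0]; linarith
        calc R * l ≤ |R| * l := mul_le_mul_of_nonneg_right (le_abs_self R) hl0.le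
          _ ≤ |R| * (2 * r / a) := mul_le_mul_of_nonneg_left e1 (abs_nonneg R)
          _ = (r : ℝ) / 2 * (4 * |R| / a) := by ring
      refine le_of_mul_le_mul_left (a := (r : ℝ) / 2) ?_ (by positivity)
      linarith
    calc ((P.image (tblk m)).card : ℝ)
        ≤ ((∑ z ∈ Z, (tball (tblk m z) (6 + 4 * |R| / a)).card : ℕ) : ℝ) :=
          Nat.cast_le.2 ((Finset.card_le_card hs).trans Finset.card_biUnion_le)
      _ = ∑ z ∈ Z, ((tball (tblk m z) (6 + 4 * |R| / a)).card : ℝ) := Nat.cast_sum _ _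
      _ ≤ ∑ _z ∈ Z, (2 * (6 + 4 * |R| / a) + 1) ^ d := Finset.sum_le_sum fun z _ =>
          (met_td d m).ball _ _ _ (by positivity) fun _ h => mem_tball.1 h
      _ = _ := by rw [Finset.sum_const, nsmul_eq_mul, mul_comm]
  refine le_trans (PE_mono (Prob.const h0 h1) fun ω => ?_) (main.trans (Real.exp_le_exp.2 ?_))
  · refine Real.exp_le_exp.2 ?_
    have hs : (flt P fun y => l ^ 4 ≤ ((cl (torus d n) univ ω y).card : ℝ)) ⊆
        (P.image (tblk m)).biUnion fun b => flt (tball (tctr n b) r) (LamT r ω) := by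
      intro y hy
      obtain ⟨h2, h3⟩ := mem_flt.1 hy
      exact Finset.mem_biUnion.2 ⟨_, Finset.mem_image_of_mem _ h2, mem_flt.2
        ⟨mem_tball.2 (g1 y), lamT_of_big ((pow_le_pow_left₀ hr0.le hrl 4).trans h3)⟩⟩
    have h2 : ((flt P fun y => l ^ 4 ≤ ((cl (torus d n) univ ω y).card : ℝ)).card : ℝ) ≤
        ∑ b ∈ P.image (tblk m), cnt r (tctr n b) ω := by
      unfold cnt
      rw [← Nat.cast_sum]
      exact Nat.cast_le.2 ((Finset.card_le_card hs).trans Finset.card_biUnion_le)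
    rw [← Finset.sum_div, ← Finset.mul_sum]
    have h3 : (r : ℝ) ^ 4 ≤ l ^ 4 := pow_le_pow_left₀ hr0.le hrl 4
    calc θ₀ / ((21 ^ d : ℕ) + 1) *
          ((flt P fun y => l ^ 4 ≤ ((cl (torus d n) univ ω y).card : ℝ)).card : ℝ) / l ^ 4
        ≤ θ₀ / ((21 ^ d : ℕ) + 1) * (∑ b ∈ P.image (tblk m), cnt r (tctr n b) ω) / (r : ℝ) ^ 4 :=
          div_le_div₀ (mul_nonneg (by positivity) ((Nat.cast_nonneg _).trans h2))
            (mul_le_mul_of_nonneg_left h2 (by positivity)) (by positivity) h3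
      _ = _ := by ring
  · calc max C₁ 1 * l ^ (d - 6) * ((P.image (tblk m)).card : ℝ)
        ≤ max C₁ 1 * l ^ (d - 6) * ((2 * (6 + 4 * |R| / a) + 1) ^ d * Z.card) :=
          mul_le_mul_of_nonneg_left hT (by positivity)
      _ = _ := by ring

end Pool.Agent.TPC.S7
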