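import Pool.Agent.Lib.TP7.Blue
import Pool.Agent.Lib.TPC.BlueG
import Pool.Agent.Lib.TPC.ZBasic

/-! Local exponential moment of the number of long or heavy points. -/

open Finset

namespace Pool.Agent.TPC.S7

open Pool.Agent.Lib.MP_81a99a_pr (lattice torus)

namespace Yb

variable {d : ℕ}

/-- the set `A` is heavy or reaches far from `y` -/
def LamC (r : ℕ) (y : Zd d) (A : Finset (Zd d)) : Prop :=
  (r : ℝ) ^ 4 ≤ A.card ∨ ∃ z ∈ A, (r : ℝ) ≤ zd y z

lemma LamC.mono {r : ℕ} {y : Zd d} {A B : Finset (Zd d)} (h : LamC r y A) (hAB : A ⊆ B) :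
    LamC r y B :=
  h.imp (fun h => h.trans (Nat.cast_le.2 (Finset.card_le_card hAB)))
    fun ⟨z, hz, h⟩ => ⟨z, hAB hz, h⟩

lemma exp_le (t : ℝ) (ht : 0 ≤ t) {n m : ℝ} (hn : 0 ≤ n) (h : n ≤ m) :
    Real.exp (t * n) ≤ 1 + n * (t * Real.exp (t * m)) := by
  have h1 := Real.add_one_le_exp (-(t * n))
  have h2 : Real.exp (-(t * n)) * Real.exp (t * n) = 1 := by rw [← Real.exp_add]; simp
  have h3 := Real.exp_pos (t * n)
  have h4 : Real.exp (t * n) ≤ Real.exp (t * m) :=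
    Real.exp_le_exp.2 (mul_le_mul_of_nonneg_left h ht)
  have h5 := mul_le_mul_of_nonneg_right h1 h3.le
  have h6 := mul_le_mul_of_nonneg_left h4 (mul_nonneg ht hn)
  nlinarith

lemma exp_le_prod (r : ℕ) (x : Zd d) (t : ℝ) (ht : 0 ≤ t) (ω : Finset (Sym2 (Zd d))) :
    Real.exp (t * (flt (box x r) (Lam r ω)).card) ≤
      ∏ A ∈ (box x (2 * r)).image (cl (lattice d) (box x (2 * r)) ω),
        (1 + ∑ y ∈ A, ind (y ∈ box x r ∧ LamC r y A) * (t * Real.exp (t * A.card))) := by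
  have hsub : box x r ⊆ box x (2 * r) := box_mono x (by omega)
  have h1 := Finset.card_eq_sum_card_fiberwise (f := cl (lattice d) (box x (2 * r)) ω)
    (s := flt (box x r) (Lam r ω))
    (t := (box x (2 * r)).image (cl (lattice d) (box x (2 * r)) ω))
    fun y hy => Finset.mem_coe.2 (Finset.mem_image_of_mem _ (hsub (mem_flt.1 hy).1))
  rw [h1, Nat.cast_sum, Finset.mul_sum, Real.exp_sum]
  refine Finset.prod_le_prod (fun _ _ => (Real.exp_pos _).le) fun A _ => ?_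
  have h2 : (flt (box x r) (Lam r ω)).filter (fun y => cl (lattice d) (box x (2 * r)) ω y = A) ⊆
      flt A fun y => y ∈ box x r ∧ LamC r y A := by
    intro y hy
    obtain ⟨hy1, rfl⟩ := Finset.mem_filter.1 hy
    obtain ⟨hy2, hy3⟩ := mem_flt.1 hy1
    refine mem_flt.2 ⟨self_mem_cl (hsub hy2), hy2, LamC.mono hy3 (cl_mono (box_subset ?_) subset_rfl)⟩
    have := mem_box.1 hy2
    push_cast; linarith
  rw [← Finset.sum_mul, ← card_flt]
  refine le_trans (Real.exp_le_exp.2 (mul_le_mul_of_nonneg_left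
    (Nat.cast_le.2 (Finset.card_le_card h2)) ht)) ?_
  exact exp_le t ht (Nat.cast_nonneg _) (Nat.cast_le.2 (Finset.card_le_card (flt_subset _ _)))

lemma chi_box (h12 : St_S12) {p c C : ℝ} (h : HZ d p c C) : ∃ K : ℝ, 0 < K ∧
    ∀ r : ℕ, 1 ≤ r → ∀ x v : Zd d, cz p (box x (2 * r)) v ≤ K * (r : ℝ) ^ 2 := by
  have hd : (7 : ℝ) ≤ d := by exact_mod_cast h.hd
  obtain ⟨C2, h0, h1⟩ := h12 d (d - 2) (by linarith) (by linarith)
  have hC : 1 ≤ C := by
    have := h.up {0} 0 0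
    rwa [tz_self (Finset.mem_singleton_self _), zd_self, kk_zero, mul_one] at this
  refine ⟨C * C2 * 25, by positivity, fun r hr x v => ?_⟩
  have hr' : (1 : ℝ) ≤ r := by exact_mod_cast hr
  by_cases hv : v ∈ box x (2 * r)
  · have h2 := (h1 (Zd d) zd (met_zd d) v (box x (2 * r)) (4 * r) (by positivity)).1 (by linarith)
      fun y hy => by
        have a1 := mem_box.1 hv
        have a2 := mem_box.1 hy
        have a3 := zd_tri v x y
        rw [zd_comm v x] at a3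
        push_cast at a1 a2
        linarith
    rw [show (d : ℝ) - 2 - d = -2 by ring, kk_neg_two] at h2
    rw [cz_eq_sum]
    refine (Finset.sum_le_sum fun y _ => h.up _ v y).trans ?_
    rw [← Finset.mul_sum, mul_assoc, mul_assoc]
    refine mul_le_mul_of_nonneg_left (h2.trans (mul_le_mul_of_nonneg_left ?_ h0.le)) (by linarith)
    nlinarith
  · rw [cz_eq_sum, Finset.sum_eq_zero fun y _ => tz_of_notMem hv]
    positivity

lemma lam_crit (hZ2 : St_Z2) (hZ7 : St_Z7b) {p c C : ℝ} (h : HZ d p c C) : ∃ K : ℝ, 0 < K ∧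
    ∀ r : ℕ, 1 ≤ r → ∀ (D : Finset (Zd d)) (y : Zd d),
      ez p D y (fun A => ind (LamC r y A)) ≤ K / (r : ℝ) ^ 2 := by
  obtain ⟨C1, a1, h1⟩ := hZ2 d p c C h
  obtain ⟨C2, a2, h2⟩ := hZ7 d p c C h
  refine ⟨C1 + C2, by positivity, fun r hr D y => ?_⟩
  have hr' : (1 : ℝ) ≤ r := by exact_mod_cast hr
  have hπ : Prob (fun _ : Sym2 (Zd d) => p) := Prob.const h.p0.le h.p1.le
  have h3 := h1 p h.p0.le le_rfl D y ((r : ℝ) ^ 4) (one_le_pow₀ hr')
  have e : √((r : ℝ) ^ 4) = (r : ℝ) ^ 2 := by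
    rw [show (r : ℝ) ^ 4 = ((r : ℝ) ^ 2) ^ 2 by ring, Real.sqrt_sq (by positivity)]
  rw [e] at h3
  have h4 := h2 D y r (by linarith)
  have h5 : ∀ A : Finset (Zd d), ind (LamC r y A) ≤
      min (A.card : ℝ) ((r : ℝ) ^ 4) / (r : ℝ) ^ 4 + ind (∃ z ∈ A, (r : ℝ) ≤ zd y z) := by
    intro A
    refine (ind_or_le _ _).trans (add_le_add_left (ind_le_of (by positivity) fun hh => ?_) _)
    rw [min_eq_right hh, div_self (by positivity)]
  have h6 : ez p D y (fun A => ind (LamC r y A)) ≤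
      ez p D y (fun A => min (A.card : ℝ) ((r : ℝ) ^ 4)) / (r : ℝ) ^ 4 +
        ez p D y (fun A => ind (∃ z ∈ A, (r : ℝ) ≤ zd y z)) := by
    unfold ez EC
    rw [← PE_div, ← PE_add]
    exact PE_mono hπ fun ω => h5 _
  have h7 : ez p D y (fun A => min (A.card : ℝ) ((r : ℝ) ^ 4)) / (r : ℝ) ^ 4 ≤ C1 / (r : ℝ) ^ 2 := by
    rw [div_le_div_iff₀ (by positivity) (by positivity)]
    have := mul_le_mul_of_nonneg_right h3 (show (0 : ℝ) ≤ (r : ℝ) ^ 2 by positivity)
    nlinarith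
  rw [add_div]
  linarith

lemma main (hZ2 : St_Z2) (hZ7 : St_Z7b) (hE1 : St_E1) (hCHI : St_CHI) (hET : St_ET)
    (h12 : St_S12) {p c C : ℝ} (h : HZ d p c C) : ∃ κ θ B : ℝ, 0 < κ ∧ 0 < θ ∧ 0 < B ∧ p + κ ≤ 1 ∧
    ∀ r : ℕ, 1 ≤ r → ∀ x y : Zd d, ez (p + κ / (r : ℝ) ^ 2) (box x (2 * r)) y
      (fun A => ind (LamC r y A) * Real.exp (θ / (r : ℝ) ^ 4 * A.card)) ≤ B / (r : ℝ) ^ 2 := by
  obtain ⟨K, hK, h1⟩ := chi_box h12 h
  obtain ⟨K', hK', h2⟩ := lam_crit hZ2 hZ7 h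
  have hp0 := h.p0
  have hp1 : 0 < 1 - p := by linarith [h.p1]
  obtain ⟨κ, hκ⟩ : ∃ κ, κ = (1 - p) / (4 * d * K + 2) := ⟨_, rfl⟩
  have k0 : 0 < κ := by rw [hκ]; positivity
  have k1 : κ * (4 * d * K + 2) = 1 - p := by rw [hκ]; field_simp
  have k2 : 0 ≤ κ * (d * K) := by positivity
  have k3 : 2 * κ ≤ 1 - p := by nlinarith
  refine ⟨κ, 1 / (8 * K ^ 2), 2 * (K' + 2 * d * K * (κ ^ 2 / (p * ((1 - p) / 2)))) + 1 / (2 * K),
    k0, by positivity, by positivity, by linarith, fun r hr x y => ?_⟩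
  have hr' : (1 : ℝ) ≤ r := by exact_mod_cast hr
  have r2 : (1 : ℝ) ≤ (r : ℝ) ^ 2 := one_le_pow₀ hr'
  have q0 : 0 < κ / (r : ℝ) ^ 2 := by positivity
  have q1 : κ / (r : ℝ) ^ 2 ≤ κ := div_le_self k0.le r2
  obtain ⟨q, hq⟩ : ∃ q, q = p + κ / (r : ℝ) ^ 2 := ⟨_, rfl⟩
  rw [← hq]
  have hq0 : p ≤ q := by linarith
  have hq1 : (1 - p) / 2 ≤ 1 - q := by linarith
  have hπ : Prob (fun _ : Sym2 (Zd d) => q) := Prob.const (by linarith) (by linarith)
  have hc := hCHI (Zd d) (lattice d) (2 * d) (degLe_lattice d) (box x (2 * r)) q p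
    (K * (r : ℝ) ^ 2) hp0.le hq0 (by linarith) h.p1 (h1 r hr x) (by
      rw [hq, add_sub_cancel_left]
      have e : ((2 * d : ℕ) : ℝ) * (K * (r : ℝ) ^ 2) * (κ / (r : ℝ) ^ 2 / (1 - p)) =
          2 * (κ * (d * K)) / (1 - p) := by push_cast; field_simp
      rw [e, div_le_iff₀ hp1]
      nlinarith)
  have he := hET (Zd d) (lattice d) (fun _ => q) hπ (box x (2 * r))
    (fun _ => 1 / (8 * K ^ 2) / (r : ℝ) ^ 4) (fun _ => 1 / (2 * K) / (r : ℝ) ^ 2)
    (fun _ => by positivity) (fun _ => by positivity) (fun v _ => by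
      rw [← Finset.sum_mul]
      refine (mul_le_mul_of_nonneg_right (hc v) (by positivity)).trans (le_of_eq ?_)
      field_simp
      ring) y
  have hl := hE1 (Zd d) (lattice d) (2 * d) (degLe_lattice d) (box x (2 * r)) y q p (by linarith)
    (by linarith) hp0 h.p1 (fun A => ind (LamC r y A)) fun _ => ⟨ind_nonneg _, ind_le_one _⟩
  have h3 := h2 r hr (box x (2 * r)) y
  have h4 : ((2 * d : ℕ) : ℝ) * chi (lattice d) (fun _ => p) (box x (2 * r)) y *
      ((q - p) ^ 2 / (q * (1 - q))) ≤ 2 * d * K * (κ ^ 2 / (p * ((1 - p) / 2))) / (r : ℝ) ^ 2 := by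
    have a1 : (q - p) ^ 2 / (q * (1 - q)) ≤ (κ / (r : ℝ) ^ 2) ^ 2 / (p * ((1 - p) / 2)) := by
      rw [show q - p = κ / (r : ℝ) ^ 2 by linarith]
      exact div_le_div_of_nonneg_left (by positivity) (by positivity)
        (mul_le_mul hq0 hq1 (by positivity) (by linarith))
    have a2 : (0 : ℝ) ≤ (q - p) ^ 2 / (q * (1 - q)) :=
      div_nonneg (sq_nonneg _) (mul_nonneg (by linarith) (by linarith))
    refine (mul_le_mul (mul_le_mul_of_nonneg_left (h1 r hr x y) (Nat.cast_nonneg _)) a1 a2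
      (by positivity)).trans (le_of_eq ?_)
    push_cast
    field_simp
  have h5 : ez q (box x (2 * r)) y
      (fun A => ind (LamC r y A) * Real.exp (1 / (8 * K ^ 2) / (r : ℝ) ^ 4 * A.card)) ≤
      EC (lattice d) (fun _ => q) (box x (2 * r)) y (fun A => ind (LamC r y A)) +
      (EC (lattice d) (fun _ => q) (box x (2 * r)) y
        (fun A => Real.exp (∑ _y ∈ A, 1 / (8 * K ^ 2) / (r : ℝ) ^ 4)) - 1) := by
    unfold ez EC
    rw [← PE_const (edges (lattice d) (box x (2 * r))) (fun _ => q) 1, ← PE_sub, ← PE_add]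
    refine PE_mono hπ fun ω => ?_
    simp only [Finset.sum_const, nsmul_eq_mul, PE_const]
    generalize cl (lattice d) (box x (2 * r)) ω y = A
    rw [mul_comm (A.card : ℝ)]
    have b1 : 1 ≤ Real.exp (1 / (8 * K ^ 2) / (r : ℝ) ^ 4 * A.card) :=
      Real.one_le_exp (by positivity)
    have b2 := ind_le_one (LamC r y A)
    nlinarith
  unfold ez at h3
  rw [add_div, mul_div_assoc, add_div]
  linarith

end Yb

theorem st_Yb (hZ2 : St_Z2) (hZ7 : St_Z7b) (hE1 : St_E1) (hCHI : St_CHI) (hET : St_ET)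
    (hDC : St_DC) (h12 : St_S12) : St_Yb := by
  intro d p c C h
  obtain ⟨κ, θ, B, k0, t0, B0, k1, h1⟩ := Yb.main hZ2 hZ7 hE1 hCHI hET h12 h
  refine ⟨κ, θ, 3 ^ d * θ * B, k0, t0, fun r hr q q0 q1 hq x => ?_⟩
  have hr' : (1 : ℝ) ≤ r := by exact_mod_cast hr
  have r2 : (1 : ℝ) ≤ (r : ℝ) ^ 2 := one_le_pow₀ hr'
  have q2 : κ / (r : ℝ) ^ 2 ≤ κ := div_le_self k0.le r2
  have hπ : Prob (fun _ : Sym2 (Zd d) => q) := Prob.const q0 q1
  have hπ' : Prob (fun _ : Sym2 (Zd d) => p + κ / (r : ℝ) ^ 2) :=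
    Prob.const (q0.trans hq) (by linarith)
  obtain ⟨t, ht⟩ : ∃ t, t = θ / (r : ℝ) ^ 4 := ⟨_, rfl⟩
  have t1 : 0 ≤ t := by rw [ht]; positivity
  have h2 := hDC (Zd d) (lattice d) (fun _ => q) hπ (box x (2 * r))
    (fun y A => ind (y ∈ box x r ∧ Yb.LamC r y A) * (t * Real.exp (t * A.card)))
    (fun y => ind (y ∈ box x r) * (t * (B / (r : ℝ) ^ 2)))
    (fun y A => mul_nonneg (ind_nonneg _) (by positivity)) fun y _ D' hD => by
      have hm : Monotone fun A : Finset (Zd d) => ind (Yb.LamC r y A) * Real.exp (t * A.card) :=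
        fun A A' hA => mul_le_mul (ind_mono fun h => h.mono hA) (Real.exp_le_exp.2
          (mul_le_mul_of_nonneg_left (Nat.cast_le.2 (Finset.card_le_card hA)) t1))
          (Real.exp_pos _).le (ind_nonneg _)
      have a1 := (EC_mono_dom (G := lattice d) (x := y) hπ hD hm).trans
        (EC_mono_prob hπ hπ' (fun _ _ => hq) hm)
      have a2 := h1 r hr x y
      rw [← ht] at a2
      refine le_trans ?_ (mul_le_mul_of_nonneg_left
        (mul_le_mul_of_nonneg_left (a1.trans a2) t1) (ind_nonneg _))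
      unfold EC
      rw [← PE_mul_left, ← PE_mul_left]
      refine PE_mono hπ fun ω => ?_
      simp only [ind_and]
      generalize cl (lattice d) D' ω y = A
      have b1 : 0 ≤ ind (y ∈ box x r) * ind (Yb.LamC r y A) * (t * Real.exp (t * A.card)) :=
        mul_nonneg (mul_nonneg (ind_nonneg _) (ind_nonneg _)) (by positivity)
      have b2 := mul_le_mul_of_nonneg_right (ind_le_one (y ∈ A)) b1
      linarith
  refine le_trans (PE_mono hπ fun ω => ?_) (h2.trans (Real.exp_le_exp.2 ?_))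
  · rw [mul_div_right_comm, ← ht]
    exact Yb.exp_le_prod r x t t1 ω
  · rw [← Finset.sum_mul, ← card_flt]
    have a1 : ((flt (box x (2 * r)) fun y => y ∈ box x r).card : ℝ) ≤ 3 ^ d * (r : ℝ) ^ d := by
      have := Finset.card_le_card (s := flt (box x (2 * r)) fun y => y ∈ box x r) (t := box x r)
        fun y hy => (mem_flt.1 hy).2
      rw [card_box] at this
      refine (Nat.cast_le.2 this).trans ?_
      rw [← mul_pow]
      push_cast
      exact pow_le_pow_left₀ (by positivity) (by linarith) d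
    refine (mul_le_mul_of_nonneg_right a1 (by positivity)).trans (le_of_eq ?_)
    have e : (r : ℝ) ^ d = (r : ℝ) ^ (d - 6) * (r : ℝ) ^ 6 := by
      rw [← pow_add]; congr 1; have := h.hd; omega
    rw [e, ht]
    field_simp

end Pool.Agent.TPC.S7
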