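import Pool.Agent.Lib.TP7.Blue
import Pool.Agent.Lib.TPC.BlueZ

/-! Blocks Z2 and Z9: the volume tail at and slightly above the critical point. -/

open Finset

namespace Pool.Agent.TPC.S7

open Pool.Agent.Lib.MP_81a99a_pr (lattice)

theorem st_Z2 (h1 : St_Z1) (hE : St_E1) : St_Z2 := by
  intro d p c C H
  obtain ⟨C₁, hC, hχ⟩ := h1 d p c C H
  have p0 := H.p0
  have p1 : 0 < 1 - p := sub_pos.2 H.p1
  refine ⟨2 * (2 * C₁ / p + d * C₁ / (1 - p)), by positivity, fun q q0 qp D x s hs => ?_⟩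
  obtain ⟨t, ht, rfl⟩ : ∃ t : ℝ, 1 ≤ t ∧ s = t ^ 2 :=
    ⟨√s, Real.one_le_sqrt.2 hs, (Real.sq_sqrt (by linarith)).symm⟩
  rw [Real.sqrt_sq (by linarith)]
  have a0 : 0 < p / (2 * t) := by positivity
  have a1 : p / (2 * t) ≤ p / 2 := by gcongr; linarith
  have b0 : 0 < p - p / (2 * t) := by linarith
  have b1 : p - p / (2 * t) < 1 := by linarith
  have k1 := hE _ _ _ (degLe_lattice d) D x p (p - p / (2 * t)) p0 H.p1 b0 b1
    (fun A => min (A.card : ℝ) (t ^ 2) / t ^ 2) fun A =>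
      ⟨by positivity, (div_le_one (by positivity)).2 (min_le_right _ _)⟩
  have k2 : chi (lattice d) (fun _ => p - p / (2 * t)) D x ≤ C₁ / (p / (2 * t)) := by
    have := hχ _ b0.le (by linarith) D x
    rwa [sub_sub_cancel] at this
  have k3 : EC (lattice d) (fun _ => p - p / (2 * t)) D x (fun A => min (A.card : ℝ) (t ^ 2)) ≤
      C₁ / (p / (2 * t)) :=
    (EC_mono (Prob.const b0.le b1.le) fun A _ => min_le_left _ _).trans (EC_card.le.trans k2)
  have k4 : ∀ r : ℝ, EC (lattice d) (fun _ => r) D x (fun A => min (A.card : ℝ) (t ^ 2) / t ^ 2) =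
      EC (lattice d) (fun _ => r) D x (fun A => min (A.card : ℝ) (t ^ 2)) / t ^ 2 :=
    fun r => PE_div _ _ _ _
  rw [k4, k4, sub_sub_cancel, div_le_iff₀ (by positivity)] at k1
  refine (EC_mono_prob (Prob.const q0 (qp.trans H.p1.le)) (Prob.const p0.le H.p1.le) (fun _ _ => qp)
    fun _ _ hab => min_le_min_right _ (Nat.cast_le.2 (card_le_card hab))).trans (k1.trans ?_)
  calc _ ≤ 2 * (C₁ / (p / (2 * t)) / t ^ 2 + ((2 * d : ℕ) : ℝ) * (C₁ / (p / (2 * t))) *
        ((p / (2 * t)) ^ 2 / (p * (1 - p)))) * t ^ 2 := by gcongr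
    _ = _ := by push_cast; field_simp

theorem st_Z9 (h1 : St_Z1) (h2 : St_Z2) (hE : St_E1) : St_Z9 := by
  intro d p c C H κ
  obtain ⟨C₁, hC, hχ⟩ := h1 d p c C H
  obtain ⟨C₂, hC₂, hδ⟩ := h2 d p c C H
  have p0 := H.p0
  have p1 : 0 < 1 - p := sub_pos.2 H.p1
  have hκ := abs_nonneg κ
  have e0 : 0 ≤ 2 * d * C₁ * ((|κ| + 1) ^ 2 / (p * ((1 - p) / 2))) := by positivity
  refine ⟨2 * (C₂ + 2 * d * C₁ * ((|κ| + 1) ^ 2 / (p * ((1 - p) / 2)))), 1 + 2 / p + 2 * |κ| / (1 - p),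
    by positivity, fun l hl q q0 qp D x => ?_⟩
  have u1 : 0 < 2 / p := by positivity
  have u2 : 0 ≤ 2 * |κ| / (1 - p) := by positivity
  have l1 : 1 ≤ l := by linarith
  have l2 : l ≤ l ^ 2 := le_self_pow₀ l1 two_ne_zero
  have low : ∀ r : ℝ, 0 ≤ r → r ≤ p →
      EC (lattice d) (fun _ => r) D x (fun A => ind (l ^ 4 ≤ (A.card : ℝ))) ≤ C₂ / l ^ 2 := by
    intro r r0 rp
    have k := hδ r r0 rp D x (l ^ 4) (one_le_pow₀ l1)
    rw [show l ^ 4 = (l ^ 2) ^ 2 by ring, Real.sqrt_sq (by positivity), ← pow_mul] at k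
    refine (EC_mono (F' := fun A => min (A.card : ℝ) (l ^ 4) / l ^ 4) (Prob.const r0 (rp.trans H.p1.le))
      fun A _ => ind_le_of (by positivity) fun h => ?_).trans ((PE_div _ _ _ _).le.trans ?_)
    · rw [min_eq_right h, div_self (by positivity)]
    · refine (div_le_div_of_nonneg_right k (by positivity)).trans (le_of_eq ?_)
      field_simp
  rcases le_or_gt q p with hq | hq
  · exact (low q q0 hq).trans (div_le_div_of_nonneg_right (by linarith) (by positivity))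
  have a0 : 0 < 1 / l ^ 2 := by positivity
  have a1 : 1 / l ^ 2 ≤ p / 2 := by
    rw [div_le_iff₀ (by positivity)]
    have := (div_le_iff₀ p0).1 (by linarith : 2 / p ≤ l ^ 2)
    linarith
  have a2 : κ / l ^ 2 ≤ |κ| / l ^ 2 := by gcongr; exact le_abs_self κ
  have a3 : |κ| / l ^ 2 ≤ (1 - p) / 2 := by
    rw [div_le_iff₀ (by positivity)]
    have := (div_le_iff₀ p1).1 (by linarith : 2 * |κ| / (1 - p) ≤ l ^ 2)
    linarith
  have k1 := hE _ _ _ (degLe_lattice d) D x q (p - 1 / l ^ 2) (by linarith) (by linarith) (by linarith)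
    (by linarith) (fun A => ind (l ^ 4 ≤ (A.card : ℝ))) fun A => ⟨ind_nonneg _, ind_le_one _⟩
  have k2 : chi (lattice d) (fun _ => p - 1 / l ^ 2) D x ≤ C₁ / (1 / l ^ 2) := by
    have := hχ (p - 1 / l ^ 2) (by linarith) (by linarith) D x
    rwa [sub_sub_cancel] at this
  have k3 := low (p - 1 / l ^ 2) (by linarith) (by linarith)
  have k4 : q - (p - 1 / l ^ 2) ≤ (|κ| + 1) / l ^ 2 := by rw [add_div]; linarith
  have k5 : 0 ≤ q - (p - 1 / l ^ 2) := by linarith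
  have k6 : (1 - p) / 2 ≤ 1 - q := by linarith
  refine k1.trans ?_
  calc _ ≤ 2 * (C₂ / l ^ 2 + ((2 * d : ℕ) : ℝ) * (C₁ / (1 / l ^ 2)) *
        (((|κ| + 1) / l ^ 2) ^ 2 / (p * ((1 - p) / 2)))) := by
        gcongr
        exact div_nonneg (sq_nonneg _) (mul_nonneg q0 (by linarith))
    _ = _ := by push_cast; field_simp

end Pool.Agent.TPC.S7
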