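import Pool.Agent.Lib.TP7.Blue
import Pool.Agent.Lib.TPC.BlueZ

/-! Connections inside a box with comparable sides. -/

open Finset

namespace Pool.Agent.TPC.S7

open Pool.Agent.Lib.MP_81a99a_pr (lattice torus)

namespace Z3

variable {d : ℕ} {p c C : ℝ}

lemma exists_face (hF : St_FACE) (h3 : St_Z3a) (h : HZ d p c C) (r : ℕ) (i : Fin d) :
    ∃ y ∈ box (0 : Zd d) r, y i = r ∧ 1 / (2 * d * (2 * r + 1 : ℝ) ^ d) ≤ tz p (box 0 r) 0 y := by
  have hd : (7 : ℝ) ≤ d := by exact_mod_cast h.hd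
  have h1 := h3 d p c C h r
  rw [hF d p r i] at h1
  by_contra hc
  push Not at hc
  have h2 : face d p r i ≤ (flt (box (0 : Zd d) r) (fun y => y i = r)).card •
      (1 / (2 * d * (2 * r + 1 : ℝ) ^ d)) :=
    Finset.sum_le_card_nsmul _ _ _ fun y hy => (hc y (mem_flt.1 hy).1 (mem_flt.1 hy).2).le
  have h4 : ((flt (box (0 : Zd d) r) (fun y => y i = r)).card : ℝ) ≤ (2 * r + 1 : ℝ) ^ d := by
    have := Finset.card_le_card (flt_subset (box (0 : Zd d) r) (fun y => y i = r))
    rw [card_box] at this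
    exact_mod_cast this
  rw [nsmul_eq_mul] at h2
  have h5 := h2.trans (mul_le_mul_of_nonneg_right h4 (by positivity))
  have e : (2 * r + 1 : ℝ) ^ d * (1 / (2 * d * (2 * r + 1 : ℝ) ^ d)) = 1 / (2 * d) := by
    field_simp
  rw [e, le_div_iff₀ (by positivity)] at h5
  have := h.p0
  have := h.p1
  nlinarith

lemma even_move (hF : St_FACE) (h3 : St_Z3a) (h : HZ d p c C) (r : ℕ) (i : Fin d) (x : Zd d)
    {D : Finset (Zd d)} (h1 : box x r ⊆ D) (h2 : box (x + ev i (2 * r)) r ⊆ D) :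
    (1 / (2 * d * (2 * r + 1 : ℝ) ^ d)) ^ 2 ≤ tz p D x (x + ev i (2 * r)) := by
  obtain ⟨y, -, hy, h4⟩ := exists_face hF h3 h r i
  have a1 := (aut_add x).tz_box p 0 r 0 y
  have a2 := ((aut_add x).comp (aut_refl i (2 * r))).tz_box p 0 r 0 y
  have e1 : refl i (2 * r) (0 : Zd d) + x = x + ev i (2 * r) := by
    funext j
    by_cases hj : j = i
    · subst hj; simp [add_comm]
    · simp [refl_ne hj, hj]
  have e2 : refl i (2 * r) y = y := by
    funext j
    by_cases hj : j = i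
    · subst hj; rw [refl_same, hy]; ring
    · exact refl_ne hj _ _
  simp only [zero_add] at a1
  simp only [e1, e2] at a2
  have b1 := tz_mono_dom (x := x) (y := y + x) h.p0.le h.p1.le h1
  have b2 := tz_mono_dom (x := x + ev i (2 * r)) (y := y + x) h.p0.le h.p1.le h2
  rw [a1] at b1
  rw [a2, tz_comm (D := D)] at b2
  rw [sq]
  exact (mul_le_mul (h4.trans b1) (h4.trans b2) (by positivity)
    (tz_nonneg h.p0.le h.p1.le)).trans (tz_mul_le h.p0.le h.p1.le)

/-- points at distance at least `ρ` from the faces -/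
def Core (a b : Zd d) (ρ : ℕ) (v : Zd d) : Prop := ∀ j, a j + ρ ≤ v j ∧ v j + ρ ≤ b j

/-- the price of one move -/
noncomputable def eta (d : ℕ) (p : ℝ) (R : ℕ) : ℝ := p * (1 / (2 * d * (2 * R + 1 : ℝ) ^ d)) ^ 2

lemma move (hF : St_FACE) (h3 : St_Z3a) (h : HZ d p c C) {a b v w : Zd d} {ρ R : ℕ} (hR : ρ ≤ R)
    (hv : Core a b ρ v) (hw : Core a b ρ w) (i : Fin d) (e : ∀ j, j ≠ i → w j = v j)
    (h1 : v i ≤ w i) (h2 : w i ≤ v i + 2 * ρ + 1) : eta d p R ≤ tz p (rect a b) v w := by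
  have hd : (7 : ℝ) ≤ d := by exact_mod_cast h.hd
  obtain ⟨r, hr, hr'⟩ : ∃ r : ℕ, r ≤ ρ ∧ (w i = v i + 2 * r ∨ w i = v i + 2 * r + 1) :=
    ⟨(w i - v i).toNat / 2, by omega, by omega⟩
  have a1 := even_move hF h3 h r i v (D := rect a b)
    (fun y hy => mem_rect.2 fun j => by
      have := mem_box'.1 hy j
      have := hv j
      omega)
    (fun y hy => mem_rect.2 fun j => by
      have b1 := mem_box'.1 hy j
      have := hv j
      have := hw j
      by_cases hj : j = i
      · subst hj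
        simp only [Pi.add_apply, Pi.single_eq_same] at b1
        omega
      · simp only [Pi.add_apply, Pi.single_eq_of_ne hj] at b1
        omega)
  have a2 : (1 / (2 * d * (2 * R + 1 : ℝ) ^ d)) ^ 2 ≤ (1 / (2 * d * (2 * r + 1 : ℝ) ^ d)) ^ 2 := by
    have : (r : ℝ) ≤ R := by exact_mod_cast hr.trans hR
    gcongr
  have a3 := a2.trans a1
  have p0 := h.p0
  have p1 := h.p1
  unfold eta
  rcases hr' with e1 | e1
  · have : w = v + ev i (2 * r) := funext fun j => by
      by_cases hj : j = i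
      · subst hj; simp [e1]
      · simp [e j hj, hj]
    rw [this]
    refine le_trans ?_ a3
    exact mul_le_of_le_one_left (by positivity) p1.le
  · have : w = v + ev i (2 * r) + Pi.single i 1 := funext fun j => by
      by_cases hj : j = i
      · subst hj; simp [e1]
      · simp [e j hj, hj]
    have a4 := tau_step (G := lattice d) (Prob.const p0.le p1.le) (D := rect a b) (x := v)
      (mem_rect.2 fun j => by have := hw j; omega : w ∈ rect a b)
      (this ▸ lattice_adj_add (v + ev i (2 * r)) i)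
    rw [mul_comm]
    exact (mul_le_mul_of_nonneg_right a3 p0.le).trans a4

lemma eta_nonneg (h : HZ d p c C) (R : ℕ) : 0 ≤ eta d p R := mul_nonneg h.p0.le (sq_nonneg _)

lemma jump (hF : St_FACE) (h3 : St_Z3a) (h : HZ d p c C) {a b v w : Zd d} {ρ R : ℕ} (hR : ρ ≤ R)
    (hv : Core a b ρ v) (hw : Core a b ρ w)
    (h1 : ∀ j, v j ≤ w j + 2 * ρ + 1 ∧ w j ≤ v j + 2 * ρ + 1) :
    eta d p R ^ d ≤ tz p (rect a b) v w := by
  have hc : ∀ s : Finset (Fin d), Core a b ρ (s.piecewise w v) := fun s j => by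
    by_cases hj : j ∈ s
    · rw [Finset.piecewise_eq_of_mem _ _ _ hj]; exact hw j
    · rw [Finset.piecewise_eq_of_notMem _ _ _ hj]; exact hv j
  have key : ∀ s : Finset (Fin d), eta d p R ^ s.card ≤ tz p (rect a b) v (s.piecewise w v) := by
    intro s
    induction s using Finset.induction_on with
    | empty =>
      rw [Finset.piecewise_empty, tz_self (mem_rect.2 fun j => by have := hv j; omega)]
      simp
    | insert i s hi ih =>
      have e1 : (insert i s).piecewise w v i = w i :=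
        Finset.piecewise_eq_of_mem _ _ _ (Finset.mem_insert_self _ _)
      have e2 : s.piecewise w v i = v i := Finset.piecewise_eq_of_notMem _ _ _ hi
      have e3 : ∀ j, j ≠ i → (insert i s).piecewise w v j = s.piecewise w v j := fun j hj =>
        Finset.piecewise_insert_of_ne _ _ _ hj
      have a1 : eta d p R ≤ tz p (rect a b) (s.piecewise w v) ((insert i s).piecewise w v) := by
        have := h1 i
        rcases le_total (v i) (w i) with h2 | h2
        · exact move hF h3 h hR (hc s) (hc _) i e3 (by omega) (by omega)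
        · rw [tz_comm]
          exact move hF h3 h hR (hc _) (hc s) i (fun j hj => (e3 j hj).symm) (by omega) (by omega)
      rw [Finset.card_insert_of_notMem hi, pow_succ]
      exact (mul_le_mul ih a1 (eta_nonneg h R) (tz_nonneg h.p0.le h.p1.le)).trans
        (tz_mul_le h.p0.le h.p1.le)
  have := key univ
  rwa [Finset.card_univ, Fintype.card_fin, Finset.piecewise_univ] at this

lemma rounds (hF : St_FACE) (h3 : St_Z3a) (h : HZ d p c C) {a b v : Zd d} {R : ℕ}
    (hab : ∀ j, (R : ℤ) ≤ b j - a j) (hv : v ∈ rect a b) (k : ℕ) :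
    ∃ w, Core a b (min (2 ^ k - 1) (R / 2)) w ∧ (eta d p R ^ d) ^ k ≤ tz p (rect a b) v w := by
  induction k with
  | zero =>
    refine ⟨v, fun j => ?_, by rw [tz_self hv]; simp⟩
    have := mem_rect.1 hv j
    simpa using this
  | succ k ih =>
    obtain ⟨w, h1, h2⟩ := ih
    have p2 : 1 ≤ 2 ^ k := Nat.one_le_two_pow
    have p3 : 2 ^ (k + 1) = 2 * 2 ^ k := pow_succ' 2 k
    generalize 2 ^ (k + 1) = s at p3 ⊢
    generalize 2 ^ k = t at p2 p3 h1
    obtain ⟨ρ, hρ⟩ : ∃ ρ, ρ = min (t - 1) (R / 2) := ⟨_, rfl⟩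
    obtain ⟨σ, hσ⟩ : ∃ σ, σ = min (s - 1) (R / 2) := ⟨_, rfl⟩
    rw [← hρ] at h1
    rw [← hσ]
    have hc : Core a b σ fun j => max (a j + σ) (min (w j) (b j - σ)) := fun j => by
      have := hab j
      simp only
      omega
    refine ⟨_, hc, ?_⟩
    have a1 := jump hF h3 h (R := R) (by omega) h1
      (w := fun j => max (a j + σ) (min (w j) (b j - σ)))
      (fun j => by have := hc j; omega) fun j => by
        have := h1 j
        have := hab j
        omega
    rw [pow_succ]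
    exact (mul_le_mul h2 a1 (pow_nonneg (eta_nonneg h R) _) (tz_nonneg h.p0.le h.p1.le)).trans
      (tz_mul_le h.p0.le h.p1.le)

lemma centre (hF : St_FACE) (h3 : St_Z3a) (h : HZ d p c C) {a b v : Zd d} {R : ℕ}
    (hab : ∀ j, (R : ℤ) ≤ b j - a j ∧ b j - a j ≤ 2 * R) (hv : v ∈ rect a b) :
    (eta d p R ^ d) ^ (Nat.log 2 R + 2) ≤ tz p (rect a b) v fun j => a j + (b j - a j) / 2 := by
  obtain ⟨w, h1, h2⟩ := rounds hF h3 h (fun j => (hab j).1) hv (Nat.log 2 R + 1)
  have := Nat.lt_pow_succ_log_self (b := 2) (by norm_num) R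
  rw [min_eq_right (by rw [Nat.succ_eq_add_one] at this; omega)] at h1
  have a1 := jump hF h3 h (R := R) (by omega) h1 (w := fun j => a j + (b j - a j) / 2)
    (fun j => by have := hab j; simp only; omega) fun j => by
      have := h1 j
      have := hab j
      omega
  rw [pow_succ]
  exact (mul_le_mul h2 a1 (pow_nonneg (eta_nonneg h R) _) (tz_nonneg h.p0.le h.p1.le)).trans
    (tz_mul_le h.p0.le h.p1.le)

lemma eta_ge (h : HZ d p c C) (R : ℕ) :
    Real.exp (-((2 * ((2 * d) ^ 2 / p) + 4 * d) * Real.log (R + 2))) ≤ eta d p R := by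
  have hd : (7 : ℝ) ≤ d := by exact_mod_cast h.hd
  have p0 := h.p0
  have R0 : (0 : ℝ) ≤ R := Nat.cast_nonneg _
  have l1 : 1 / 2 ≤ Real.log (R + 2) := by
    have := Real.log_le_log (by norm_num) (show (2 : ℝ) ≤ R + 2 by linarith)
    linarith [Real.log_two_gt_d9]
  have B0 : 0 < (2 * d : ℝ) ^ 2 / p := by positivity
  have a1 : (2 * d : ℝ) ^ 2 / p ≤ Real.exp (2 * ((2 * d) ^ 2 / p) * Real.log (R + 2)) := by
    have := Real.add_one_le_exp (2 * ((2 * d : ℝ) ^ 2 / p) * Real.log (R + 2))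
    nlinarith
  have a2 : ((2 * R + 1 : ℝ) ^ d) ^ 2 ≤ Real.exp (4 * d * Real.log (R + 2)) := by
    rw [show 4 * (d : ℝ) * Real.log (R + 2) = ((2 * (d * 2) : ℕ) : ℝ) * Real.log (R + 2) by
      push_cast; ring, Real.exp_nat_mul, Real.exp_log (by positivity), pow_mul, ← pow_mul]
    exact pow_le_pow_left₀ (by positivity) (by nlinarith) _
  have e : eta d p R = ((2 * d : ℝ) ^ 2 / p * ((2 * R + 1 : ℝ) ^ d) ^ 2)⁻¹ := by
    unfold eta; field_simp
  rw [e, Real.exp_neg, add_mul, Real.exp_add]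
  exact inv_anti₀ (by positivity) (mul_le_mul a1 a2 (by positivity) (Real.exp_pos _).le)

end Z3

theorem st_Z3 (hF : St_FACE) (h3 : St_Z3a) : St_Z3 := by
  intro d p c C h
  have hd : (7 : ℝ) ≤ d := by exact_mod_cast h.hd
  have p0 := h.p0
  refine ⟨12 * d * (2 * ((2 * d) ^ 2 / p) + 4 * d), by positivity, fun a b R hab v hv w hw => ?_⟩
  have a1 := Z3.centre hF h3 h hab hv
  have a2 := Z3.centre hF h3 h hab hw
  rw [tz_comm] at a2
  refine le_trans ?_ ((mul_le_mul a1 a2 (pow_nonneg (pow_nonneg (Z3.eta_nonneg h R) _) _)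
    (tz_nonneg h.p0.le h.p1.le)).trans (tz_mul_le h.p0.le h.p1.le))
  rw [← pow_add, ← pow_mul]
  refine le_trans ?_ (pow_le_pow_left₀ (Real.exp_pos _).le (Z3.eta_ge h R) _)
  rw [← Real.exp_nat_mul, Real.exp_le_exp]
  have R0 : (0 : ℝ) ≤ R := Nat.cast_nonneg _
  have l2 := Real.log_two_gt_d9
  have l1 : 1 / 2 ≤ Real.log (R + 2) := by
    have := Real.log_le_log (by norm_num) (show (2 : ℝ) ≤ R + 2 by linarith)
    linarith
  have l3 : (Nat.log 2 R : ℝ) ≤ 2 * Real.log (R + 2) := by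
    have b1 : (2 : ℝ) ^ Nat.log 2 R ≤ R + 2 := by
      rcases Nat.eq_zero_or_pos R with rfl | hR
      · simp
      · have : ((2 ^ Nat.log 2 R : ℕ) : ℝ) ≤ R := Nat.cast_le.2 (Nat.pow_log_le_self 2 hR.ne')
        push_cast at this
        linarith
    have b2 := Real.log_le_log (by positivity) b1
    rw [Real.log_pow] at b2
    nlinarith [(Nat.cast_nonneg (Nat.log 2 R) : (0 : ℝ) ≤ _)]
  have A0 : 0 ≤ d * ((2 * ((2 * d : ℝ) ^ 2 / p) + 4 * d) * Real.log (R + 2)) := by positivity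
  have := mul_le_mul_of_nonneg_right
    (show 2 * (Nat.log 2 R : ℝ) + 4 ≤ 12 * Real.log (R + 2) by linarith) A0
  push_cast
  nlinarith

end Pool.Agent.TPC.S7
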