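import Pool.Agent.Lib.TP7.Blue
import Pool.Agent.Lib.TPC.B_Z3A

/-! Blocks Z3a and Z7L: the exit mass at the critical point and the sharp length. -/

open Finset Filter Topology

namespace Pool.Agent.TPC.S7

open Pool.Agent.Lib.MP_81a99a_pr (lattice torus cluster kthLargest pc MeanField)

open Z3A in
theorem st_Z3a (hS : St_SLB) : St_Z3a := by
  intro d p c C H r
  by_contra hlt
  rw [not_le] at hlt
  have h0 := H.p0.le
  have h1 := H.p1.le
  have hφ := phi_nn d h0 h1 r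
  have hd := H.hd
  have : Nonempty (Fin d) := ⟨⟨0, by omega⟩⟩
  have key : ∀ m : ℕ, 1 ≤ m → c ≤ ((r : ℝ) + 2) ^ d * ((m : ℝ) ^ d * phi d p r ^ m) := by
    intro m hm
    have hm' : (1 : ℝ) ≤ m := by exact_mod_cast hm
    have hr : (0 : ℝ) ≤ r := Nat.cast_nonneg r
    have hz : zd (0 : Zd d) (fun _ => ((m * (r + 1) : ℕ) : ℤ)) = (m : ℝ) * (r + 1) := by
      rw [zd_zero_left, pi_norm_const, Int.norm_natCast]
      push_cast; ring
    obtain ⟨R, hR⟩ := H.low 0 (fun _ => ((m * (r + 1) : ℕ) : ℤ))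
    have h2 := hR.trans (decay hS d h0 h1 r _ _ m 0 hz.ge)
    have hp : (0 : ℝ) ≤ m * (r + 1) := by positivity
    rw [hz] at h2
    have h3 : kk d ((m : ℝ) * (r + 1)) ≤ kk (d - 2) ((m : ℝ) * (r + 1)) :=
      kk_anti_exp hp (by linarith)
    have h4 := (mul_le_mul_of_nonneg_left h3 H.c0.le).trans h2
    rw [kk_nat d hp, mul_one_div, div_le_iff₀ (by positivity)] at h4
    have h5 : (1 + (m : ℝ) * (r + 1)) ^ d ≤ (((r : ℝ) + 2) * m) ^ d :=
      pow_le_pow_left₀ (by positivity) (by nlinarith) d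
    have h6 := mul_le_mul_of_nonneg_left h5 (pow_nonneg hφ m)
    rw [mul_pow] at h6
    linarith
  have ht := (tendsto_pow_const_mul_const_pow_of_abs_lt_one d
    (r := phi d p r) (by rwa [abs_of_nonneg hφ])).const_mul (((r : ℝ) + 2) ^ d)
  rw [mul_zero] at ht
  have := ge_of_tendsto ht (eventually_atTop.2 ⟨1, key⟩)
  linarith [H.c0]

theorem st_Z7L (hI : St_INC) (hZ : St_Z1) : St_Z7L := by
  intro d p c C H
  obtain ⟨c₁, M₀, hc, hinc⟩ := hI d p c C H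
  obtain ⟨C₁, hC, hz⟩ := hZ d p c C H
  have h0 := H.p0
  have hM : (0 : ℝ) ≤ M₀ := Nat.cast_nonneg _
  have hq : 0 < C₁ / c₁ := div_pos hC hc
  have hp2 : 0 < 2 / p := by positivity
  obtain ⟨K, hK⟩ : ∃ K : ℝ, K = M₀ + 1 + C₁ / c₁ := ⟨_, rfl⟩
  have hK1 : 1 ≤ K := by linarith
  refine ⟨2 * K + 3, 1 + 2 / p, by linarith, by linarith, fun l hl => ?_⟩
  have hl1 : 1 ≤ l := by linarith
  have hl2 : 0 < l ^ 2 := by positivity
  have hs : 1 / l ^ 2 ≤ p / 2 := by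
    rw [div_le_div_iff₀ hl2 (by norm_num)]
    have h2 : 2 / p ≤ l ^ 2 := by nlinarith
    rw [div_le_iff₀ h0] at h2
    linarith
  have hs0 : 0 < 1 / l ^ 2 := by positivity
  refine ⟨by linarith, ?_⟩
  by_contra hn
  have hKl : 0 ≤ K * l := by positivity
  have c1 : K * l ≤ (⌈K * l⌉₊ : ℝ) := Nat.le_ceil _
  have c2 : (⌈K * l⌉₊ : ℝ) < K * l + 1 := Nat.ceil_lt_add_one hKl
  have c3 : M₀ ≤ ⌈K * l⌉₊ := by
    have : (M₀ : ℝ) ≤ (⌈K * l⌉₊ : ℝ) := by nlinarith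
    exact_mod_cast this
  have h1 := hinc (p - 1 / l ^ 2) (by linarith) (by linarith) _ c3 fun r hr => by
    by_contra hlt
    refine hn ⟨r, ?_, (not_le.1 hlt).le⟩
    have : (r : ℝ) ≤ 2 * (⌈K * l⌉₊ : ℝ) := by exact_mod_cast hr
    nlinarith
  have h2 := hz (p - 1 / l ^ 2) (by linarith) (by linarith) (box (0 : Zd d) (5 * ⌈K * l⌉₊)) 0
  have e : C₁ / (p - (p - 1 / l ^ 2)) = C₁ * l ^ 2 := by
    rw [sub_sub_cancel]; field_simp
  rw [e] at h2
  have h3 : (K * l) ^ 2 ≤ (⌈K * l⌉₊ : ℝ) ^ 2 := pow_le_pow_left₀ hKl c1 2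
  have h4 : C₁ / c₁ < K ^ 2 := by nlinarith
  rw [div_lt_iff₀ hc] at h4
  have h5 := mul_le_mul_of_nonneg_left h3 hc.le
  have h6 := mul_lt_mul_of_pos_right h4 hl2
  nlinarith

end Pool.Agent.TPC.S7
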