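import Pool.Agent.Lib.TP7.Blue
import Pool.Agent.Lib.TPC.B_Z4

/-! Regularity of the cluster in a larger domain near a point joined inside the cube. -/

open Finset

namespace Pool.Agent.TPC.S7

open Pool.Agent.Lib.MP_81a99a_pr (lattice torus cluster kthLargest pc MeanField)

/-- a local event of the larger domain costs little under the conditioning on a connection -/
lemma touch' (hT : St_TOUCH) {V : Type} [DecidableEq V] (G : SimpleGraph V) {π : Sym2 V → ℝ}
    (hπ : Prob π) {B L D D' : Finset V} (x y : V) {κ : ℝ} (P : Finset (Sym2 V) → Prop)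
    (hBL : B ⊆ L) (hD : D = D' ∩ B) (hy : y ∈ D) (hκ : 0 ≤ κ)
    (hP : DepOn P (edges G D' : Set (Sym2 V))) (hw : ∀ w ∈ D, κ ≤ tau G π D w y) :
    κ * PE (edges G L) π (fun ω => ind (conn G B ω x y ∧ P ω)) ≤
      tau G π B x y * PE (edges G L) π (fun ω => ind (P ω)) := by
  have hE : edges G L ∩ edges G B = edges G B := inter_eq_right.2 (edges_mono hBL)
  have hDB : D ⊆ B := hD ▸ inter_subset_right
  rw [PE_freeze (edges G L) (edges G B), PE_freeze (edges G L) (edges G B), hE, PE_comm,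
    PE_comm (edges G B), ← PE_mul_left, ← PE_mul_left]
  refine PE_mono' hπ fun b hb => ?_
  have dep : DepOn (fun a => P (a ∩ edges G B ∪ b)) (edges G D : Set (Sym2 V)) := by
    intro a a' h
    refine hP _ _ fun e he => ?_
    by_cases h1 : e ∈ edges G B
    · have h2 : e ∈ edges G D := mem_edges.2 ⟨(mem_edges.1 h1).1, fun v hv =>
        hD ▸ mem_inter.2 ⟨(mem_edges.1 (mem_coe.1 he)).2 v hv, (mem_edges.1 h1).2 v hv⟩⟩
      simp only [mem_union, mem_inter, h e h2]
    · simp only [mem_union, mem_inter, h1, and_false]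
  have key := hT V G π hπ B D x y κ _ hDB hy hκ dep hw
  rw [← PE_restrict (edges_mono hDB) (dep.comp ind) (fun _ he _ => he) π] at key
  refine le_trans (le_of_eq ?_) (key.trans (le_of_eq ?_))
  · congr 1
    refine PE_congr fun a ha => ind_congr ?_
    rw [inter_eq_left.2 ha]
    refine and_congr_left fun _ => iff_of_eq (dep_conn G B x y _ _ fun e he => ?_)
    have : e ∉ b := fun h2 => (mem_sdiff.1 (hb h2)).2 he
    simp [this]
  · congr 1
    exact PE_congr fun a ha => by rw [inter_eq_left.2 ha]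

open Z4 in
theorem st_Z4 (h3 : St_Z3) (hE : St_ETQ) (hX : St_CROSS) (hT : St_TOUCH) : St_Z4 := by
  intro d p c C H
  obtain ⟨C₁, hC₁, h3⟩ := h3 d p c C H
  obtain ⟨c₁, hc₁, hE⟩ := hE d p c C H
  obtain ⟨s₁, hX⟩ := hX d p c C H
  obtain ⟨s₂, hN⟩ := fin hC₁ hc₁ d
  refine ⟨max s₁ s₂, fun s hs b M L x y hL => ?_⟩
  obtain ⟨s3, m, hm⟩ := hN s ((le_max_right _ _).trans hs)
  have hπ : Prob (fun _ : Sym2 (Zd d) => p) := Prob.const H.p0.le H.p1.le
  have htz : 0 ≤ tz p (box b M) x y := tz_nonneg H.p0.le H.p1.le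
  have s0 : (0 : ℝ) < s := by exact_mod_cast (by omega : 0 < s)
  by_cases hy : y ∈ box b M
  swap
  · refine (PE_le_const hπ (c := 0) fun ω => le_of_eq (ind_neg fun h => hy h.1.right)).trans ?_
    positivity
  obtain ⟨T, hTd⟩ : ∃ T : ℝ, T = (s : ℝ) ^ (9 / 2 : ℝ) / (m + 1) := ⟨_, rfl⟩
  have hT0 : 0 ≤ T := by rw [hTd]; positivity
  obtain ⟨κ, hκ⟩ : ∃ κ : ℝ,
    κ = Real.exp (-(C₁ * Real.log (((s ^ (2 * d + 6) : ℕ) : ℝ) + 2) ^ 2)) := ⟨_, rfl⟩
  have hκ0 : 0 < κ := hκ ▸ Real.exp_pos _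
  obtain ⟨D, hD⟩ : ∃ D, D = box y (s ^ (2 * d + 6)) ∩ box b M := ⟨_, rfl⟩
  obtain ⟨D', hD'⟩ : ∃ D', D' = box y (s ^ (2 * d + 6)) ∩ L := ⟨_, rfl⟩
  have hDD : D = D' ∩ box b M := by
    rw [hD, hD', inter_assoc, inter_eq_right.2 hL]
  have hyD : y ∈ D := hD ▸ mem_inter.2 ⟨self_mem_box _ _, hy⟩
  have hlow : ∀ w ∈ D, κ ≤ tau (lattice d) (fun _ => p) D w y := by
    intro w hw
    rw [hD, inter_eq] at hw hyD ⊢
    refine le_trans ?_ (h3 _ _ (min (s ^ (2 * d + 6)) M) (fun j => ?_) w hw y hyD)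
    · rw [hκ, Real.exp_le_exp, neg_le_neg_iff]
      have a1 : (0 : ℝ) ≤ ((min (s ^ (2 * d + 6)) M : ℕ) : ℝ) := by positivity
      have a2 : ((min (s ^ (2 * d + 6)) M : ℕ) : ℝ) ≤ ((s ^ (2 * d + 6) : ℕ) : ℝ) :=
        Nat.cast_le.2 (min_le_left _ _)
      have a3 : 0 ≤ Real.log (((min (s ^ (2 * d + 6)) M : ℕ) : ℝ) + 2) :=
        Real.log_nonneg (by linarith)
      gcongr
    · have := mem_box'.1 hy j
      generalize s ^ (2 * d + 6) = R
      omega
  have dep : DepOn (fun ω => bad D' y s m T (cl (lattice d) D' ω))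
      (edges (lattice d) D' : Set (Sym2 (Zd d))) :=
    fun ω ω' h => congrArg (bad D' y s m T) (funext fun u => dep_cl (lattice d) D' u ω ω' h)
  have h1 := touch' hT (lattice d) hπ x y _ hL hDD hyD hκ0.le dep hlow
  rw [PE_restrict (edges_mono (hD' ▸ inter_subset_right : D' ⊆ L)) (dep.comp ind)
    (fun _ he _ => he)] at h1
  have h2 : PE (edges (lattice d) L) (fun _ => p) (fun ω =>
      ind (conn (lattice d) (box b M) ω x y ∧
        (s : ℝ) ^ (9 / 2 : ℝ) < (cl (lattice d) L ω x ∩ box y s).card)) ≤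
      PE (edges (lattice d) L) (fun _ => p) fun ω =>
        ind (conn (lattice d) (box b M) ω x y ∧ bad D' y s m T (cl (lattice d) D' ω)) := by
    refine PE_ind_mono hπ fun ω h => ⟨h.1, by_contra fun h4 => ?_⟩
    have h5 := good (by omega) hT0 (hD' ▸ h4)
    rw [cl_eq_of_conn (h.1.mono hL subset_rfl), hTd, mul_div_cancel₀ _ (by positivity)] at h5
    exact absurd h.2 (not_lt.2 h5)
  have h4 : PE (edges (lattice d) D') (fun _ => p)
      (fun ω => ind (bad D' y s m T (cl (lattice d) D' ω))) ≤ κ / (s : ℝ) ^ 2 := by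
    refine (PE_ind_or hπ _ _).trans (le_trans ?_ (hκ ▸ hm))
    refine add_le_add (hX s ((le_max_left _ _).trans hs) D' y m) ?_
    refine (PE_ind_exists hπ _ _).trans ?_
    rw [← card_box y s, ← nsmul_eq_mul]
    refine sum_le_card_nsmul _ _ _ fun u _ => ?_
    have h5 := PE_markov (E := edges (lattice d) D') hπ
      (f := fun ω => Real.exp (c₁ * (cl (lattice d) D' ω u ∩ box y s).card / (s : ℝ) ^ 4))
      (fun _ => (Real.exp_pos _).le) (Real.exp_pos (c₁ * T / (s : ℝ) ^ 4))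
    rw [← hTd]
    refine (PE_ind_mono hπ fun ω h => ?_).trans (h5.trans
      (div_le_div_of_nonneg_right (hE s (by omega) D' y u) (Real.exp_pos _).le))
    gcongr
  have h5 : κ * PE (edges (lattice d) L) (fun _ => p) (fun ω =>
      ind (conn (lattice d) (box b M) ω x y ∧
        (s : ℝ) ^ (9 / 2 : ℝ) < (cl (lattice d) L ω x ∩ box y s).card)) ≤
      κ * (tz p (box b M) x y / (s : ℝ) ^ 2) :=
    ((mul_le_mul_of_nonneg_left h2 hκ0.le).trans h1).trans
      ((mul_le_mul_of_nonneg_left h4 htz).trans (le_of_eq (by unfold tz; ring)))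
  exact le_of_mul_le_mul_left h5 hκ0

end Pool.Agent.TPC.S7
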