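import Pool.Agent.Lib.TP7.Blue
import Pool.Agent.Lib.TP7.Piv

/-! Block Z5 for `d ≥ 7`: the expected number of pioneers of a cube is bounded. -/

open Finset

namespace Pool.Agent.TPC.S7

open Pool.Agent.Lib.MP_81a99a_pr (lattice)

open Z5 in
lemma reg_half' {d : ℕ} {p : ℝ} (h0 : 0 ≤ p) (h1 : p ≤ 1) {B L : Finset (Zd d)} {x y : Zd d}
    {K : ℕ} (hBL : B ⊆ L) (hK : 4 ≤ K) (h : ∀ s : ℕ, K ≤ s →
      PE (edges (lattice d) L) (fun _ => p) (fun ω => ind (conn (lattice d) B ω x y ∧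
        (s : ℝ) ^ (9 / 2 : ℝ) < (cl (lattice d) L ω x ∩ box y s).card)) ≤
        tz p B x y / (s : ℝ) ^ 2) :
    tz p B x y ≤ 2 * PE (edges (lattice d) L) (fun _ => p) (fun ω =>
      ind (conn (lattice d) B ω x y ∧ Reg K y (cl (lattice d) L ω x))) := by
  obtain ⟨k, rfl⟩ : ∃ k, K = k + 1 := ⟨K - 1, by omega⟩
  have hπ : Prob (fun _ : Sym2 (Zd d) => p) := Prob.const h0 h1
  have e : tz p B x y = PE (edges (lattice d) L) (fun _ => p)
      (fun ω => ind (conn (lattice d) B ω x y)) := (PE_conn (edges_mono hBL) _ x y).symm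
  have a1 : PE (edges (lattice d) L) (fun _ => p) (fun ω => ind (conn (lattice d) B ω x y)) ≤
      PE (edges (lattice d) L) (fun _ => p) (fun ω =>
        ind (conn (lattice d) B ω x y ∧ Reg (k + 1) y (cl (lattice d) L ω x)) +
        ∑ s ∈ Ioo k (L.card + 1), ind (conn (lattice d) B ω x y ∧
          (s : ℝ) ^ (9 / 2 : ℝ) < (cl (lattice d) L ω x ∩ box y s).card)) := by
    refine PE_mono hπ fun ω => ?_
    refine le_trans ?_ (add_le_add le_rfl (ind_exists_le _ _))
    refine le_trans (ind_mono fun hy => ?_) (ind_or_le _ _)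
    by_cases hr : Reg (k + 1) y (cl (lattice d) L ω x)
    · exact Or.inl ⟨hy, hr⟩
    · right
      unfold Reg at hr
      push Not at hr
      obtain ⟨s, b1, b2⟩ := hr
      refine ⟨s, mem_Ioo.2 ⟨by omega, ?_⟩, hy, b2⟩
      have c1 : (1 : ℝ) ≤ s := by exact_mod_cast (by omega : 1 ≤ s)
      have c2 : (s : ℝ) ≤ (s : ℝ) ^ (9 / 2 : ℝ) := by
        calc (s : ℝ) = (s : ℝ) ^ (1 : ℝ) := (Real.rpow_one _).symm
          _ ≤ _ := Real.rpow_le_rpow_of_exponent_le c1 (by norm_num)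
      have c3 : ((cl (lattice d) L ω x ∩ box y s).card : ℝ) ≤ L.card := by
        exact_mod_cast Finset.card_le_card (Finset.inter_subset_left.trans cl_subset)
      have c4 : s < L.card := by exact_mod_cast (c2.trans_lt b2).trans_le c3
      omega
  rw [PE_add, PE_sum] at a1
  have ht : 0 ≤ tz p B x y := tz_nonneg h0 h1
  have a2 : ∑ s ∈ Ioo k (L.card + 1), PE (edges (lattice d) L) (fun _ => p) (fun ω =>
      ind (conn (lattice d) B ω x y ∧
        (s : ℝ) ^ (9 / 2 : ℝ) < (cl (lattice d) L ω x ∩ box y s).card)) ≤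
      tz p B x y * (2 / (k + 1)) := by
    refine le_trans (Finset.sum_le_sum fun s hs => h s (by have := (mem_Ioo.1 hs).1; omega)) ?_
    simp only [div_eq_mul_inv (tz p B x y)]
    rw [← Finset.mul_sum]
    exact mul_le_mul_of_nonneg_left (sum_Ioo_inv_sq_le k _) ht
  have a3 : (2 : ℝ) / (k + 1) ≤ 1 / 2 := by
    have : (3 : ℝ) ≤ k := by exact_mod_cast (by omega : 3 ≤ k)
    rw [div_le_iff₀ (by linarith)]
    linarith
  have a4 := mul_le_mul_of_nonneg_left a3 ht
  linarith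

open Z5 Piv in
theorem st_Z5 (h4 : St_Z4) (hRS : St_RS) (hPL : St_PL1) (h12 : St_S12) : St_Z5 := by
  intro d p c C hz
  classical
  have hd7 : (7 : ℝ) ≤ d := by exact_mod_cast hz.hd
  have hd : 2 ≤ d := le_trans (by norm_num) hz.hd
  have p0 := hz.p0.le
  have p1 := hz.p1.le
  have hp := hz.p0
  have hc := hz.c0
  have hπ : Prob (fun _ : Sym2 (Zd d) => p) := Prob.const p0 p1
  have hC : 1 ≤ C := by
    have := hz.up {0} 0 0
    rwa [tz_self (Finset.mem_singleton_self _), zd_self, kk_zero, mul_one] at this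
  obtain ⟨s₀, hZ4⟩ := h4 d p c C hz
  obtain ⟨R₁, hR₁, hRS₁⟩ := hRS ((d : ℝ) - 2) (by linarith)
  obtain ⟨A₁, hA₁, hS₁⟩ := h12 d ((d : ℝ) - 2) (by linarith) (by linarith)
  have hbox : ∀ (b v : Zd d) (M : ℕ),
      ∑ z ∈ box b M, kk ((d : ℝ) - 2) (zd v z) ≤ 9 * A₁ * (1 + (M : ℝ)) ^ 2 := by
    refine box_sum hA₁ hd fun x S r hr hS => ?_
    have := (hS₁ _ _ (met_zd d) x S r hr).1 (by linarith) hS
    rwa [(by ring : (d : ℝ) - 2 - d = -2), kk_neg_two] at this
  obtain ⟨A₂, hA₂, havg⟩ := avg hA₁ hd hbox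
  obtain ⟨W, hW⟩ : ∃ W, W = C * (9 * A₁) := ⟨_, rfl⟩
  have hW0 : 0 < W := by rw [hW]; positivity
  obtain ⟨c', hc'⟩ : ∃ c', c' = c / 2 ^ d := ⟨_, rfl⟩
  have hc'0 : 0 < c' := by rw [hc']; positivity
  obtain ⟨K₀, hK₀⟩ := kk_small (a := (d : ℝ) - 2 - 9 / 2) (ε := c' / 2 / (C * A₂ * R₁ * W))
    (by linarith) (by positivity)
  obtain ⟨K, hK1, hK2, hK3⟩ : ∃ K : ℕ, s₀ ≤ K ∧ 4 ≤ K ∧ K₀ ≤ K :=
    ⟨max (max s₀ 4) K₀, by omega, by omega, by omega⟩
  have hK0 : (0 : ℝ) ≤ K := Nat.cast_nonneg K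
  have hKk := (le_div_iff₀ (by positivity)).1 (hK₀ K hK3)
  obtain ⟨μ, hμ0, hμ1, hμ2⟩ : ∃ μ : ℝ, 0 < μ ∧ μ ≤ p ∧ μ ≤ 1 - p :=
    ⟨min p (1 - p), lt_min hp (by linarith [hz.p1]), min_le_left _ _, min_le_right _ _⟩
  obtain ⟨N, hN⟩ : ∃ N : ℕ, ∀ u : Zd d, (box u (K + 1)).sym2.card = N :=
    ⟨_, fun u => by rw [card_sym2, card_box]⟩
  refine ⟨max ((2 * (2 * (K : ℝ) + 1) + 1) ^ d) (W / (μ ^ N * (c' / 4))), fun b M i x => ?_⟩
  obtain ⟨B, hB⟩ : ∃ B, B = box b M := ⟨_, rfl⟩
  obtain ⟨F, hF⟩ : ∃ F, F = flt B (fun y => y i = b i + M) := ⟨_, rfl⟩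
  rw [← hB, ← hF]
  by_cases hM : M < 2 * K + 1
  · refine le_trans ?_ (le_max_left _ _)
    calc _ ≤ ∑ _y ∈ B, (1 : ℝ) := by
          refine (Finset.sum_le_sum fun y _ => tz_le_one p0 p1).trans ?_
          exact Finset.sum_le_sum_of_subset_of_nonneg (hF ▸ flt_subset _ _)
            fun _ _ _ => zero_le_one
      _ = (2 * (M : ℝ) + 1) ^ d := by
          rw [Finset.sum_const, nsmul_eq_mul, mul_one, hB, card_box]; push_cast; rfl
      _ ≤ _ := by
          have : (M : ℝ) ≤ 2 * K + 1 := by exact_mod_cast hM.le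
          gcongr
  refine le_trans ?_ (le_max_right _ _)
  have hMK : 2 * (K : ℝ) + 1 ≤ M := by exact_mod_cast not_lt.1 hM
  choose R hR using hz.low
  obtain ⟨L, hL1, hL2⟩ := exists_sup (box b (M + (2 * K + 1))) (box b (M + (2 * K + 1))) B
    fun w z => box w (R w z)
  have hBL : B ⊆ L := hB ▸ (box_mono b (Nat.le_add_right M _)).trans hL1
  obtain ⟨Q, hQ⟩ : ∃ Q, Q = (1 + (M : ℝ)) ^ 2 := ⟨_, rfl⟩
  have hQ0 : 0 < Q := by rw [hQ]; positivity
  have hup : ∀ v, ∑ z ∈ B, tz p L v z ≤ W * Q := by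
    intro v
    refine (Finset.sum_le_sum fun z _ => hz.up L v z).trans ?_
    rw [← Finset.mul_sum, hW, mul_assoc C, hB, hQ]
    exact mul_le_mul_of_nonneg_left (hbox b v M) (by linarith)
  have hlow : ∀ w ∈ box b (M + (2 * K + 1)), c' * Q ≤ ∑ z ∈ B, tz p L w z := by
    intro w hw
    have a0 : zd w b ≤ 2 * M := by
      have a1 := mem_box.1 hw
      push_cast at a1
      rw [zd_comm]
      linarith
    calc c' * Q = c * (Q / 2 ^ d) := by rw [hc']; ring
      _ ≤ c * ∑ z ∈ B, kk ((d : ℝ) - 2) (zd w z) :=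
          mul_le_mul_of_nonneg_left (hB ▸ hQ ▸ low_sum hd b _ M a0) hc.le
      _ ≤ _ := by
          rw [Finset.mul_sum]
          exact Finset.sum_le_sum fun z hz' => (hR _ z).trans (tz_mono_dom p0 p1 (hL2 w hw z hz'))
  have hBi : ∀ y ∈ B, y i ≤ b i + M := fun y hy => (mem_box'.1 (hB ▸ hy) i).2
  have one : ∀ y ∈ F, μ ^ N * (c' / 4) * Q * tz p B x y ≤
      ∑ z ∈ B, PE (edges (lattice d) L) (fun _ => p) fun ω =>
        ind (Ev (lattice d) B L x y (y + ev i 1) z ω) := by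
    intro y hy
    obtain ⟨hyB, hyi⟩ := mem_flt.1 (hF ▸ hy)
    obtain ⟨o, ho⟩ : ∃ o, o = y + ev i ((K + 1 : ℕ) : ℤ) := ⟨_, rfl⟩
    have hyo : zd y o ≤ K + 1 := by
      have := zd_ev y i (K + 1)
      rw [← ho] at this
      exact_mod_cast this
    have hU1 : box o K ⊆ box b (M + (2 * K + 1)) := box_subset (by
      have a1 := mem_box.1 (hB ▸ hyB)
      have a2 := zd_tri b y o
      push_cast
      linarith)
    have hUL := hU1.trans hL1
    have hBU : Disjoint B (box o K) := disjoint_left.2 fun v h1 h2 => by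
      have a1 := hBi v h1
      have a2 := (mem_box'.1 h2 i).1
      rw [ho] at a2
      simp only [ev, Pi.add_apply, Pi.single_eq_same] at a2
      omega
    have ht : y + ev i 1 ∈ box o K := mem_box'.2 fun j => by
      rw [ho]
      by_cases hj : j = i
      · subst hj
        simp only [ev, Pi.add_apply, Pi.single_eq_same]
        omega
      · simp only [ev, Pi.add_apply, Pi.single_eq_of_ne hj]
        omega
    obtain ⟨n, hn⟩ : ∃ n : ℝ, n = (2 * K + 1) ^ d := ⟨_, rfl⟩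
    have n0 : 0 < n := by rw [hn]; positivity
    have hcard : ((box o K).card : ℝ) = n := by rw [card_box, hn]; push_cast; rfl
    have s1 := reg_half' p0 p1 hBL hK2 fun s hs =>
      hB ▸ hZ4 s (hK1.trans hs) b M L x y (hB ▸ hBL)
    have s2 : n * (c' / 2 * Q) * PE (edges (lattice d) L) (fun _ => p) (fun ω =>
        ind (conn (lattice d) B ω x y ∧ Reg K y (cl (lattice d) L ω x))) ≤
        ∑ w ∈ box o K, ∑ z ∈ B, PE (edges (lattice d) L) (fun _ => p) fun ω =>
          ind (conn (lattice d) B ω x y ∧ Reg K y (cl (lattice d) L ω x)) *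
            tau (lattice d) (fun _ => p) (L \ cl (lattice d) L ω x) w z := by
      simp only [← PE_sum]
      rw [← PE_mul_left]
      refine PE_mono hπ fun ω => ?_
      simp only [← mul_sum]
      rw [mul_comm]
      by_cases hr : conn (lattice d) B ω x y ∧ Reg K y (cl (lattice d) L ω x)
      swap
      · rw [ind_neg hr, zero_mul, zero_mul]
      rw [ind_pos hr, one_mul, one_mul]
      have hreg := hr.2
      generalize cl (lattice d) L ω x = A at hreg
      have a1 : ∀ w ∈ box o K, c' * Q ≤ ∑ z ∈ B, tau (lattice d) (fun _ => p) (L \ A) w z +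
          ∑ a ∈ A, C * (W * Q) * kk ((d : ℝ) - 2) (zd w a) := by
        intro w hw
        refine (hlow w (hU1 hw)).trans ((sum_le_sum fun z _ =>
          hPL _ (lattice d) _ hπ L A w z).trans ?_)
        rw [sum_add_distrib, sum_comm]
        refine add_le_add le_rfl (sum_le_sum fun a _ => ?_)
        rw [← mul_sum, mul_right_comm]
        exact mul_le_mul (hz.up L w a) (hup a) (sum_nonneg fun _ _ => tau_nonneg hπ)
          (mul_nonneg (by linarith) (kk_nonneg _ (zd_nonneg _ _)))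
      have a2 := sum_le_sum a1
      rw [sum_const, nsmul_eq_mul, hcard, sum_add_distrib, sum_comm (t := A)] at a2
      have a3 : ∑ a ∈ A, ∑ w ∈ box o K, C * (W * Q) * kk ((d : ℝ) - 2) (zd w a) ≤
          C * (W * Q) * (A₂ * n * (R₁ * kk ((d : ℝ) - 2 - 9 / 2) K)) := by
        simp only [← mul_sum]
        refine mul_le_mul_of_nonneg_left ((sum_le_sum fun a _ => havg K y o a hyo).trans ?_)
          (by positivity)
        rw [← mul_sum, ← hn]
        exact mul_le_mul_of_nonneg_left (hRS₁ d A y K (by omega) hreg) (by positivity)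
      have a4 := mul_le_mul_of_nonneg_left hKk (mul_pos n0 hQ0).le
      linarith
    have s3 : ∀ w ∈ box o K, ∀ z ∈ B, μ ^ N * PE (edges (lattice d) L) (fun _ => p) (fun ω =>
        ind (conn (lattice d) B ω x y ∧ Reg K y (cl (lattice d) L ω x)) *
          tau (lattice d) (fun _ => p) (L \ cl (lattice d) L ω x) w z) ≤
        PE (edges (lattice d) L) (fun _ => p) fun ω =>
          ind (Ev (lattice d) B L x y (y + ev i 1) z ω) := by
      intro w hw z hz'
      rw [cond _ hBL (Reg K y), ← hN o]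
      refine energy hπ hμ0.le (fun _ => ⟨hμ1, hμ2⟩) (hμ1.trans p1) _ _ fun ω hω h => ?_
      obtain ⟨ω', e1, e2, e3⟩ := modify hBU hBL hUL ht (lattice_adj_add y i) hw
        (disjoint_left.1 hBU hz') (fun u hu => (conn_box o K _ ht).symm.trans (conn_box o K u hu))
        hω h.1.1 h.2
      refine ⟨ω', e1, e2, fun e he => e3 e fun h3 => he ?_⟩
      induction e using Sym2.ind with
      | h u v =>
        have hadj := (mk_mem_edges.1 h3.1).1
        rw [mk_mem_sym2_iff]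
        rcases mk_mem_touch.1 h3.2 with h4 | h4
        · exact ⟨box_mono o (Nat.le_succ K) h4, adj_mem_box h4 hadj⟩
        · exact ⟨adj_mem_box h4 hadj.symm, box_mono o (Nat.le_succ K) h4⟩
    have s4 := sum_le_sum fun w hw => sum_le_sum (s3 w hw)
    simp only [← mul_sum] at s4
    rw [sum_const, nsmul_eq_mul, hcard] at s4
    have s5 := (mul_le_mul_of_nonneg_left s2 (pow_pos hμ0 N).le).trans s4
    refine le_of_mul_le_mul_left (le_trans ?_ s5) n0
    have s6 := mul_le_mul_of_nonneg_left s1 (show 0 ≤ n * (μ ^ N * (c' / 4) * Q) by positivity)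
    linarith
  have fin := sum_le_sum one
  rw [← mul_sum, sum_comm] at fin
  have fin2 := fin.trans ((sum_le_sum fun z _ => sum_Ev (x := x) (z := z) hπ hBL F
    (fun y => y + ev i 1) fun y hy h => by
      have a1 := hBi _ h
      have a2 := (mem_flt.1 (hF ▸ hy)).2
      simp only [ev, Pi.add_apply, Pi.single_eq_same] at a1
      omega).trans (hup x))
  rw [le_div_iff₀ (by positivity)]
  refine le_of_mul_le_mul_right (le_trans (le_of_eq ?_) fin2) hQ0
  ring

end Pool.Agent.TPC.S7
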