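import Pool.Agent.Lib.TPC.All
import Pool.Agent.Lib.TP7.BRZ
import Pool.Agent.Lib.TP7.Blue
import Pool.Agent.Lib.TP7.CROSS
import Pool.Agent.Lib.TP7.E12
import Pool.Agent.Lib.TP7.ETQ
import Pool.Agent.Lib.TP7.FLOW
import Pool.Agent.Lib.TP7.FUP
import Pool.Agent.Lib.TP7.INC
import Pool.Agent.Lib.TP7.LBb
import Pool.Agent.Lib.TP7.LIN
import Pool.Agent.Lib.TP7.LOW
import Pool.Agent.Lib.TP7.NUMB
import Pool.Agent.Lib.TP7.PK2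
import Pool.Agent.Lib.TP7.PSI_LAY
import Pool.Agent.Lib.TP7.Piv
import Pool.Agent.Lib.TP7.SETC
import Pool.Agent.Lib.TP7.SETI
import Pool.Agent.Lib.TP7.SETII
import Pool.Agent.Lib.TP7.SETK
import Pool.Agent.Lib.TP7.SETL
import Pool.Agent.Lib.TP7.T1
import Pool.Agent.Lib.TP7.T2
import Pool.Agent.Lib.TP7.T2C
import Pool.Agent.Lib.TP7.T3
import Pool.Agent.Lib.TP7.UI
import Pool.Agent.Lib.TP7.UIIa
import Pool.Agent.Lib.TP7.UIIb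
import Pool.Agent.Lib.TP7.UP
import Pool.Agent.Lib.TP7.Y
import Pool.Agent.Lib.TP7.Yb
import Pool.Agent.Lib.TP7.Z1
import Pool.Agent.Lib.TP7.Z1M
import Pool.Agent.Lib.TP7.Z2_Z9
import Pool.Agent.Lib.TP7.Z3
import Pool.Agent.Lib.TP7.Z3A
import Pool.Agent.Lib.TP7.Z4
import Pool.Agent.Lib.TP7.Z5
import Pool.Agent.Lib.TP7.Z7
import Pool.Agent.Lib.TP7.Z8

/-! Assembly of all blocks for `d ≥ 7`. -/

namespace Pool.Agent.TPC.S7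

theorem b_Z1m : St_Z1m := st_Z1m All.a_PL1 All.a_PL2 All.a_S3
theorem b_Z1 : St_Z1 := st_Z1 All.a_RUSSO All.a_Z1p b_Z1m All.a_S12
theorem b_Z2 : St_Z2 := st_Z2 b_Z1 All.a_E1
theorem b_Z3a : St_Z3a := st_Z3a All.a_SLB
theorem b_Z3 : St_Z3 := st_Z3 All.a_FACE b_Z3a
theorem b_ETQ : St_ETQ := st_ETQ All.a_ET All.a_S12
theorem b_CROSS : St_CROSS := st_CROSS All.a_DC b_Z2
theorem b_Z4 : St_Z4 := st_Z4 b_Z3 b_ETQ b_CROSS All.a_TOUCH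
theorem b_Z5 : St_Z5 := st_Z5 b_Z4 All.a_RS All.a_PL1 All.a_S12
theorem b_PSI : St_PSI := st_PSI b_Z5
theorem b_E2B : St_E2B := st_E2B All.a_LAY All.a_S12
theorem b_E1B : St_E1B := st_E1B All.a_LAY All.a_S12
theorem b_INC : St_INC := st_INC b_PSI All.a_FACE All.a_SLK b_E2B b_E1B
theorem b_Z7L : St_Z7L := st_Z7L b_INC b_Z1
theorem b_Z7a : St_Z7a := st_Z7a b_Z7L All.a_SLB
theorem b_T1 : St_T1 := st_T1 All.a_COVER All.a_TG0 b_Z1 b_Z2 b_Z7a All.a_S4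
theorem b_SETC : St_SETC := st_SETC b_T1 All.a_TK1
theorem b_SETK : St_SETK := st_SETK b_T1 All.a_TK2 All.a_GRID
theorem b_Z8 : St_Z8 := st_Z8 All.a_PL6 All.a_S3 All.a_SLB All.a_FACE b_PSI
theorem b_SETL : St_SETL := st_SETL b_Z8
theorem b_SETII : St_SETII := st_SETII b_SETC All.a_SETS b_SETK All.a_SETN b_SETL All.a_REG
theorem b_Z7b : St_Z7b := st_Z7b b_Z7L All.a_SLB All.a_E1 b_Z1
theorem b_Yb : St_Yb := st_Yb b_Z2 b_Z7b All.a_E1 All.a_CHI All.a_ET All.a_DC All.a_S12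
theorem b_Y : St_Y := st_Y b_Yb All.a_GRID All.a_COL
theorem b_PK2 : St_PK2 :=
  st_PK2 b_SETII All.a_BADP All.a_MAIN All.a_LEV b_Y All.a_GRID All.a_OJ All.a_GGC
theorem b_T2c : St_T2c := st_T2c All.a_S12 All.a_S3
theorem b_T2m : St_T2m := st_T2m b_Z8
theorem b_T2 : St_T2 := st_T2 All.a_T2a All.a_T2b b_T2c All.a_T2e b_T2m b_Z7a
theorem b_SETI : St_SETI := st_SETI b_SETC All.a_SETS b_T2
theorem b_UI : St_UI := st_UI b_SETI All.a_BADP All.a_MAIN All.a_LEV All.a_GGC All.a_UPA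
theorem b_UIIa : St_UIIa := st_UIIa All.a_UPA All.a_OJ All.a_GGC All.a_HULL
theorem b_NUMB : St_NUMB := st_NUMB
theorem b_UIIb : St_UIIb :=
  st_UIIb b_NUMB All.a_UPA All.a_OJ All.a_GGC All.a_CALM All.a_NONO All.a_OVER
theorem b_UP : St_UP := st_UP b_PK2 b_UI b_UIIa b_UIIb
theorem b_BRZ : St_BRZ := st_BRZ All.a_BR0
theorem b_FUP : St_FUP := st_FUP b_UP b_BRZ All.a_BRT
theorem b_LIN : St_LIN := st_LIN b_PK2 All.a_CUBE All.a_GRID All.a_GGC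
theorem b_Z7c : St_Z7c := st_Z7c b_Z7L All.a_SLB b_Z7b
theorem b_Z9 : St_Z9 := st_Z9 b_Z1 b_Z2 All.a_E1
theorem b_LBb : St_LBb := st_LBb All.a_ENT b_Z7c b_Z9
theorem b_LOW : St_LOW := st_LOW b_LIN b_LBb All.a_LBc
theorem b_T3 : St_T3 := st_T3 All.a_BRC All.a_BRT b_Z2 b_T1 b_T2 All.a_ET2 All.a_DC2
theorem b_FLOW : St_FLOW := st_FLOW b_LOW b_T3 b_BRZ All.a_BRT
theorem b_THM : St_THM := st_THM b_FUP b_FLOW

end Pool.Agent.TPC.S7
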